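import Pool.Statements.S00019
import Pool.Agent.Lib.P0d2d15.Final

set_option autoImplicit false
open Pool Pool.MP_0d2d15_ag

namespace Pool.Agent.S00019

/-- There is a homogeneous ideal Q in a polynomial ring over a field whose symbolic powers Q^(t) have depth of S/Q^(t) (w.r.t. the irrelevant ideal) not eventually periodic in t. -/
theorem result :
  ∃ (k : Type) (_ : Field k) (n : ℕ) (Q : Ideal (MvPolynomial (Fin n) k))
    (Qs : ℕ → Ideal (MvPolynomial (Fin n) k)),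
    (∀ p ∈ Q, ∀ d : ℕ, MvPolynomial.homogeneousComponent d p ∈ Q) ∧
    (∀ t : ℕ, ∀ f : MvPolynomial (Fin n) k,
      f ∈ Qs t ↔ ∃ s : MvPolynomial (Fin n) k,
        (∀ P ∈ Q.minimalPrimes, s ∉ P) ∧ s * f ∈ Q ^ t) ∧
    ¬ ∃ p : ℕ, 0 < p ∧ ∃ N : ℕ, ∀ t : ℕ, N ≤ t →
      sSup {m : ℕ | ∃ rs : List (MvPolynomial (Fin n) k), rs.length = m ∧
          (∀ r ∈ rs, MvPolynomial.constantCoeff r = 0) ∧
          RingTheory.Sequence.IsRegular (MvPolynomial (Fin n) k ⧸ Qs (t + p)) rs}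
      = sSup {m : ℕ | ∃ rs : List (MvPolynomial (Fin n) k), rs.length = m ∧
          (∀ r ∈ rs, MvPolynomial.constantCoeff r = 0) ∧
          RingTheory.Sequence.IsRegular (MvPolynomial (Fin n) k ⧸ Qs t) rs} :=
  ⟨ZMod 2, inferInstance, 5, Pool.Agent.P0d2d15.Q, Pool.Agent.P0d2d15.Xt,
    Pool.Agent.P0d2d15.Q_homogeneousComponent, Pool.Agent.P0d2d15.symb,
    Pool.Agent.P0d2d15.not_periodic⟩

end Pool.Agent.S00019
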