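import Pool.Statements.S00201
import Pool.Agent.Lib.StarN.Proj

set_option autoImplicit false
open Pool Pool.MP_5c592f_ag

namespace Pool.Agent.S00201

/-- Over an algebraically closed field, if a finite set S of points in projective N-space has a(S,m)/m = (a(S,1)+N-1)/N for some m ≥ 1, then S lies in a hyperplane or S is the star configuration of s ≥ N hyperplanes in general position. -/
theorem result :
  ∀ (k : Type) [Field k] [IsAlgClosed k] (N : ℕ), 1 ≤ N →
  ∀ (S : Finset (Projectivization k (Fin (N+1) → k))) (a : ℕ → ℕ),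
    (∀ m : ℕ, 1 ≤ m → IsLeast {d : ℕ | ∃ F : MvPolynomial (Fin (N+1)) k, F ≠ 0 ∧ F.IsHomogeneous d ∧
        ∀ p ∈ S, F ∈ (Ideal.span {G : MvPolynomial (Fin (N+1)) k |
            G.IsHomogeneous 1 ∧ MvPolynomial.eval p.rep G = 0}) ^ m} (a m)) →
    (∃ m : ℕ, 1 ≤ m ∧ ((a m : ℚ) / (m : ℚ) = ((a 1 : ℚ) + (N : ℚ) - 1) / (N : ℚ))) →
    (∃ φ : (Fin (N+1) → k) →ₗ[k] k, φ ≠ 0 ∧ ∀ p ∈ S, φ p.rep = 0) ∨
    (∃ (s : ℕ) (c : Fin s → ((Fin (N+1) → k) →ₗ[k] k)), N ≤ s ∧
      (∀ t : Finset (Fin s), t.card ≤ N + 1 → LinearIndepOn k c (t : Set (Fin s))) ∧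
      ∀ p : Projectivization k (Fin (N+1) → k),
        p ∈ S ↔ N ≤ {j : Fin s | c j p.rep = 0}.ncard) := by
  intro k _ _ N hN S a ha hm
  obtain ⟨m, hm1, hmeq⟩ := hm
  have h1 : IsLeast (Pool.Agent.Lib.P5c592f.Degs S 1) (a 1) := ha 1 le_rfl
  have hd : a m ∈ Pool.Agent.Lib.P5c592f.Degs S m := (ha m hm1).1
  have hgoal : Pool.Agent.Lib.P5c592f.Concl S := by
    by_cases ha1 : a 1 ≤ 1
    · exact Pool.Agent.Lib.P5c592f.concl_of_small h1 ha1
    obtain ⟨t, ht⟩ : ∃ t, a 1 = t + 1 := ⟨a 1 - 1, by omega⟩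
    have hH := Pool.Agent.Lib.P5c592f.HH_of_least h1 (show t < a 1 by omega)
    have heq : N * a m = m * (t + N) := by
      have hmQ : (m : ℚ) ≠ 0 := by exact_mod_cast (by omega : m ≠ 0)
      have hNQ : (N : ℚ) ≠ 0 := by exact_mod_cast (by omega : N ≠ 0)
      rw [div_eq_div_iff hmQ hNQ, ht] at hmeq
      have h2 : ((N * a m : ℕ) : ℚ) = ((m * (t + N) : ℕ) : ℚ) := by
        push_cast at hmeq ⊢
        linear_combination hmeq
      exact_mod_cast h2
    obtain ⟨F, hF0, hF, hv⟩ := hd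
    have hfin : (Pool.Agent.Lib.P5c592f.reps S).Finite := by
      have : Pool.Agent.Lib.P5c592f.reps S = (fun p : Projectivization k (Fin (N + 1) → k) =>
          p.rep) '' (S : Set _) := by
        ext v
        constructor
        · rintro ⟨p, hp, rfl⟩
          exact ⟨p, hp, rfl⟩
        · rintro ⟨p, hp, rfl⟩
          exact ⟨p, hp, rfl⟩
      rw [this]
      exact (Finset.finite_toSet S).image _
    obtain ⟨c, hc⟩ := Pool.Agent.Lib.StarN.starN hN hfin Pool.Agent.Lib.P5c592f.reps_ne hH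
      (by omega) hm1 hF hF0 (by
        rintro v ⟨p, hp, rfl⟩
        exact hv p hp) heq
    exact Pool.Agent.Lib.P5c592f.concl_of_star (by omega) c hc
  exact hgoal

end Pool.Agent.S00201
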