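import Pool.Statements.S00427
import Pool.Agent.Lib.Pc2352a.Final

set_option autoImplicit false
open Pool Pool.MP_c2352a_ag

namespace Pool.Agent.S00427

/-- For a degree-d (d=4,5,6) nodal quintary form F with at most 2(d-2)(d-1) singular points and some non-principal height-one prime mod F, V(F) contains a plane or an irreducible quadric surface, and a quadric forces exactly 2(d-2)(d-1) nodes. -/
theorem result :
    ∀ (d : ℕ) (F : MvPolynomial (Fin 5) ℂ),
      (d = 4 ∨ d = 5 ∨ d = 6) →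
      F.IsHomogeneous d →
      (∀ p : Projectivization ℂ (Fin 5 → ℂ),
          MvPolynomial.eval p.rep F = 0 →
          (∀ i : Fin 5, MvPolynomial.eval p.rep (MvPolynomial.pderiv i F) = 0) →
          (Matrix.of (fun i j : Fin 5 =>
              MvPolynomial.eval p.rep
                (MvPolynomial.pderiv i (MvPolynomial.pderiv j F)))).rank = 4) →
      {p : Projectivization ℂ (Fin 5 → ℂ) |
          MvPolynomial.eval p.rep F = 0 ∧
          ∀ i : Fin 5, MvPolynomial.eval p.rep (MvPolynomial.pderiv i F) = 0}.encard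
        ≤ ((2 * (d - 2) * (d - 1) : ℕ) : ℕ∞) →
      (∃ P : Ideal (MvPolynomial (Fin 5) ℂ),
          P.IsPrime ∧ F ∈ P ∧ P.height = 2 ∧
          ∀ G : MvPolynomial (Fin 5) ℂ, P ≠ Ideal.span {F, G}) →
      ((∃ L : (Fin 3 → ℂ) →ₗ[ℂ] (Fin 5 → ℂ),
          Function.Injective L ∧ ∀ v, MvPolynomial.eval (L v) F = 0) ∨
        (∃ (L : (Fin 4 → ℂ) →ₗ[ℂ] (Fin 5 → ℂ)) (q : MvPolynomial (Fin 4) ℂ),
          Function.Injective L ∧ q.IsHomogeneous 2 ∧ Irreducible q ∧
          ∀ v, MvPolynomial.eval v q = 0 → MvPolynomial.eval (L v) F = 0)) ∧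
      ((∃ (L : (Fin 4 → ℂ) →ₗ[ℂ] (Fin 5 → ℂ)) (q : MvPolynomial (Fin 4) ℂ),
          Function.Injective L ∧ q.IsHomogeneous 2 ∧ Irreducible q ∧
          ∀ v, MvPolynomial.eval v q = 0 → MvPolynomial.eval (L v) F = 0) →
        {p : Projectivization ℂ (Fin 5 → ℂ) |
          MvPolynomial.eval p.rep F = 0 ∧
          ∀ i : Fin 5, MvPolynomial.eval p.rep (MvPolynomial.pderiv i F) = 0}.encard
          = ((2 * (d - 2) * (d - 1) : ℕ) : ℕ∞)) := by
  intro d F hd hF hnod hcard hP
  exact Pool.Agent.Lib.Pc2352a.Asm.final d F hd hF hnod hcard hP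

end Pool.Agent.S00427
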