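import Pool.Statements.S00799
import Pool.Agent.Lib.P166ae0.Dir1
import Pool.Agent.Lib.P166ae0.Dir2

set_option autoImplicit false
open Pool Pool.MP_166ae0_al

namespace Pool.Agent.S00799

/-- For a finite-dim restricted Lie algebra over an alg. closed field of char p, some reduced enveloping algebra u(g,χ) is semisimple iff some linear form ξ has a toral centralizer (abelian, p-closed, made of p-semisimple elements). -/
theorem result :
    ∀ (p : ℕ) [Fact p.Prime] (K : Type) [Field K] [IsAlgClosed K] [CharP K p]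
      (L : Type) [LieRing L] [LieAlgebra K L] [FiniteDimensional K L] (pmap : L → L),
      (∃ (n : ℕ) (ι : L →ₗ[K] Matrix (Fin n) (Fin n) K),
          Function.Injective ι ∧
          (∀ x y : L, ι ⁅x, y⁆ = ι x * ι y - ι y * ι x) ∧
          ∀ x : L, ι (pmap x) = ι x ^ p) →
      ((∃ χ : Module.Dual K L,
          IsSemisimpleRing
            (RingQuot (fun a b : TensorAlgebra K L =>
              (∃ x y : L, a = TensorAlgebra.ι K x * TensorAlgebra.ι K y
                  - TensorAlgebra.ι K y * TensorAlgebra.ι K x ∧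
                  b = TensorAlgebra.ι K ⁅x, y⁆) ∨
              (∃ x : L, a = (TensorAlgebra.ι K x) ^ p - TensorAlgebra.ι K (pmap x) ∧
                  b = algebraMap K (TensorAlgebra K L) (χ x ^ p))))) ↔
        ∃ ξ : Module.Dual K L,
          (∀ x : L, (∀ y : L, ξ ⁅x, y⁆ = 0) →
              ∀ z : L, (∀ y : L, ξ ⁅z, y⁆ = 0) → ⁅x, z⁆ = 0) ∧
          (∀ x : L, (∀ y : L, ξ ⁅x, y⁆ = 0) → ∀ y : L, ξ ⁅pmap x, y⁆ = 0) ∧
          (∀ x : L, (∀ y : L, ξ ⁅x, y⁆ = 0) →
              x ∈ Submodule.span K (Set.range (fun k : ℕ => pmap^[k + 1] x)))) := by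
  intro p _ K _ _ _ L _ _ _ pmap ⟨n, ι, hinj, hlie, hp⟩
  let E : Pool.Agent.P166ae0.REmb K L p n :=
    { ι := ι, inj := hinj, lie := hlie, pmap := pmap, hp := hp }
  constructor
  · rintro ⟨χ, h⟩
    exact E.dir1 χ h
  · rintro ⟨ξ, h1, _, h3⟩
    exact E.dir2 ξ h1 h3

end Pool.Agent.S00799
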