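import Pool.Statements.S01194

/-!
A finite connected quandle of order `9 * 3 * 5 * 7 * 11 = 10395` in which the cycle lengths of a
translation are `1, 2` and the four numbers `2 * (product of three of 3, 5, 7, 11)`; none of the
four long lengths is divisible by the others.  So Hayashi's conjecture is false.

The quandle is `X = (ZMod 3)^2 x ZMod 3 x ZMod 5 x ZMod 7 x ZMod 11` with
`(A, g) * (B, d) = (2 A - B, - d_i + c (lam_i (B - A)) g_i + s (lam_i (B - A)))`,
where `lam_i` runs over the four linear forms on `(ZMod 3)^2` up to sign, and `c x = 2 cos (2 pi x / 3)`,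
`s` is the odd function with `s 1 = 1` on `ZMod 3`.
-/

set_option autoImplicit false
open Pool Pool.MP_37d31d_al

namespace Pool.Agent.S01194

/-- The four pairwise coprime odd moduli. -/
def r : Fin 4 → ℕ := ![3, 5, 7, 11]

instance instNeZeroR (i : Fin 4) : NeZero (r i) := by
  fin_cases i <;> exact ⟨by decide⟩

/-- The four linear forms on `(ZMod 3)^2`, up to sign. -/
def lam (i : Fin 4) (v : ZMod 3 × ZMod 3) : ZMod 3 := ![v.1, v.2, v.1 + v.2, v.1 - v.2] i

/-- `c x = 2 cos (2 pi x / 3)`. -/
def c (x : ZMod 3) : ℤ := if x = 0 then 2 else -1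

/-- The odd function with value `1` at `1`. -/
def s (x : ZMod 3) : ℤ := if x = 0 then 0 else if x = 1 then 1 else -1

theorem c_mul : ∀ x y : ZMod 3, c x * c y = c (x + y) + c (x - y) := by decide

theorem s_mul : ∀ x y : ZMod 3, s x * c y = s (x + y) + s (x - y) := by decide

theorem c_neg : ∀ x : ZMod 3, c (-x) = c x := by decide

theorem s_neg : ∀ x : ZMod 3, s (-x) = - s x := by decide

theorem c_zero : c 0 = 2 := by decide

theorem s_zero : s 0 = 0 := by decide

theorem lam_sub (i : Fin 4) (v w : ZMod 3 × ZMod 3) : lam i (v - w) = lam i v - lam i w := by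
  fin_cases i <;> simp [lam] <;> ring

theorem lam_two (i : Fin 4) (v : ZMod 3 × ZMod 3) : lam i (v + v) = lam i v + lam i v := by
  fin_cases i <;> simp [lam] <;> ring

theorem lam_zero (i : Fin 4) : lam i 0 = 0 := by
  fin_cases i <;> simp [lam]

/-- The underlying set of the quandle. -/
structure X : Type where
  /-- the base coordinate -/
  bs : ZMod 3 × ZMod 3
  /-- the fibre coordinates -/
  fb : (i : Fin 4) → ZMod (r i)

/-- `X` is a product. -/
def eqvX : ((ZMod 3 × ZMod 3) × ((i : Fin 4) → ZMod (r i))) ≃ X where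
  toFun p := ⟨p.1, p.2⟩
  invFun x := (x.bs, x.fb)
  left_inv _ := rfl
  right_inv _ := rfl

noncomputable instance instFintypeX : Fintype X := Fintype.ofEquiv _ eqvX

/-- The quandle operation. -/
def op (x y : X) : X :=
  ⟨x.1 + x.1 - y.1, fun i =>
    - y.2 i + (c (lam i y.1 - lam i x.1) : ZMod (r i)) * x.2 i
      + (s (lam i y.1 - lam i x.1) : ZMod (r i))⟩

theorem X_ext {x y : X} (h1 : x.1 = y.1) (h2 : ∀ i, x.2 i = y.2 i) : x = y := by
  cases x
  cases y
  cases h1
  congr
  funext i
  exact h2 i

theorem op_fst (x y : X) : (op x y).1 = x.1 + x.1 - y.1 := rfl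

theorem op_snd (x y : X) (i : Fin 4) : (op x y).2 i =
    - y.2 i + (c (lam i y.1 - lam i x.1) : ZMod (r i)) * x.2 i
      + (s (lam i y.1 - lam i x.1) : ZMod (r i)) := rfl

theorem op_distrib (x y z : X) : op x (op y z) = op (op x y) (op x z) := by
  apply X_ext
  · simp only [op_fst]
    abel
  · intro i
    simp only [op_snd, op_fst, lam_sub, lam_two]
    set a := lam i x.1
    set b := lam i y.1
    set d := lam i z.1
    have e1 : (a + a - d - (a + a - b)) = b - d := by ring
    have e2 : (b + b - d - a) = (b - d) + (b - a) := by ring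
    have e3 : (d - b) = - (b - d) := by ring
    have e4 : d - a = (b - a) - (b - d) := by ring
    rw [e1, e2, e3, c_neg, s_neg]
    have h1 : ((c (b - d + (b - a)) : ℤ) : ZMod (r i)) + (c (d - a) : ℤ)
        = (c (b - a) : ℤ) * (c (b - d) : ℤ) := by
      rw [e4]
      have := c_mul (b - a) (b - d)
      rw [add_comm (b - d) (b - a)]
      rw [← Int.cast_add, ← Int.cast_mul, this]
    have h2 : ((s (b - d + (b - a)) : ℤ) : ZMod (r i)) + (s (d - a) : ℤ)
        = (s (b - a) : ℤ) * (c (b - d) : ℤ) := by
      rw [e4]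
      have := s_mul (b - a) (b - d)
      rw [add_comm (b - d) (b - a)]
      rw [← Int.cast_add, ← Int.cast_mul, this]
    push_cast
    linear_combination (x.2 i) * h1 + h2

/-- The inverse operation. -/
def iop (x y : X) : X :=
  ⟨x.1 + x.1 - y.1, fun i =>
    - y.2 i + (c (lam i y.1 - lam i x.1) : ZMod (r i)) * x.2 i
      - (s (lam i y.1 - lam i x.1) : ZMod (r i))⟩

theorem iop_fst (x y : X) : (iop x y).1 = x.1 + x.1 - y.1 := rfl

theorem iop_snd (x y : X) (i : Fin 4) : (iop x y).2 i =
    - y.2 i + (c (lam i y.1 - lam i x.1) : ZMod (r i)) * x.2 i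
      - (s (lam i y.1 - lam i x.1) : ZMod (r i)) := rfl

theorem iop_op (x y : X) : iop x (op x y) = y := by
  apply X_ext
  · simp only [op_fst, iop_fst]
    abel
  · intro i
    simp only [op_snd, op_fst, iop_snd, lam_sub, lam_two]
    have e : lam i x.1 + lam i x.1 - lam i y.1 - lam i x.1 = -(lam i y.1 - lam i x.1) := by ring
    rw [e, c_neg, s_neg]
    push_cast
    ring

theorem op_iop (x y : X) : op x (iop x y) = y := by
  apply X_ext
  · simp only [op_fst, iop_fst]
    abel
  · intro i
    simp only [op_snd, iop_fst, iop_snd, lam_sub, lam_two]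
    have e : lam i x.1 + lam i x.1 - lam i y.1 - lam i x.1 = -(lam i y.1 - lam i x.1) := by ring
    rw [e, c_neg, s_neg]
    push_cast
    ring

theorem op_self (x : X) : op x x = x := by
  apply X_ext
  · simp only [op_fst]
    abel
  · intro i
    simp only [op_snd, sub_self, c_zero, s_zero]
    push_cast
    ring

instance instQuandleX : Quandle X where
  act := op
  self_distrib := by
    intro x y z
    exact op_distrib x y z
  invAct := iop
  left_inv := iop_op
  right_inv := op_iop
  fix := by
    intro x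
    exact op_self x

theorem act_eq (x y : X) : Shelf.act x y = op x y := rfl

/-- Inverses of `2` modulo `r i`. -/
def hh (i : Fin 4) : ℕ := ![2, 3, 4, 6] i

theorem hh_spec (i : Fin 4) : ((hh i + hh i : ℕ) : ZMod (r i)) = 1 := by
  fin_cases i <;> rfl

/-- Every class of `ZMod (r i)` is twice another one. -/
theorem exists_half (i : Fin 4) (a : ZMod (r i)) : ∃ b : ZMod (r i), b + b = a := by
  refine ⟨(hh i : ZMod (r i)) * a, ?_⟩
  have := hh_spec i
  push_cast at this
  linear_combination a * this

theorem half3 (a : ZMod 3) : ∃ b : ZMod 3, b + b = a := by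
  revert a
  decide

/-- The quandle is connected: first move the base point, then move inside the fibre. -/
theorem connected (a b : X) :
    ∃ g ∈ Subgroup.closure (Set.range (Rack.act' : X → Equiv.Perm X)), g a = b := by
  obtain ⟨m1, hm1⟩ := half3 (a.1.1 + b.1.1)
  obtain ⟨m2, hm2⟩ := half3 (a.1.2 + b.1.2)
  let m : X := ⟨(m1, m2), fun _ => 0⟩
  -- `g1` moves `a` over the base point of `b`
  let g1 : Equiv.Perm X := Rack.act' m
  have hg1 : g1 ∈ Subgroup.closure (Set.range (Rack.act' : X → Equiv.Perm X)) :=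
    Subgroup.subset_closure ⟨m, rfl⟩
  have hbase : (g1 a).1 = b.1 := by
    change (m1, m2) + (m1, m2) - a.1 = b.1
    apply Prod.ext
    · change m1 + m1 - a.1.1 = b.1.1
      rw [hm1]
      ring
    · change m2 + m2 - a.1.2 = b.1.2
      rw [hm2]
      ring
  choose hf hhf using fun i => exists_half i (b.2 i - (g1 a).2 i)
  let u : X := ⟨b.1, fun i => hf i⟩
  let v : X := ⟨b.1, fun _ => 0⟩
  let g2 : Equiv.Perm X := Rack.act' u * (Rack.act' v)⁻¹
  have hg2 : g2 ∈ Subgroup.closure (Set.range (Rack.act' : X → Equiv.Perm X)) :=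
    Subgroup.mul_mem _ (Subgroup.subset_closure ⟨u, rfl⟩)
      (Subgroup.inv_mem _ (Subgroup.subset_closure ⟨v, rfl⟩))
  refine ⟨g2 * g1, Subgroup.mul_mem _ hg2 hg1, ?_⟩
  change op u (iop v (g1 a)) = b
  apply X_ext
  · rw [op_fst, iop_fst, hbase]
    change b.1 + b.1 - (b.1 + b.1 - b.1) = b.1
    abel
  · intro i
    rw [op_snd, iop_snd, iop_fst, hbase]
    have e1 : lam i (v.1 + v.1 - b.1) - lam i u.1 = 0 := by
      change lam i (b.1 + b.1 - b.1) - lam i b.1 = 0
      rw [lam_sub, lam_two]
      ring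
    have e2 : lam i b.1 - lam i v.1 = 0 := by
      change lam i b.1 - lam i b.1 = 0
      ring
    rw [e1, e2, c_zero, s_zero]
    change -(-(g1 a).2 i + ((2 : ℤ) : ZMod (r i)) * 0 - ((0 : ℤ) : ZMod (r i)))
      + ((2 : ℤ) : ZMod (r i)) * hf i + ((0 : ℤ) : ZMod (r i)) = b.2 i
    have := hhf i
    push_cast
    linear_combination this

/-- The base point. -/
def x0 : X := ⟨0, fun _ => 0⟩

theorem op_x0_twice (y : X) : op x0 (op x0 y) =
    ⟨y.1, fun i => y.2 i - ((2 * s (lam i y.1) : ℤ) : ZMod (r i))⟩ := by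
  apply X_ext
  · simp only [op_fst]
    change (0 : ZMod 3 × ZMod 3) + 0 - (0 + 0 - y.1) = y.1
    abel
  · intro i
    simp only [op_snd, op_fst]
    change -(-y.2 i + (c (lam i y.1 - lam i 0) : ZMod (r i)) * 0 + (s (lam i y.1 - lam i 0) : ZMod (r i)))
      + (c (lam i (0 + 0 - y.1) - lam i 0) : ZMod (r i)) * 0
      + (s (lam i (0 + 0 - y.1) - lam i 0) : ZMod (r i)) = y.2 i - ((2 * s (lam i y.1) : ℤ) : ZMod (r i))
    rw [lam_sub, lam_two, lam_zero]
    have e1 : lam i y.1 - 0 = lam i y.1 := by ring
    have e2 : (0 : ZMod 3) + 0 - lam i y.1 - 0 = -(lam i y.1) := by ring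
    rw [e1, e2, s_neg]
    push_cast
    ring

/-- The even iterates of the translation by `x0`. -/
theorem iterate_even (k : ℕ) (y : X) : (Shelf.act x0)^[2 * k] y =
    ⟨y.1, fun i => y.2 i - ((k * (2 * s (lam i y.1)) : ℤ) : ZMod (r i))⟩ := by
  induction k with
  | zero =>
    apply X_ext
    · rfl
    · intro i
      simp
  | succ n ih =>
    rw [show 2 * (n + 1) = 2 + 2 * n by ring, Function.iterate_add_apply, ih]
    change op x0 (op x0 _) = _
    rw [op_x0_twice]
    apply X_ext
    · rfl
    · intro i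
      push_cast
      ring

/-- The product of the moduli other than `r i`. -/
def M (i : Fin 4) : ℕ := ![385, 231, 165, 105] i

theorem M_dvd : ∀ i j : Fin 4, i ≠ j → r j ∣ M i := by decide

theorem M_not : ∀ i : Fin 4, ¬ (r i ∣ 2 * M i) := by decide

theorem exists_lam : ∀ v : ZMod 3 × ZMod 3, ∃ i : Fin 4, lam i v = 0 := by decide

theorem exists_point : ∀ i : Fin 4, ∃ v : ZMod 3 × ZMod 3, lam i v = 1 := by decide

theorem period_dvd (z : X) (i : Fin 4) (hz : lam i z.1 = 0) :
    Function.minimalPeriod (Shelf.act x0) z ∣ 2 * M i := by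
  rw [← Function.isPeriodicPt_iff_minimalPeriod_dvd]
  change (Shelf.act x0)^[2 * M i] z = z
  rw [iterate_even]
  apply X_ext
  · rfl
  · intro j
    change z.2 j - ((M i * (2 * s (lam j z.1)) : ℤ) : ZMod (r j)) = z.2 j
    by_cases hij : i = j
    · subst hij
      rw [hz, s_zero]
      simp
    · obtain ⟨k, hk⟩ := M_dvd i j hij
      have : ((M i : ℕ) : ZMod (r j)) = 0 := by
        rw [hk]
        push_cast
        simp
      push_cast
      rw [this]
      ring

theorem not_period_dvd (i : Fin 4) : ∃ y : X,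
    ¬ (Function.minimalPeriod (Shelf.act x0) y ∣ 2 * M i) := by
  obtain ⟨v, hv⟩ := exists_point i
  refine ⟨⟨v, fun _ => 0⟩, ?_⟩
  rw [← Function.isPeriodicPt_iff_minimalPeriod_dvd]
  intro h
  have h' : (Shelf.act x0)^[2 * M i] (⟨v, fun _ => 0⟩ : X) = (⟨v, fun _ => 0⟩ : X) := h
  rw [iterate_even] at h'
  have h2 := congrFun (congrArg X.fb h') i
  have h3 : (0 : ZMod (r i)) - ((M i * (2 * s (lam i v)) : ℤ) : ZMod (r i)) = 0 := h2
  rw [hv] at h3
  have h4 : s 1 = 1 := by decide
  rw [h4] at h3
  have h5 : ((2 * M i : ℕ) : ZMod (r i)) = 0 := by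
    push_cast
    push_cast at h3
    linear_combination -h3
  rw [ZMod.natCast_eq_zero_iff] at h5
  exact M_not i h5

/-- The negation of the preceding statement: In every finite connected quandle, for each element x, some cycle of the translation by x has a length divisible by the length of every cycle of that translation; that is, all cycle lengths divide the largest one. -/
theorem result :
    ¬ (∀ (X : Type) [Quandle X] [Fintype X],
      (∀ a b : X, ∃ g ∈ Subgroup.closure (Set.range (Rack.act' : X → Equiv.Perm X)), g a = b) →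
      ∀ x : X, ∃ z : X, ∀ y : X,
        Function.minimalPeriod (Shelf.act x) y ∣ Function.minimalPeriod (Shelf.act x) z) := by
  intro H
  obtain ⟨z, hz⟩ := H X connected x0
  obtain ⟨i, hi⟩ := exists_lam z.1
  obtain ⟨y, hy⟩ := not_period_dvd i
  exact hy ((hz y).trans (period_dvd z i hi))

end Pool.Agent.S01194
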