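import Pool.Statements.S01449
import Pool.Agent.Lib.P5131b0.Dual
import Pool.Agent.Lib.P5131b0.Zero

set_option autoImplicit false
open Pool Pool.MP_5131b0_al

namespace Pool.Agent.S01449

/-- There is an uncountable dense subgroup G of the torus power T^ℝ, zero-dimensional, with every countable subgroup closed and every uncountable subgroup dense, whose evaluation map into its double Pontryagin dual is a topological group isomorphism. -/
theorem result :
    ∃ H : Subgroup (ℝ → Circle),
      Dense (H : Set (ℝ → Circle)) ∧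
      ¬ (H : Set (ℝ → Circle)).Countable ∧
      (∀ f : H → ℝ, Continuous f →
        ∃ U : Set H, IsClopen U ∧ f ⁻¹' {0} ⊆ U ∧ Disjoint U (f ⁻¹' {1})) ∧
      (∀ K : Subgroup H, (K : Set H).Countable → IsClosed (K : Set H)) ∧
      (∀ K : Subgroup H, ¬ (K : Set H).Countable → Dense (K : Set H)) ∧
      (∃ e : H ≃ₜ* PontryaginDual (PontryaginDual H),
        ∀ (g : H) (χ : PontryaginDual H), e g χ = χ g) := by
  obtain ⟨C⟩ := Pool.Agent.P5131b0.exists_mat
  exact ⟨Pool.Agent.P5131b0.HH C, Pool.Agent.P5131b0.dense_HH C,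
    Pool.Agent.P5131b0.uncountable_HH C, Pool.Agent.P5131b0.zero_dim C,
    Pool.Agent.P5131b0.closed_of_countable C, Pool.Agent.P5131b0.dense_of_uncountable C,
    Pool.Agent.P5131b0.evEquiv C, Pool.Agent.P5131b0.evEquiv_apply C⟩

end Pool.Agent.S01449
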