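import Pool.Statements.S01806
-- import your own Pool.Agent.* helpers here

set_option autoImplicit false
open Pool Pool.MP_6b3431_al

namespace Pool.Agent.S01806

/-! Counterexample: `F` is the class of groups with a normal Sylow 3-subgroup and 2-group quotient,
`M` the class of 3-groups, and `H` the subclass of `F` of groups all of whose elements act by
conjugation as even permutations of the Sylow 3-subgroup. -/


/-- Predicates on groups in `Type`. -/
abbrev Cls := (G : Type) → [Group G] → Prop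

/-- The Fitting class conditions as in the statement. -/
def Fit (C : Cls) : Prop :=
  (∀ (G K : Type) [Group G] [Group K], Nonempty (G ≃* K) → C G → C K) ∧
  (∀ (G : Type) [Group G] [Finite G] (N : Subgroup G), N.Normal → C G → C ↥N) ∧
  (∀ (G : Type) [Group G] [Finite G] (N K : Subgroup G),
    N.Normal → K.Normal → C ↥N → C ↥K → C ↥(N ⊔ K))

/-- Nonempty class (on finite groups). -/
def Ne (C : Cls) : Prop := ∃ (K : Type) (_ : Group K) (_ : Finite K), C K

theorem Fit.sub {C : Cls} (hC : Fit C) {W : Type} [Group W] [Finite W] {A B : Subgroup W}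
    (hAB : A ≤ B) (hn : (A.subgroupOf B).Normal) (hB : C ↥B) : C ↥A :=
  hC.1 _ _ ⟨Subgroup.subgroupOfEquivOfLe hAB⟩ (hC.2.1 _ _ hn hB)

theorem Fit.sup {C : Cls} (hC : Fit C) {W : Type} [Group W] [Finite W] {A A' B : Subgroup W}
    (hAB : A ≤ B) (hAB' : A' ≤ B)
    (hn : (A.subgroupOf B).Normal) (hn' : (A'.subgroupOf B).Normal) (hA : C ↥A) (hA' : C ↥A') :
    C ↥(A ⊔ A') := by
  have h1 : C ↥(A.subgroupOf B) := hC.1 _ _ ⟨(Subgroup.subgroupOfEquivOfLe hAB).symm⟩ hA
  have h2 : C ↥(A'.subgroupOf B) := hC.1 _ _ ⟨(Subgroup.subgroupOfEquivOfLe hAB').symm⟩ hA'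
  have h3 := hC.2.2 _ _ _ hn hn' h1 h2
  rw [← Subgroup.subgroupOf_sup hAB hAB'] at h3
  exact hC.1 _ _ ⟨Subgroup.subgroupOfEquivOfLe (sup_le hAB hAB')⟩ h3

theorem Fit.of_subsingleton {C : Cls} (hC : Fit C) (hne : Ne C) (G : Type) [Group G]
    [Subsingleton G] : C G := by
  obtain ⟨K, _, _, hK⟩ := hne
  have h1 : C ↥(⊥ : Subgroup K) := hC.2.1 K ⊥ inferInstance hK
  refine hC.1 _ _ ⟨?_⟩ h1
  have : Unique G := ⟨⟨1⟩, fun _ => Subsingleton.elim _ _⟩
  exact MulEquiv.ofUnique

theorem Fit.exists_radical {C : Cls} (hC : Fit C) (hne : Ne C) (G : Type) [Group G] [Finite G] :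
    ∃ N : Subgroup G, N.Normal ∧ C ↥N ∧ ∀ K : Subgroup G, K.Normal → C ↥K → K ≤ N := by
  have hfin : {N : Subgroup G | N.Normal ∧ C ↥N}.Finite := Set.toFinite _
  have hnem : {N : Subgroup G | N.Normal ∧ C ↥N}.Nonempty :=
    ⟨⊥, inferInstance, hC.of_subsingleton hne _⟩
  obtain ⟨N, hN⟩ := hfin.exists_maximal hnem
  refine ⟨N, hN.1.1, hN.1.2, fun K hK hCK => ?_⟩
  have hN1 := hN.1.1
  have h2 : (N ⊔ K) ∈ {N : Subgroup G | N.Normal ∧ C ↥N} :=
    ⟨Subgroup.sup_normal N K, hC.2.2 G N K hN.1.1 hK hN.1.2 hCK⟩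
  exact le_sup_right.trans (hN.2 h2 le_sup_left)

/-- A subgroup maximal among those in a Fitting class is normal, if `W` satisfies the
normalizer condition. -/
theorem Fit.maximal_normal {C : Cls} (hC : Fit C) {W : Type} [Group W] [Finite W]
    (hW : NormalizerCondition W) {A : Subgroup W}
    (hA : Maximal (fun A : Subgroup W => C ↥A) A) : A.Normal := by
  by_contra hn
  set N : Subgroup W := Subgroup.normalizer A with hNdef
  have hN : N < ⊤ := by
    rw [lt_top_iff_ne_top]
    intro h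
    exact hn (Subgroup.normalizer_eq_top_iff.mp h)
  have hNN := hW N hN
  obtain ⟨g, hgNN, hgN⟩ := SetLike.exists_of_lt hNN
  have hAN : A ≤ N := Subgroup.le_normalizer
  set B : Subgroup W := A.map (MulAut.conj g).toMonoidHom with hB
  have hBN : B ≤ N := by
    rintro x ⟨a, ha, rfl⟩
    have := (Subgroup.mem_normalizer_iff.mp hgNN a).mp (hAN ha)
    simpa using this
  have hCB : C ↥B := hC.1 _ _ ⟨(A.equivMapOfInjective _ (MulAut.conj g).injective)⟩ hA.1
  have hnA : (A.subgroupOf N).Normal := by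
    rw [hNdef]; infer_instance
  have hnB : (B.subgroupOf N).Normal := by
    rw [Subgroup.normal_subgroupOf_iff_le_normalizer hBN, Subgroup.le_normalizer_iff]
    rintro n hn x ⟨a, ha, rfl⟩
    have hg' : g⁻¹ * n * g ∈ N := by
      have := (Subgroup.mem_normalizer_iff''.mp hgNN n).mp hn
      simpa using this
    have h3 := (Subgroup.mem_normalizer_iff.mp hg' a).mp ha
    refine ⟨g⁻¹ * n * g * a * (g⁻¹ * n * g)⁻¹, h3, ?_⟩
    simp [mul_assoc]
  have hsup := hC.sup hAN hBN hnA hnB hA.1 hCB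
  have hle : A ⊔ B ≤ A := hA.2 hsup le_sup_left
  have hBA : B ≤ A := le_sup_right.trans hle
  apply hgN
  rw [hNdef, Subgroup.mem_normalizer_iff_map_conj_eq]
  apply Subgroup.eq_of_le_of_card_ge hBA
  rw [hB, Subgroup.card_map_of_injective (MulAut.conj g).injective]

/-- If `W` satisfies the normalizer condition then the `C`-subgroups of `W` generate a
`C`-subgroup. -/
theorem Fit.mem_of_generates {C : Cls} (hC : Fit C) (hne : Ne C) {W : Type} [Group W] [Finite W]
    (hW : NormalizerCondition W)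
    (hgen : ∀ M : Subgroup W, (∀ A : Subgroup W, C ↥A → A ≤ M) → M = ⊤) : C W := by
  have key : ∀ A : Subgroup W, C ↥A → ∃ M, A ≤ M ∧ Maximal (fun A : Subgroup W => C ↥A) M := by
    intro A hA
    obtain ⟨M, hM, hM'⟩ := (Set.toFinite {A : Subgroup W | C ↥A}).exists_le_maximal hA
    exact ⟨M, hM, hM'⟩
  obtain ⟨M, -, hM⟩ := key ⊥ (hC.of_subsingleton hne _)
  have hMn := hC.maximal_normal hW hM
  have hle : ∀ A : Subgroup W, C ↥A → A ≤ M := by
    intro A hA
    obtain ⟨M', hAM', hM'⟩ := key A hA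
    have hMn' := hC.maximal_normal hW hM'
    have h1 : C ↥(M ⊔ M') := hC.2.2 W M M' hMn hMn' hM.1 hM'.1
    exact hAM'.trans (le_sup_right.trans (hM.2 h1 le_sup_left))
  have := hgen M hle
  have hC' := hM.1
  rw [this] at hC'
  exact hC.1 _ _ ⟨Subgroup.topEquiv⟩ hC'

/-- Subgroups of `C`-groups satisfying the normalizer condition are `C`-groups. -/
theorem Fit.subgroup_mem {C : Cls} (hC : Fit C) {W : Type} [Group W] [Finite W]
    (hW : NormalizerCondition W) (hCW : C W) (A : Subgroup W) : C ↥A := by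
  induction A using WellFoundedGT.induction with
  | ind A ih =>
    by_cases hA : A = ⊤
    · rw [hA]
      exact hC.1 _ _ ⟨Subgroup.topEquiv.symm⟩ hCW
    · have hlt := hW A (lt_top_iff_ne_top.mpr hA)
      exact hC.sub hlt.le inferInstance (ih _ hlt)


theorem normalizerCondition_of_isPGroup {p : ℕ} [Fact p.Prime] {W : Type} [Group W] [Finite W]
    (hW : IsPGroup p W) : NormalizerCondition W := by
  have := hW.isNilpotent
  exact Group.normalizerCondition_of_isNilpotent

/-- The `i`-th coordinate subgroup map of a regular wreath product. -/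
noncomputable def wrSingle {D Q : Type} [Group D] [Group Q] (i : Q) : D →* RegularWreathProduct D Q := by
  classical exact
  { toFun := fun d => ⟨Pi.mulSingle i d, 1⟩
    map_one' := by ext <;> simp
    map_mul' := fun a b => by
      ext x
      · by_cases hx : x = i
        · subst hx; simp
        · simp [Pi.mulSingle_eq_of_ne hx]
      · simp }

theorem Fit.wreath {C : Cls} (hC : Fit C) {D Q : Type} [Group D] [Group Q] [Finite D] [Finite Q]
    (hD : C D) (hQ : C Q) (hW : NormalizerCondition (RegularWreathProduct D Q)) :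
    C (RegularWreathProduct D Q) := by
  classical
  refine hC.mem_of_generates ⟨D, _, inferInstance, hD⟩ hW fun M hM => ?_
  have h1 : ∀ i : Q, ∀ d : D, wrSingle (Q := Q) i d ∈ M := by
    intro i d
    have hinj : Function.Injective (wrSingle (D := D) (Q := Q) i) := by
      intro a b hab
      have := congrArg (fun z => z.left i) hab
      simpa [wrSingle] using this
    exact hM (wrSingle (D := D) (Q := Q) i).range
      (hC.1 _ _ ⟨MonoidHom.ofInjective hinj⟩ hD) ⟨d, rfl⟩
  have h2 : ∀ q : Q, (RegularWreathProduct.inl q : RegularWreathProduct D Q) ∈ M := by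
    intro q
    have hinj : Function.Injective (RegularWreathProduct.inl : Q →* RegularWreathProduct D Q) := by
      intro a b hab
      simpa using congrArg (fun z => z.right) hab
    exact hM (RegularWreathProduct.inl : Q →* RegularWreathProduct D Q).range
      (hC.1 _ _ ⟨MonoidHom.ofInjective hinj⟩ hQ) ⟨q, rfl⟩
  -- the base group
  let base : (Q → D) →* RegularWreathProduct D Q :=
    { toFun := fun f => ⟨f, 1⟩
      map_one' := rfl
      map_mul' := fun a b => by ext <;> simp }
  have h3 : ∀ f : Q → D, base f ∈ M := by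
    intro f
    cases nonempty_fintype Q
    have : f ∈ Subgroup.comap base M := by
      apply Subgroup.pi_mem_of_mulSingle_mem
      intro i
      exact h1 i (f i)
    exact this
  rw [eq_top_iff]
  intro x _
  have : x = base x.left * RegularWreathProduct.inl x.right := by
    ext <;> simp [base]
  rw [this]
  exact M.mul_mem (h3 _) (h2 _)

theorem Fit.iterated {C : Cls} (hC : Fit C) {p : ℕ} [Fact p.Prime] {G : Type} [Group G] [Finite G]
    (hG : Nat.card G = p) (hCG : C G) (n : ℕ) : C (IteratedWreathProduct G n) := by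
  induction n with
  | zero =>
    have : Subsingleton (IteratedWreathProduct G 0) := by
      rw [IteratedWreathProduct_zero]; infer_instance
    exact hC.of_subsingleton ⟨G, _, inferInstance, hCG⟩ _
  | succ n ih =>
    have hp : IsPGroup p (IteratedWreathProduct G (n + 1)) :=
      IsPGroup.of_card (n := ∑ i ∈ Finset.range (n + 1), p ^ i) (by
        rw [IteratedWreathProduct.card, hG])
    exact hC.wreath ih hCG (normalizerCondition_of_isPGroup hp)

/-- A Fitting class containing a group of prime order `p` contains all finite `p`-groups. -/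
theorem Fit.pgroup {C : Cls} (hC : Fit C) {p : ℕ} [Fact p.Prime] {G : Type} [Group G] [Finite G]
    (hG : Nat.card G = p) (hCG : C G) (P : Type) [Group P] [Finite P] (hP : IsPGroup p P) :
    C P := by
  obtain ⟨n, hn⟩ := IsPGroup.iff_card.mp hP
  let φ : P →* Equiv.Perm P := MulAction.toPermHom P P
  have hinj : Function.Injective φ := MulAction.toPerm_injective
  have hr : IsPGroup p φ.range := hP.of_equiv (MonoidHom.ofInjective hinj)
  obtain ⟨S, hS⟩ := hr.exists_le_sylow
  have hCS : C ↥(S : Subgroup (Equiv.Perm P)) :=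
    hC.1 _ _ ⟨(Sylow.mulEquivIteratedWreathProduct p n P hn G hG S).symm⟩ (hC.iterated hG hCG n)
  have h1 := hC.subgroup_mem (normalizerCondition_of_isPGroup S.2) hCS
    (φ.range.subgroupOf (S : Subgroup (Equiv.Perm P)))
  have h2 : C ↥φ.range := hC.1 _ _ ⟨Subgroup.subgroupOfEquivOfLe hS⟩ h1
  exact hC.1 _ _ ⟨(MonoidHom.ofInjective hinj).symm⟩ h2


/-- Sign of a permutation of a finite type. -/
noncomputable def sgn {α : Type} [Finite α] (e : Equiv.Perm α) : ℤˣ :=
  @Equiv.Perm.sign α (Classical.decEq α) (Fintype.ofFinite α) e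

theorem sgn_eq {α : Type} [hd : DecidableEq α] [hf : Fintype α] [hfin : Finite α]
    (e : Equiv.Perm α) : sgn e = Equiv.Perm.sign e := by
  unfold sgn
  congr!

theorem sgn_mul {α : Type} [Finite α] (e f : Equiv.Perm α) : sgn (e * f) = sgn e * sgn f := by
  unfold sgn
  exact map_mul _ _ _

theorem sgn_one {α : Type} [Finite α] : sgn (1 : Equiv.Perm α) = 1 := by
  unfold sgn
  exact map_one _

theorem sgn_congr {α β : Type} [Finite α] [Finite β] (i : α ≃ β) (e : Equiv.Perm α)
    (f : Equiv.Perm β) (h : ∀ x, i (e x) = f (i x)) : sgn e = sgn f := by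
  classical
  cases nonempty_fintype α
  cases nonempty_fintype β
  rw [sgn_eq, sgn_eq]
  exact Equiv.Perm.sign_eq_sign_of_equiv e f i h

theorem units_eq_one_of_odd_pow {u : ℤˣ} {n : ℕ} (hn : Odd n) (h : u ^ n = 1) : u = 1 := by
  rcases Int.units_eq_one_or u with h1 | h1
  · exact h1
  · subst h1
    rw [hn.neg_one_pow] at h
    exact absurd h (by decide)

theorem units_pow_odd {u : ℤˣ} {n : ℕ} (hn : Odd n) : u ^ n = u := by
  rcases Int.units_eq_one_or u with h1 | h1
  · subst h1; simp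
  · subst h1
    rw [hn.neg_one_pow]

/-- The key sign lemma: an automorphism acting trivially on the left cosets of `A`, in a group of
odd order, has the same sign as its restriction to `A`. -/
theorem sgn_restrict {P : Type} [Group P] [Finite P] (hodd : Odd (Nat.card P)) (A : Subgroup P)
    (φ : P ≃* P) (hφ : ∀ x, x⁻¹ * φ x ∈ A) (ψ : Equiv.Perm ↥A) (hψ : ∀ a : ↥A, (ψ a : P) = φ a) :
    sgn φ.toEquiv = sgn ψ := by
  classical
  obtain ⟨S, hS, -⟩ := A.exists_isComplement_left 1
  cases nonempty_fintype P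
  have : Fintype ↥A := Fintype.ofFinite _
  have : Fintype ↥S := Fintype.ofFinite _
  have hcard : Fintype.card ↥S * Fintype.card ↥A = Nat.card P := by
    have := hS.card_mul_card
    rw [Nat.card_eq_fintype_card] at this
    simpa [Nat.card_eq_fintype_card] using this
  have hoddA : Odd (Fintype.card ↥A) := by
    rw [← hcard] at hodd
    exact (Nat.odd_mul.mp hodd).2
  have hoddS : Odd (Fintype.card ↥S) := by
    rw [← hcard] at hodd
    exact (Nat.odd_mul.mp hodd).1
  let i : ↥S × ↥A ≃ P := Equiv.ofBijective (fun x : ↥S × ↥A => x.1.1 * x.2.1) hS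
  let c : ↥S → ↥A := fun s => ⟨(s : P)⁻¹ * φ s, hφ s⟩
  let σ : ↥S → Equiv.Perm ↥A := fun s => Equiv.mulLeft (c s) * ψ
  have h1 : sgn (Equiv.prodCongrRight σ) = sgn φ.toEquiv := by
    apply sgn_congr i
    rintro ⟨s, a⟩
    change (s : P) * ((c s * ψ a : ↥A) : P) = φ ((s : P) * (a : P))
    rw [Subgroup.coe_mul, hψ, map_mul]
    change (s : P) * ((s : P)⁻¹ * φ s * φ a) = _
    group
  have hc : ∀ a : ↥A, sgn (Equiv.mulLeft a) = 1 := by
    intro a
    apply units_eq_one_of_odd_pow hoddA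
    have : ∀ n : ℕ, sgn (Equiv.mulLeft a) ^ n = sgn (Equiv.mulLeft (a ^ n)) := by
      intro n
      induction n with
      | zero => 
        rw [pow_zero, pow_zero]
        have : Equiv.mulLeft (1 : ↥A) = 1 := by ext; simp
        rw [this, sgn_one]
      | succ n ih =>
        rw [pow_succ, ih, ← sgn_mul, pow_succ]
        congr 1
        ext x
        simp
    rw [this, pow_card_eq_one]
    have : Equiv.mulLeft (1 : ↥A) = 1 := by ext; simp
    rw [this, sgn_one]
  rw [← h1, sgn_eq, Equiv.Perm.sign_prodCongrRight]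
  have h2 : ∀ s : ↥S, Equiv.Perm.sign (σ s) = sgn ψ := by
    intro s
    rw [← sgn_eq, sgn_mul, hc, one_mul]
  simp only [h2, Finset.prod_const, Finset.card_univ]
  exact units_pow_odd hoddS


/-- `P` is a normal `3`-subgroup of `G` whose quotient is a `2`-group. -/
def Core (G : Type) [Group G] (P : Subgroup G) : Prop :=
  P.Normal ∧ IsPGroup 3 ↥P ∧ ∀ g : G, ∃ k : ℕ, g ^ 2 ^ k ∈ P

theorem Core.mem_iff {G : Type} [Group G] {P : Subgroup G} (h : Core G P) (x : G) :
    x ∈ P ↔ ∃ k : ℕ, x ^ 3 ^ k = 1 := by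
  constructor
  · intro hx
    obtain ⟨k, hk⟩ := h.2.1 ⟨x, hx⟩
    exact ⟨k, by simpa using congrArg Subtype.val hk⟩
  · rintro ⟨k, hk⟩
    obtain ⟨j, hj⟩ := h.2.2 x
    have hcop : IsCoprime ((3 : ℤ) ^ k) ((2 : ℤ) ^ j) := by
      apply IsCoprime.pow
      rw [Int.isCoprime_iff_gcd_eq_one]; rfl
    obtain ⟨a, b, hab⟩ := hcop
    have : x = (x ^ 3 ^ k) ^ a * (x ^ 2 ^ j) ^ b := by
      rw [← zpow_natCast, ← zpow_natCast, ← zpow_mul, ← zpow_mul, ← zpow_add]
      push_cast
      rw [mul_comm _ a, mul_comm _ b, hab, zpow_one]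
    rw [this, hk, one_zpow, one_mul]
    exact P.zpow_mem hj b

/-- The class `F` of groups with a normal Sylow `3`-subgroup and `2`-group quotient. -/
def clF : Cls := fun G _ => ∃ P : Subgroup G, Core G P

/-- The class of `3`-groups. -/
def clM : Cls := fun G _ => IsPGroup 3 G

/-- The class of finite groups in `F` all of whose elements induce even permutations on the Sylow
`3`-subgroup. -/
def clH : Cls := fun G _ => ∃ (_ : Finite G) (P : Subgroup G) (_ : P.Normal), Core G P ∧
  ∀ g : G, sgn (MulAut.conjNormal g : MulAut ↥P).toEquiv = 1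

theorem Core.map {G K : Type} [Group G] [Group K] (e : G ≃* K) {P : Subgroup G} (h : Core G P) :
    Core K (P.map e.toMonoidHom) := by
  refine ⟨h.1.map _ e.surjective, h.2.1.map _, fun g => ?_⟩
  obtain ⟨k, hk⟩ := h.2.2 (e.symm g)
  exact ⟨k, _, hk, by simp⟩

theorem Core.subgroupOf {G : Type} [Group G] {P : Subgroup G} (h : Core G P) (N : Subgroup G) :
    Core ↥N (P.subgroupOf N) := by
  have := h.1
  refine ⟨inferInstance, h.2.1.comap_subtype, fun g => ?_⟩
  obtain ⟨k, hk⟩ := h.2.2 (g : G)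
  exact ⟨k, by simpa [Subgroup.mem_subgroupOf] using hk⟩

theorem Core.sup {G : Type} [Group G] {N K : Subgroup G} (hN : N.Normal) (hK : K.Normal)
    (htop : N ⊔ K = ⊤) {P : Subgroup ↥N} {Q : Subgroup ↥K} (hP : Core ↥N P) (hQ : Core ↥K Q) :
    Core G (P.map N.subtype ⊔ Q.map K.subtype) := by
  have hP1 : (P.map N.subtype).Normal := by
    constructor
    rintro x ⟨a, ha, rfl⟩ g
    obtain ⟨k, hk⟩ := (hP.mem_iff a).mp ha
    refine ⟨⟨g * a * g⁻¹, hN.conj_mem _ a.2 g⟩, (hP.mem_iff _).mpr ⟨k, ?_⟩, rfl⟩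
    apply Subtype.ext
    have hk' : (a : G) ^ 3 ^ k = 1 := by simpa using congrArg Subtype.val hk
    simp [conj_pow, hk']
  have hQ1 : (Q.map K.subtype).Normal := by
    constructor
    rintro x ⟨a, ha, rfl⟩ g
    obtain ⟨k, hk⟩ := (hQ.mem_iff a).mp ha
    refine ⟨⟨g * a * g⁻¹, hK.conj_mem _ a.2 g⟩, (hQ.mem_iff _).mpr ⟨k, ?_⟩, rfl⟩
    apply Subtype.ext
    have hk' : (a : G) ^ 3 ^ k = 1 := by simpa using congrArg Subtype.val hk
    simp [conj_pow, hk']
  set R := P.map N.subtype ⊔ Q.map K.subtype with hR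
  have hRn : R.Normal := Subgroup.sup_normal _ _
  refine ⟨hRn, IsPGroup.to_sup_of_normal_right (hP.2.1.map _) (hQ.2.1.map _), ?_⟩
  have h2N : IsPGroup 2 ↥(N.map (QuotientGroup.mk' R)) := by
    rintro ⟨x, n, hn, rfl⟩
    obtain ⟨k, hk⟩ := hP.2.2 ⟨n, hn⟩
    refine ⟨k, Subtype.ext ?_⟩
    have : n ^ 2 ^ k ∈ R := le_sup_left (a := P.map N.subtype) ⟨_, hk, by simp⟩
    simpa using (QuotientGroup.eq_one_iff (n ^ 2 ^ k)).mpr this
  have h2K : IsPGroup 2 ↥(K.map (QuotientGroup.mk' R)) := by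
    rintro ⟨x, n, hn, rfl⟩
    obtain ⟨k, hk⟩ := hQ.2.2 ⟨n, hn⟩
    refine ⟨k, Subtype.ext ?_⟩
    have : n ^ 2 ^ k ∈ R := le_sup_right (a := P.map N.subtype) ⟨_, hk, by simp⟩
    simpa using (QuotientGroup.eq_one_iff (n ^ 2 ^ k)).mpr this
  have hKn : (K.map (QuotientGroup.mk' R)).Normal := hK.map _ (QuotientGroup.mk'_surjective R)
  have h2 := IsPGroup.to_sup_of_normal_right h2N h2K
  rw [← Subgroup.map_sup, htop] at h2
  intro g
  obtain ⟨k, hk⟩ := h2 ⟨QuotientGroup.mk' R g, g, Subgroup.mem_top g, rfl⟩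
  refine ⟨k, ?_⟩
  have := congrArg Subtype.val hk
  rw [← QuotientGroup.eq_one_iff]
  simpa using this

theorem sgn_subgroupOf {G : Type} [Group G] [Finite G] (P N : Subgroup G) [P.Normal] [N.Normal]
    (hP : IsPGroup 3 ↥P) (n : ↥N) :
    sgn (MulAut.conjNormal (n : G) : MulAut ↥P).toEquiv =
      sgn (MulAut.conjNormal n : MulAut ↥(P.subgroupOf N)).toEquiv := by
  have : Fact (Nat.Prime 3) := ⟨Nat.prime_three⟩
  have hodd : Odd (Nat.card ↥P) := by
    obtain ⟨k, hk⟩ := IsPGroup.iff_card.mp hP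
    rw [hk]
    exact Odd.pow (by decide)
  let j : ↥(N.subgroupOf P) ≃ ↥(P.subgroupOf N) :=
    { toFun := fun a => ⟨⟨a.1.1, a.2⟩, a.1.2⟩
      invFun := fun b => ⟨⟨b.1.1, b.2⟩, b.1.2⟩
      left_inv := fun _ => rfl
      right_inv := fun _ => rfl }
  let ψ : Equiv.Perm ↥(N.subgroupOf P) :=
    (j.trans (MulAut.conjNormal n : MulAut ↥(P.subgroupOf N)).toEquiv).trans j.symm
  rw [sgn_restrict hodd (N.subgroupOf P) (MulAut.conjNormal (n : G) : MulAut ↥P) ?_ ψ ?_]
  · exact sgn_congr j _ _ fun x => by simp [ψ]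
  · intro x
    rw [Subgroup.mem_subgroupOf]
    simp only [Subgroup.coe_mul, Subgroup.coe_inv, MulAut.conjNormal_apply]
    have h1 : (x : G)⁻¹ * (n : G) * x ∈ N := by
      have := ‹N.Normal›.conj_mem (n : G) n.2 (x : G)⁻¹
      simpa using this
    have := N.mul_mem h1 (N.inv_mem n.2)
    simpa [mul_assoc] using this
  · intro a
    apply Subtype.ext
    simp [ψ, j]

theorem fit_of {C : Cls}
    (h1 : ∀ (G K : Type) [Group G] [Group K], Nonempty (G ≃* K) → C G → C K)
    (h2 : ∀ (G : Type) [Group G] [Finite G] (N : Subgroup G), N.Normal → C G → C ↥N)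
    (h3 : ∀ (G : Type) [Group G] [Finite G] (N K : Subgroup G),
      N.Normal → K.Normal → N ⊔ K = ⊤ → C ↥N → C ↥K → C G) : Fit C := by
  refine ⟨h1, h2, fun G _ _ N K hN hK hCN hCK => ?_⟩
  refine h3 ↥(N ⊔ K) (N.subgroupOf (N ⊔ K)) (K.subgroupOf (N ⊔ K)) inferInstance inferInstance ?_
    (h1 _ _ ⟨(Subgroup.subgroupOfEquivOfLe le_sup_left).symm⟩ hCN)
    (h1 _ _ ⟨(Subgroup.subgroupOfEquivOfLe le_sup_right).symm⟩ hCK)
  rw [← Subgroup.subgroupOf_sup le_sup_left le_sup_right, Subgroup.subgroupOf_self]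

theorem fit_M : Fit clM :=
  fit_of (fun G K _ _ e h => h.of_equiv e.some) (fun G _ _ N _ h => h.to_subgroup N)
    (fun G _ _ N K hN hK htop hCN hCK => by
      have h := IsPGroup.to_sup_of_normal_right (show IsPGroup 3 ↥N from hCN)
        (show IsPGroup 3 ↥K from hCK)
      rw [htop] at h
      exact h.of_equiv Subgroup.topEquiv)

theorem fit_H : Fit clH := by
  apply fit_of
  · rintro G K _ _ ⟨e⟩ ⟨_, P, _, hP, hs⟩
    have : Finite K := Finite.of_equiv G e.toEquiv
    have := hP.map e |>.1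
    refine ⟨inferInstance, P.map e.toMonoidHom, inferInstance, hP.map e, fun g => ?_⟩
    rw [← hs (e.symm g)]
    symm
    refine sgn_congr (e.subgroupMap P).toEquiv _ _ fun x => Subtype.ext ?_
    change e (e.symm g * (x : G) * (e.symm g)⁻¹) = g * e (x : G) * g⁻¹
    simp
  · rintro G _ _ N hN ⟨_, P, _, hP, hs⟩
    refine ⟨inferInstance, P.subgroupOf N, inferInstance, hP.subgroupOf N, fun g => ?_⟩
    rw [← sgn_subgroupOf P N hP.2.1 g]
    exact hs g
  · rintro G _ _ N K hN hK htop ⟨_, P, _, hP, hsP⟩ ⟨_, Q, _, hQ, hsQ⟩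
    obtain ⟨R, hR⟩ : ∃ R : Subgroup G, Core G R := ⟨_, Core.sup hN hK htop hP hQ⟩
    have hRn := hR.1
    have hPe : R.subgroupOf N = P := by
      ext x
      rw [Subgroup.mem_subgroupOf, hR.mem_iff, hP.mem_iff]
      simp [Subtype.ext_iff]
    have hQe : R.subgroupOf K = Q := by
      ext x
      rw [Subgroup.mem_subgroupOf, hR.mem_iff, hQ.mem_iff]
      simp [Subtype.ext_iff]
    refine ⟨inferInstance, R, hRn, hR, fun g => ?_⟩
    let s : G →* ℤˣ :=
      { toFun := fun g => sgn (MulAut.conjNormal g : MulAut ↥R).toEquiv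
        map_one' := by
          rw [map_one]
          exact sgn_one
        map_mul' := fun a b => by
          rw [map_mul]
          exact sgn_mul _ _ }
    have hsN : N ≤ s.ker := by
      intro n hn
      rw [MonoidHom.mem_ker]
      change sgn (MulAut.conjNormal ((⟨n, hn⟩ : ↥N) : G) : MulAut ↥R).toEquiv = 1
      rw [sgn_subgroupOf R N hR.2.1 ⟨n, hn⟩]
      subst hPe
      exact hsP _
    have hsK : K ≤ s.ker := by
      intro n hn
      rw [MonoidHom.mem_ker]
      change sgn (MulAut.conjNormal ((⟨n, hn⟩ : ↥K) : G) : MulAut ↥R).toEquiv = 1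
      rw [sgn_subgroupOf R K hR.2.1 ⟨n, hn⟩]
      subst hQe
      exact hsQ _
    have : g ∈ N ⊔ K := by rw [htop]; exact Subgroup.mem_top g
    exact MonoidHom.mem_ker.mp (sup_le hsN hsK this)


/-- The Fitting product as in the statement. -/
def FProd (C D : Cls) : Cls := fun G _ => ∀ (N : Subgroup G) [N.Normal],
  (C ↥N ∧ ∀ K : Subgroup G, K.Normal → C ↥K → K ≤ N) → D (G ⧸ N)

/-- Groups with a normal `p`-subgroup whose index is prime to `p`. -/
def PP (p : ℕ) : Cls := fun Q _ => ∃ P : Subgroup Q, P.Normal ∧ IsPGroup p ↥P ∧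
  Nat.Coprime P.index p

/-- Local Fitting classes as in the statement. -/
def Loc (C : Cls) : Prop :=
  ∃ f : ℕ → Cls, (∀ p, Fit (f p)) ∧
    ∀ (G : Type) [Group G] [Finite G], C G ↔
      ((∀ p : ℕ, p.Prime → p ∣ Nat.card G → Ne (f p)) ∧
        ∀ p : ℕ, p.Prime → Ne (f p) → FProd (f p) (PP p) G)

/-- Trivial groups. -/
def clT : Cls := fun G _ => Subsingleton G

/-- The empty class. -/
def clE : Cls := fun _ _ => False

theorem eq_bot_of_sub {G : Type} [Group G] (K : Subgroup G) (h : Subsingleton ↥K) : K = ⊥ := by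
  rw [Subgroup.eq_bot_iff_forall]
  intro x hx
  exact congrArg Subtype.val (Subsingleton.elim (⟨x, hx⟩ : ↥K) 1)

theorem fit_T : Fit clT := by
  apply fit_of
  · rintro G K _ _ ⟨e⟩ h
    have : Subsingleton G := h
    exact e.symm.toEquiv.subsingleton
  · intro G _ _ N _ h
    have : Subsingleton G := h
    exact inferInstanceAs (Subsingleton ↥N)
  · intro G _ _ N K _ _ htop hN hK
    have hN' : N = ⊥ := eq_bot_of_sub N hN
    have hK' : K = ⊥ := eq_bot_of_sub K hK
    rw [hN', hK', sup_bot_eq] at htop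
    exact (subsingleton_iff_bot_eq_top (α := Subgroup G)).mp htop |> Subgroup.subsingleton_iff.mp

theorem fit_E : Fit clE :=
  ⟨fun _ _ _ _ _ h => h, fun _ _ _ _ _ h => h, fun _ _ _ _ _ _ _ h _ => h⟩

/-- The Hartley function of `F`. -/
def fF (p : ℕ) : Cls := if p = 2 then clM else if p = 3 then clT else clE

theorem fit_fF (p : ℕ) : Fit (fF p) := by
  unfold fF
  split_ifs
  · exact fit_M
  · exact fit_T
  · exact fit_E

theorem ne_fF {p : ℕ} : Ne (fF p) ↔ p = 2 ∨ p = 3 := by
  constructor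
  · rintro ⟨K, _, _, hK⟩
    by_contra h
    push Not at h
    rw [fF, if_neg h.1, if_neg h.2] at hK
    exact hK
  · rintro (rfl | rfl)
    · refine ⟨PUnit, inferInstance, inferInstance, ?_⟩
      rw [fF, if_pos rfl]
      exact IsPGroup.of_subsingleton _ _
    · refine ⟨PUnit, inferInstance, inferInstance, ?_⟩
      rw [fF, if_neg (by decide), if_pos rfl]
      exact inferInstanceAs (Subsingleton PUnit)

theorem Core.card {G : Type} [Group G] [Finite G] {P : Subgroup G} (h : Core G P) :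
    ∃ a b : ℕ, Nat.card G = 3 ^ a * 2 ^ b ∧ P.index = 2 ^ b := by
  have : Fact (Nat.Prime 3) := ⟨Nat.prime_three⟩
  have hPn := h.1
  obtain ⟨a, ha⟩ := IsPGroup.iff_card.mp h.2.1
  have h2 : IsPGroup 2 (G ⧸ P) := by
    intro x
    obtain ⟨g, rfl⟩ := QuotientGroup.mk_surjective x
    obtain ⟨k, hk⟩ := h.2.2 g
    exact ⟨k, by rw [← QuotientGroup.mk_pow]; exact (QuotientGroup.eq_one_iff _).mpr hk⟩
  obtain ⟨b, hb⟩ := IsPGroup.iff_card.mp h2
  refine ⟨a, b, ?_, ?_⟩
  · rw [← P.card_mul_index, ha, Subgroup.index, hb]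
  · rw [Subgroup.index, hb]

theorem core_of {G : Type} [Group G] {P : Subgroup G} (hn : P.Normal)
    (hP : IsPGroup 3 ↥P) {b : ℕ} (hb : P.index = 2 ^ b) : Core G P := by
  refine ⟨hn, hP, fun g => ⟨b, ?_⟩⟩
  rw [← hb]
  exact P.pow_index_mem g

theorem isPGroup_quot {G : Type} [Group G] {P N : Subgroup G} [N.Normal] (h : Core G P)
    (hPN : P ≤ N) : IsPGroup 2 (G ⧸ N) := by
  intro x
  obtain ⟨g, rfl⟩ := QuotientGroup.mk_surjective x
  obtain ⟨k, hk⟩ := h.2.2 g
  exact ⟨k, by rw [← QuotientGroup.mk_pow]; exact (QuotientGroup.eq_one_iff _).mpr (hPN hk)⟩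

theorem PP_of_isPGroup {p : ℕ} {Q : Type} [Group Q] (h : IsPGroup p Q) : PP p Q :=
  ⟨⊤, inferInstance, h.to_subgroup ⊤, by rw [Subgroup.index_top]; exact Nat.coprime_one_left p⟩

theorem PP_three_quot {G : Type} [Group G] {P : Subgroup G} (N : Subgroup G) [N.Normal]
    (h : Core G P) {b : ℕ} (hb : P.index = 2 ^ b) : PP 3 (G ⧸ N) := by
  refine ⟨P.map (QuotientGroup.mk' N), h.1.map _ (QuotientGroup.mk'_surjective N), h.2.1.map _, ?_⟩
  have h1 := P.index_map_dvd (QuotientGroup.mk'_surjective N)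
  rw [hb] at h1
  exact Nat.Coprime.coprime_dvd_left h1 (Nat.Coprime.pow_left b (by decide))

theorem loc_F : Loc clF := by
  refine ⟨fF, fit_fF, fun G _ _ => ⟨?_, ?_⟩⟩
  · rintro ⟨P, hP⟩
    obtain ⟨a, b, hab, hb⟩ := hP.card
    refine ⟨fun p hp hdvd => ?_, fun p hp hne => ?_⟩
    · rw [ne_fF]
      rw [hab] at hdvd
      rcases (Nat.Prime.dvd_mul hp).mp hdvd with h | h
      · exact Or.inr ((Nat.prime_dvd_prime_iff_eq hp Nat.prime_three).mp (hp.dvd_of_dvd_pow h))
      · exact Or.inl ((Nat.prime_dvd_prime_iff_eq hp Nat.prime_two).mp (hp.dvd_of_dvd_pow h))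
    · rcases ne_fF.mp hne with rfl | rfl
      · intro N _ hN
        rw [fF, if_pos rfl] at hN
        exact PP_of_isPGroup (isPGroup_quot hP (hN.2 P hP.1 hP.2.1))
      · intro N _ hN
        exact PP_three_quot N hP hb
  · rintro ⟨h1, h2⟩
    have h3 := h2 3 Nat.prime_three (ne_fF.mpr (Or.inr rfl)) ⊥ ⟨by
      rw [fF, if_neg (by decide), if_pos rfl]
      exact inferInstanceAs (Subsingleton ↥(⊥ : Subgroup G)), fun K _ hCK => by
      rw [fF, if_neg (by decide), if_pos rfl] at hCK
      exact (eq_bot_of_sub K hCK).le⟩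
    obtain ⟨P, hPn, hP3, hPi⟩ := h3
    have hsurj := QuotientGroup.mk'_surjective (⊥ : Subgroup G)
    have hidx := Subgroup.index_comap_of_surjective P hsurj
    refine ⟨P.comap (QuotientGroup.mk' ⊥), ?_⟩
    have hpow : P.index = 2 ^ P.index.primeFactorsList.length := by
      apply Nat.eq_prime_pow_of_unique_prime_dvd
      · rw [← hidx]; exact Subgroup.index_ne_zero_of_finite
      · intro d hd hdvd
        have hdG : d ∣ Nat.card G := by
          rw [← hidx] at hdvd
          exact hdvd.trans (Subgroup.index_dvd_card _)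
        rcases ne_fF.mp (h1 d hd hdG) with h | h
        · exact h
        · exfalso
          rw [h] at hdvd
          have := Nat.dvd_gcd hdvd (dvd_refl 3)
          rw [hPi] at this
          omega
    exact core_of (hPn.comap _) (hP3.comap_of_ker_isPGroup _ (by
      rw [QuotientGroup.ker_mk']; exact IsPGroup.of_bot)) (hidx.trans hpow)

theorem solvable_F {G : Type} [Group G] [Finite G] (h : clF G) : Group.IsSolvable G := by
  obtain ⟨P, hP⟩ := h
  have : Fact (Nat.Prime 3) := ⟨Nat.prime_three⟩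
  have := hP.1
  have h1 : Group.IsSolvable ↥P := by
    have := hP.2.1.isNilpotent
    infer_instance
  have h2 : Group.IsSolvable (G ⧸ P) := by
    have := (isPGroup_quot hP le_rfl).isNilpotent
    infer_instance
  exact Group.isSolvable_of_ker_le_range P.subtype (QuotientGroup.mk' P) (by simp)

theorem F_iff {G : Type} [Group G] [Finite G] : clF G ↔ FProd clM clH G := by
  constructor
  · rintro ⟨P, hP⟩ N _ hN
    have hPN := hN.2 P hP.1 hP.2.1
    have h2 := isPGroup_quot hP hPN
    refine ⟨inferInstance, ⊥, inferInstance, ⟨inferInstance, IsPGroup.of_bot, fun g => ?_⟩,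
      fun g => ?_⟩
    · obtain ⟨k, hk⟩ := h2 g
      exact ⟨k, by rw [hk]; exact Subgroup.one_mem _⟩
    · rw [Subsingleton.elim (MulAut.conjNormal g : MulAut ↥(⊥ : Subgroup (G ⧸ N))).toEquiv 1]
      exact sgn_one
  · intro h
    obtain ⟨N, hN, hCN, hmax⟩ := fit_M.exists_radical
      ⟨PUnit, inferInstance, inferInstance, IsPGroup.of_subsingleton _ _⟩ G
    obtain ⟨_, P, hPn, hP, -⟩ := h N ⟨hCN, hmax⟩
    refine ⟨P.comap (QuotientGroup.mk' N), hP.1.comap _, hP.2.1.comap_of_ker_isPGroup _ (by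
      rw [QuotientGroup.ker_mk']; exact hCN), fun g => ?_⟩
    obtain ⟨k, hk⟩ := hP.2.2 (QuotientGroup.mk' N g)
    exact ⟨k, by simpa using hk⟩


/-- The rotation subgroup. -/
def rot (n : ℕ) : Subgroup (DihedralGroup n) where
  carrier := Set.range DihedralGroup.r
  mul_mem' := by
    rintro _ _ ⟨i, rfl⟩ ⟨j, rfl⟩
    exact ⟨i + j, by simp⟩
  one_mem' := ⟨0, rfl⟩
  inv_mem' := by
    rintro _ ⟨i, rfl⟩
    exact ⟨-i, by simp⟩

theorem rot_normal (n : ℕ) : (rot n).Normal := by
  constructor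
  rintro _ ⟨i, rfl⟩ g
  rcases g with j | j
  · exact ⟨j + i - j, by simp [sub_eq_add_neg]⟩
  · exact ⟨j - (j + i), by simp⟩

theorem core_rot (m : ℕ) : Core (DihedralGroup (3 ^ m)) (rot (3 ^ m)) := by
  refine ⟨rot_normal _, ?_, fun g => ⟨1, ?_⟩⟩
  · rintro ⟨_, ⟨i, rfl⟩⟩
    refine ⟨m, Subtype.ext ?_⟩
    change DihedralGroup.r i ^ 3 ^ m = 1
    rw [DihedralGroup.r_pow, ZMod.natCast_self, mul_zero, DihedralGroup.r_zero]
  · rcases g with j | j
    · exact ⟨j * 2, by rw [pow_one, DihedralGroup.r_pow]; norm_num⟩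
    · exact ⟨0, by rw [pow_one, pow_two, DihedralGroup.sr_mul_self, DihedralGroup.r_zero]⟩

theorem core_unique {G : Type} [Group G] {P Q : Subgroup G} (hP : Core G P) (hQ : Core G Q) :
    P = Q := by
  ext x
  rw [hP.mem_iff, hQ.mem_iff]

theorem sgn_rot_sr {n : ℕ} [NeZero n] (hn : (rot n).Normal) (i : ZMod n) :
    sgn (MulAut.conjNormal (DihedralGroup.sr i) : MulAut ↥(rot n)).toEquiv =
      sgn (Equiv.neg (ZMod n)) := by
  let e : ZMod n ≃ ↥(rot n) := Equiv.ofBijective (fun j => ⟨DihedralGroup.r j, j, rfl⟩)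
    ⟨fun a b hab => by simpa using congrArg Subtype.val hab, fun ⟨_, j, hj⟩ => ⟨j, Subtype.ext hj⟩⟩
  symm
  apply sgn_congr e
  intro j
  apply Subtype.ext
  change DihedralGroup.r (-j) = DihedralGroup.sr i * DihedralGroup.r j * (DihedralGroup.sr i)⁻¹
  simp

theorem sgn_rot_r {n : ℕ} [NeZero n] (hn : (rot n).Normal) (i : ZMod n) :
    sgn (MulAut.conjNormal (DihedralGroup.r i) : MulAut ↥(rot n)).toEquiv = 1 := by
  have : (MulAut.conjNormal (DihedralGroup.r i) : MulAut ↥(rot n)).toEquiv = 1 := by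
    ext ⟨_, j, rfl⟩
    change DihedralGroup.r i * DihedralGroup.r j * (DihedralGroup.r i)⁻¹ = DihedralGroup.r j
    simp
  rw [this, sgn_one]

theorem H_nine : clH (DihedralGroup 9) := by
  have hc : Core (DihedralGroup 9) (rot 9) := core_rot 2
  have hn := hc.1
  refine ⟨inferInstance, rot 9, hn, hc, fun g => ?_⟩
  rcases g with j | j
  · exact sgn_rot_r hn j
  · rw [sgn_rot_sr hn j, sgn_eq]
    decide

theorem not_H_three : ¬ clH (DihedralGroup 3) := by
  rintro ⟨_, P, _, hP, hs⟩
  have hc : Core (DihedralGroup 3) (rot 3) := core_rot 1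
  obtain rfl := core_unique hP hc
  have h := hs (DihedralGroup.sr 0)
  rw [sgn_rot_sr hc.1 0, sgn_eq] at h
  revert h
  decide

theorem F_three : clF (DihedralGroup 3) := ⟨rot 3, core_rot 1⟩

theorem F_nine : clF (DihedralGroup 9) := ⟨rot 9, core_rot 2⟩

theorem minimal_F {C : Cls} (hC : Loc C) (h9 : C (DihedralGroup 9)) {G : Type} [Group G]
    [Finite G] (hF : clF G) : C G := by
  obtain ⟨f, hf, hCf⟩ := hC
  obtain ⟨h1, h2⟩ := (hCf _).mp h9
  have hcard : Nat.card (DihedralGroup 9) = 18 := by rw [DihedralGroup.nat_card]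
  have hne2 : Ne (f 2) := h1 2 Nat.prime_two (by rw [hcard]; decide)
  have hne3 : Ne (f 3) := h1 3 Nat.prime_three (by rw [hcard]; decide)
  -- `f 2` contains all `3`-groups
  have hf2 : ∀ (P : Type) [Group P] [Finite P], IsPGroup 3 P → f 2 P := by
    intro P _ _ hP
    obtain ⟨N, hN, hfN, hmax⟩ := (hf 2).exists_radical hne2 (DihedralGroup 9)
    obtain ⟨Q, hQn, hQ2, hQi⟩ := h2 2 Nat.prime_two hne2 N ⟨hfN, hmax⟩
    have hodd : ∀ x : DihedralGroup 9 ⧸ N, x ^ 2 = 1 → x ∈ Q := by
      intro x hx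
      have h3 : x ^ Q.index ∈ Q := Q.pow_index_mem x
      obtain ⟨k, hk⟩ : Odd Q.index := by
        rw [← Nat.not_even_iff_odd, even_iff_two_dvd]
        intro h
        have := Nat.dvd_gcd h (dvd_refl 2)
        rw [hQi] at this
        omega
      rw [hk, pow_succ, pow_mul, hx, one_pow, one_mul] at h3
      exact h3
    have hsr : ∀ i : ZMod 9, (QuotientGroup.mk' N (DihedralGroup.sr i)) ∈ Q := by
      intro i
      apply hodd
      rw [← map_pow, pow_two, DihedralGroup.sr_mul_self, map_one]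
    have hr : ∀ i : ZMod 9, (QuotientGroup.mk' N (DihedralGroup.r i)) ∈ Q := by
      intro i
      have : (DihedralGroup.r i : DihedralGroup 9) = DihedralGroup.sr 0 * DihedralGroup.sr i := by
        simp
      rw [this, map_mul]
      exact Q.mul_mem (hsr 0) (hsr i)
    have hrN : ∀ i : ZMod 9, (DihedralGroup.r i : DihedralGroup 9) ∈ N := by
      intro i
      obtain ⟨k, hk⟩ := hQ2 ⟨_, hr i⟩
      have hk' : (QuotientGroup.mk' N (DihedralGroup.r i)) ^ 2 ^ k = 1 := by
        simpa using congrArg Subtype.val hk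
      have h9' : (QuotientGroup.mk' N (DihedralGroup.r i)) ^ 9 = 1 := by
        rw [← map_pow, DihedralGroup.r_pow, ZMod.natCast_self, mul_zero, DihedralGroup.r_zero,
          map_one]
      have hcop : Nat.Coprime (2 ^ k) 9 := Nat.Coprime.pow_left k (by decide)
      have hgcd := pow_gcd_eq_one.mpr ⟨hk', h9'⟩
      rw [hcop, pow_one] at hgcd
      exact (QuotientGroup.eq_one_iff _).mp hgcd
    -- the subgroup of order three
    let φ : Multiplicative (ZMod 3) →* DihedralGroup 9 :=
      { toFun := fun x => DihedralGroup.r (((Multiplicative.toAdd x).val : ZMod 9) * 3)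
        map_one' := by decide
        map_mul' := by decide }
    have hφ : Function.Injective φ := by
      intro a b
      revert a b
      decide
    have hT : φ.range.Normal := by
      constructor
      rintro _ ⟨a, rfl⟩ g
      revert a g
      decide
    have hTN : φ.range ≤ N := by
      rintro _ ⟨a, rfl⟩
      exact hrN _
    have hfT : f 2 ↥φ.range := (hf 2).sub hTN inferInstance hfN
    have hf3 : f 2 (Multiplicative (ZMod 3)) := (hf 2).1 _ _ ⟨(MonoidHom.ofInjective hφ).symm⟩ hfT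
    have : Fact (Nat.Prime 3) := ⟨Nat.prime_three⟩
    exact (hf 2).pgroup (p := 3) (by simp) hf3 P hP
  obtain ⟨P, hP⟩ := hF
  obtain ⟨a, b, hab, hb⟩ := hP.card
  have hprime : ∀ p : ℕ, p.Prime → p ∣ Nat.card G → p = 2 ∨ p = 3 := by
    intro p hp hdvd
    rw [hab] at hdvd
    rcases (Nat.Prime.dvd_mul hp).mp hdvd with h | h
    · exact Or.inr ((Nat.prime_dvd_prime_iff_eq hp Nat.prime_three).mp (hp.dvd_of_dvd_pow h))
    · exact Or.inl ((Nat.prime_dvd_prime_iff_eq hp Nat.prime_two).mp (hp.dvd_of_dvd_pow h))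
  refine (hCf G).mpr ⟨fun p hp hdvd => ?_, fun p hp hne N hNn hN => ?_⟩
  · rcases hprime p hp hdvd with rfl | rfl
    · exact hne2
    · exact hne3
  · by_cases hp2 : p = 2
    · subst hp2
      exact PP_of_isPGroup (isPGroup_quot hP (hN.2 P hP.1 (hf2 _ hP.2.1)))
    · by_cases hp3 : p = 3
      · subst hp3
        exact PP_three_quot N hP hb
      · refine ⟨⊥, inferInstance, IsPGroup.of_bot, ?_⟩
        rw [Subgroup.index_bot]
        rw [Nat.coprime_comm, hp.coprime_iff_not_dvd]
        intro h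
        have h' : p ∣ Nat.card G := h.trans (Subgroup.card_quotient_dvd_card N)
        rcases hprime p hp h' with h3 | h3
        · exact hp2 h3
        · exact hp3 h3

/-- The negation of the preceding statement: If F is the smallest Hartley-local Fitting class containing a finite group G, F is soluble, F equals the Fitting product MH of Fitting classes M (nonempty) and H, and M differs from F, then H is a local Fitting class. -/
theorem result :
    ¬ (∀ (Fit : ((G : Type) → [Group G] → Prop) → Prop)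
    (Prod : ((G : Type) → [Group G] → Prop) → ((G : Type) → [Group G] → Prop) →
      (G : Type) → [Group G] → Prop)
    (Loc : ((G : Type) → [Group G] → Prop) → Prop),
  (∀ C : (G : Type) → [Group G] → Prop, Fit C ↔
      ((∀ (G K : Type) [Group G] [Group K], Nonempty (G ≃* K) → C G → C K) ∧
       (∀ (G : Type) [Group G] [Finite G] (N : Subgroup G), N.Normal → C G → C ↥N) ∧
       (∀ (G : Type) [Group G] [Finite G] (N K : Subgroup G),
          N.Normal → K.Normal → C ↥N → C ↥K → C ↥(N ⊔ K)))) →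
  (∀ (C D : (G : Type) → [Group G] → Prop) (G : Type) [Group G], Prod C D G ↔
      ∀ (N : Subgroup G) [N.Normal],
        (C ↥N ∧ ∀ K : Subgroup G, K.Normal → C ↥K → K ≤ N) → D (G ⧸ N)) →
  (∀ C : (G : Type) → [Group G] → Prop, Loc C ↔
      ∃ f : ℕ → ((G : Type) → [Group G] → Prop), (∀ p, Fit (f p)) ∧
        ∀ (G : Type) [Group G] [Finite G], C G ↔
          ((∀ p : ℕ, p.Prime → p ∣ Nat.card G →
              ∃ (K : Type) (_ : Group K) (_ : Finite K), f p K) ∧
           ∀ p : ℕ, p.Prime → (∃ (K : Type) (_ : Group K) (_ : Finite K), f p K) →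
             Prod (f p)
               (fun (Q : Type) [Group Q] =>
                 ∃ P : Subgroup Q, P.Normal ∧ IsPGroup p ↥P ∧ Nat.Coprime P.index p) G)) →
  ∀ (F M H : (G : Type) → [Group G] → Prop) (G₀ : Type) [Group G₀] [Finite G₀],
    Fit M → Fit H → (∃ (K : Type) (_ : Group K) (_ : Finite K), M K) →
    Loc F → F G₀ →
    (∀ C : (G : Type) → [Group G] → Prop, Loc C → C G₀ →
      ∀ (G : Type) [Group G] [Finite G], F G → C G) →
    (∀ (G : Type) [Group G] [Finite G], F G → IsSolvable G) →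
    (∀ (G : Type) [Group G] [Finite G], F G ↔ Prod M H G) →
    (∃ (G : Type) (_ : Group G) (_ : Finite G), ¬ (M G ↔ F G)) →
    Loc H) := by
  intro h
  have hH : Loc clH := h Fit FProd Loc (fun _ => Iff.rfl) (fun _ _ _ _ => Iff.rfl)
    (fun _ => Iff.rfl) clF clM clH (DihedralGroup 9) fit_M fit_H
    ⟨PUnit, inferInstance, inferInstance, IsPGroup.of_subsingleton _ _⟩ loc_F F_nine
    (fun C hC h9 G _ _ hG => minimal_F hC h9 hG) (fun G _ _ hG => solvable_F hG)
    (fun G _ _ => F_iff) ⟨DihedralGroup 3, inferInstance, inferInstance, fun hMF => by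
      have h3 : IsPGroup 3 (DihedralGroup 3) := hMF.mpr F_three
      obtain ⟨k, hk⟩ := h3 (DihedralGroup.sr 0)
      have h2 := orderOf_dvd_of_pow_eq_one hk
      rw [DihedralGroup.orderOf_sr] at h2
      have := (Nat.prime_dvd_prime_iff_eq Nat.prime_two Nat.prime_three).mp
        (Nat.prime_two.dvd_of_dvd_pow h2)
      omega⟩
  exact not_H_three (minimal_F hH H_nine F_three)

end Pool.Agent.S01806
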