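import Pool.Statements.S02468
import Pool.Agent.Lib.LQ.Front

set_option autoImplicit false
open Classical
open scoped Pointwise
open Pool Pool.MP_9bf8b0_al

namespace Pool.Agent.S02468

/-- The negation of the preceding statement: There exist finitely generated groups H1, H2 that are not quasi-isometric (for word metrics) such that the lamplighter groups Z/2 wr H1 and Z/2 wr H2 are quasi-isometric. -/
theorem result :
    ¬ (∃ (H₁ : Type) (_ : Group H₁) (H₂ : Type) (_ : Group H₂),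
      Group.FG H₁ ∧ Group.FG H₂ ∧
      ¬ (∃ S : Finset H₁, Subgroup.closure (S : Set H₁) = ⊤ ∧
          ∃ T : Finset H₂, Subgroup.closure (T : Set H₂) = ⊤ ∧
          ∃ f : H₁ → H₂, ∃ K C : ℕ,
            (∀ x y : H₁, ∀ n : ℕ,
              x⁻¹ * y ∈ (insert (1 : H₁) ((S : Set H₁) ∪ (S : Set H₁)⁻¹)) ^ n →
              (f x)⁻¹ * f y ∈ (insert (1 : H₂) ((T : Set H₂) ∪ (T : Set H₂)⁻¹)) ^ (K * n + C)) ∧
            (∀ x y : H₁, ∀ n : ℕ,
              (f x)⁻¹ * f y ∈ (insert (1 : H₂) ((T : Set H₂) ∪ (T : Set H₂)⁻¹)) ^ n →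
              x⁻¹ * y ∈ (insert (1 : H₁) ((S : Set H₁) ∪ (S : Set H₁)⁻¹)) ^ (K * n + C)) ∧
            (∀ z : H₂, ∃ x : H₁,
              (f x)⁻¹ * z ∈ (insert (1 : H₂) ((T : Set H₂) ∪ (T : Set H₂)⁻¹)) ^ C)) ∧
      (∃ S : Finset (Subgroup.closure
            (({Equiv.swap ((1 : H₁), (0 : ZMod 2)) ((1 : H₁), (1 : ZMod 2))} :
                Set (Equiv.Perm (H₁ × ZMod 2))) ∪
              Set.range (fun h : H₁ =>
                (Equiv.prodCongr (Equiv.mulLeft h) (Equiv.refl (ZMod 2)) :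
                  Equiv.Perm (H₁ × ZMod 2))))),
          Subgroup.closure (S : Set (Subgroup.closure
            (({Equiv.swap ((1 : H₁), (0 : ZMod 2)) ((1 : H₁), (1 : ZMod 2))} :
                Set (Equiv.Perm (H₁ × ZMod 2))) ∪
              Set.range (fun h : H₁ =>
                (Equiv.prodCongr (Equiv.mulLeft h) (Equiv.refl (ZMod 2)) :
                  Equiv.Perm (H₁ × ZMod 2)))))) = ⊤ ∧
        ∃ T : Finset (Subgroup.closure
            (({Equiv.swap ((1 : H₂), (0 : ZMod 2)) ((1 : H₂), (1 : ZMod 2))} :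
                Set (Equiv.Perm (H₂ × ZMod 2))) ∪
              Set.range (fun h : H₂ =>
                (Equiv.prodCongr (Equiv.mulLeft h) (Equiv.refl (ZMod 2)) :
                  Equiv.Perm (H₂ × ZMod 2))))),
          Subgroup.closure (T : Set (Subgroup.closure
            (({Equiv.swap ((1 : H₂), (0 : ZMod 2)) ((1 : H₂), (1 : ZMod 2))} :
                Set (Equiv.Perm (H₂ × ZMod 2))) ∪
              Set.range (fun h : H₂ =>
                (Equiv.prodCongr (Equiv.mulLeft h) (Equiv.refl (ZMod 2)) :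
                  Equiv.Perm (H₂ × ZMod 2)))))) = ⊤ ∧
        ∃ f : (Subgroup.closure
            (({Equiv.swap ((1 : H₁), (0 : ZMod 2)) ((1 : H₁), (1 : ZMod 2))} :
                Set (Equiv.Perm (H₁ × ZMod 2))) ∪
              Set.range (fun h : H₁ =>
                (Equiv.prodCongr (Equiv.mulLeft h) (Equiv.refl (ZMod 2)) :
                  Equiv.Perm (H₁ × ZMod 2))))) →
            (Subgroup.closure
            (({Equiv.swap ((1 : H₂), (0 : ZMod 2)) ((1 : H₂), (1 : ZMod 2))} :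
                Set (Equiv.Perm (H₂ × ZMod 2))) ∪
              Set.range (fun h : H₂ =>
                (Equiv.prodCongr (Equiv.mulLeft h) (Equiv.refl (ZMod 2)) :
                  Equiv.Perm (H₂ × ZMod 2))))),
        ∃ K C : ℕ,
          (∀ x y, ∀ n : ℕ,
            x⁻¹ * y ∈ (insert 1 ((S : Set _) ∪ (S : Set _)⁻¹)) ^ n →
            (f x)⁻¹ * f y ∈ (insert 1 ((T : Set _) ∪ (T : Set _)⁻¹)) ^ (K * n + C)) ∧
          (∀ x y, ∀ n : ℕ,
            (f x)⁻¹ * f y ∈ (insert 1 ((T : Set _) ∪ (T : Set _)⁻¹)) ^ n →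
            x⁻¹ * y ∈ (insert 1 ((S : Set _) ∪ (S : Set _)⁻¹)) ^ (K * n + C)) ∧
          (∀ z, ∃ x, (f x)⁻¹ * z ∈ (insert 1 ((T : Set _) ∪ (T : Set _)⁻¹)) ^ C))) := by
  rintro ⟨H₁, g₁, H₂, g₂, hF₁, hF₂, hnot, S, hS, T, hT, f, K, C, h1, h2, h3⟩
  apply hnot
  obtain ⟨S₁, hS₁⟩ := hF₁.out
  obtain ⟨S₂, hS₂⟩ := hF₂.out
  obtain ⟨e₁⟩ := LQ.ll_iso H₁
  obtain ⟨e₂⟩ := LQ.ll_iso H₂
  have hQ : LQ.QI (LQ.NG.ofGen S₁ hS₁).wr (LQ.NG.ofGen S₂ hS₂).wr := by
    refine LQ.qi_wr_of_gen e₁ e₂ _ _ (LQ.NG.ofGen S hS) (LQ.NG.ofGen T hT) f K C ?_ ?_ ?_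
    · intro x y
      rw [LQ.NG.ofGen_len_le]
      exact h1 x y _ ((LQ.NG.ofGen_len_le S hS _ _).1 le_rfl)
    · intro x y
      rw [LQ.NG.ofGen_len_le]
      exact h2 x y _ ((LQ.NG.ofGen_len_le T hT _ _).1 le_rfl)
    · intro z
      obtain ⟨x, hx⟩ := h3 z
      exact ⟨x, (LQ.NG.ofGen_len_le T hT _ _).2 hx⟩
  obtain ⟨F, L, hF1, hF2, hF3⟩ := LQ.main_ng _ _ hQ
  refine ⟨S₁, hS₁, S₂, hS₂, F, L, L, ?_, ?_, ?_⟩
  · intro x y n hxy
    rw [← LQ.NG.ofGen_len_le S₂ hS₂]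
    have := (LQ.NG.ofGen_len_le S₁ hS₁ _ _).2 hxy
    exact (hF1 x y).trans (Nat.add_le_add_right (Nat.mul_le_mul_left _ this) _)
  · intro x y n hxy
    rw [← LQ.NG.ofGen_len_le S₁ hS₁]
    have := (LQ.NG.ofGen_len_le S₂ hS₂ _ _).2 hxy
    exact (hF2 x y).trans (Nat.add_le_add_right (Nat.mul_le_mul_left _ this) _)
  · intro z
    obtain ⟨x, hx⟩ := hF3 z
    exact ⟨x, (LQ.NG.ofGen_len_le S₂ hS₂ _ _).1 hx⟩

end Pool.Agent.S02468
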