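-- Proof of frozen statement S03946 (the negation for MP_18b69d_an), from the template.
import Pool.Statements.S03946
import Pool.Agent.Lib.P18b69d.Square

set_option autoImplicit false
open Filter Topology
open Pool Pool.MP_18b69d_an

namespace Pool.Agent.S03946

/-- The negation of the preceding statement: Take real Banach spaces X, Y with Schauder bases (e_n), (f_n) having the factorization property. Then any operator T on X×Y whose diagonal entries on all (e_n,0), (0,f_n) are bounded away from 0 has the identity of X×Y factoring through it. -/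
theorem result :
    ¬ (∀ (X Y : Type) [NormedAddCommGroup X] [NormedSpace ℝ X] [CompleteSpace X]
      [NormedAddCommGroup Y] [NormedSpace ℝ Y] [CompleteSpace Y]
      (e : ℕ → X) (e' : ℕ → (X →L[ℝ] ℝ)) (f : ℕ → Y) (f' : ℕ → (Y →L[ℝ] ℝ)),
      (∀ i j : ℕ, e' i (e j) = if i = j then (1 : ℝ) else 0) →
      (∀ x : X, Tendsto (fun N : ℕ => ∑ n ∈ Finset.range N, e' n x • e n) atTop (𝓝 x)) →
      (∀ i j : ℕ, f' i (f j) = if i = j then (1 : ℝ) else 0) →
      (∀ y : Y, Tendsto (fun N : ℕ => ∑ n ∈ Finset.range N, f' n y • f n) atTop (𝓝 y)) →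
      (∀ T : X →L[ℝ] X, (∃ δ : ℝ, 0 < δ ∧ ∀ n : ℕ, δ ≤ |e' n (T (e n))|) →
        ∃ A B : X →L[ℝ] X, A.comp (T.comp B) = ContinuousLinearMap.id ℝ X) →
      (∀ T : Y →L[ℝ] Y, (∃ δ : ℝ, 0 < δ ∧ ∀ n : ℕ, δ ≤ |f' n (T (f n))|) →
        ∃ A B : Y →L[ℝ] Y, A.comp (T.comp B) = ContinuousLinearMap.id ℝ Y) →
      ∀ T : (X × Y) →L[ℝ] (X × Y),
        (∃ δ : ℝ, 0 < δ ∧ ∀ n : ℕ,
            δ ≤ |e' n ((T (e n, (0 : Y))).1)| ∧ δ ≤ |f' n ((T ((0 : X), f n)).2)|) →
        ∃ A B : (X × Y) →L[ℝ] (X × Y), A.comp (T.comp B) = ContinuousLinearMap.id ℝ (X × Y)) := by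
  intro h
  -- the space `c₀ ⊕ G`, its unit vector basis and coordinate functionals
  have hbi : ∀ i j : ℕ, P18b69d.Space.coord (𝓦 := P18b69d.NS) i (P18b69d.Space.bv j) =
      if i = j then (1 : ℝ) else 0 := fun i j => rfl
  have hexp : ∀ x : P18b69d.X, Tendsto (fun N : ℕ => ∑ n ∈ Finset.range N,
      P18b69d.Space.coord (𝓦 := P18b69d.NS) n x • P18b69d.Space.bv n) atTop (𝓝 x) :=
    fun x => P18b69d.Space.tendsto_partial x
  let sm : (P18b69d.X × P18b69d.X) →L[ℝ] P18b69d.X :=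
    ContinuousLinearMap.fst ℝ P18b69d.X P18b69d.X + ContinuousLinearMap.snd ℝ P18b69d.X P18b69d.X
  have hsm : ∀ p : P18b69d.X × P18b69d.X, sm p = p.1 + p.2 := fun p => rfl
  obtain ⟨A, B, hAB⟩ := h P18b69d.X P18b69d.X (P18b69d.Space.bv) (P18b69d.Space.coord)
    (P18b69d.Space.bv) (P18b69d.Space.coord) hbi hexp hbi hexp
    (fun T hT => P18b69d.fp_X T hT) (fun T hT => P18b69d.fp_X T hT)
    (sm.prod sm) ⟨1, one_pos, fun n => by
      constructor
      · change (1 : ℝ) ≤ |P18b69d.Space.coord n (P18b69d.Space.bv n + 0 : P18b69d.X)|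
        rw [add_zero, hbi, if_pos rfl, abs_one]
      · change (1 : ℝ) ≤ |P18b69d.Space.coord n (0 + P18b69d.Space.bv n : P18b69d.X)|
        rw [zero_add, hbi, if_pos rfl, abs_one]⟩
  have hAB' : ∀ q : P18b69d.X × P18b69d.X, A (sm (B q), sm (B q)) = q := by
    intro q
    have := DFunLike.congr_fun hAB q
    exact this
  let inc : Fin 2 → (P18b69d.X →L[ℝ] P18b69d.X × P18b69d.X) := fun i =>
    if i = 0 then ContinuousLinearMap.inl ℝ P18b69d.X P18b69d.X
    else ContinuousLinearMap.inr ℝ P18b69d.X P18b69d.X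
  let prj : Fin 2 → (P18b69d.X × P18b69d.X →L[ℝ] P18b69d.X) := fun j =>
    if j = 0 then ContinuousLinearMap.fst ℝ P18b69d.X P18b69d.X
    else ContinuousLinearMap.snd ℝ P18b69d.X P18b69d.X
  let dg : P18b69d.X →L[ℝ] P18b69d.X × P18b69d.X :=
    (ContinuousLinearMap.id ℝ P18b69d.X).prod (ContinuousLinearMap.id ℝ P18b69d.X)
  refine P18b69d.no_square (fun i => sm.comp (B.comp (inc i)))
    (fun j => (prj j).comp (A.comp dg)) ?_
  intro i j x
  have h1 : ((prj j).comp (A.comp dg)) ((sm.comp (B.comp (inc i))) x) = prj j (inc i x) := by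
    change prj j (A (sm (B (inc i x)), sm (B (inc i x)))) = _
    rw [hAB']
  rw [h1]
  fin_cases i <;> fin_cases j <;> simp [inc, prj]

end Pool.Agent.S03946
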