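import Pool.Statements.S04875
import Pool.Agent.Lib.P64ccd3.Main

set_option autoImplicit false
open Pool Pool.MP_64ccd3_an

namespace Pool.Agent.S04875

/-- Suppose a power series has radius 1, its partial sums are uniformly bounded on its singular set E, and E has positive measure on the circle. Then at every circle point outside E the series converges to the value of the local analytic continuation. -/
theorem result :
  ∀ (a : ℕ → ℂ) (E : Set ℂ),
    (FormalMultilinearSeries.ofScalars ℂ a).radius = 1 →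
    E = {ξ : ℂ | ‖ξ‖ = 1 ∧ ¬ ∃ r : ℝ, 0 < r ∧ ∃ g : ℂ → ℂ,
          DifferentiableOn ℂ g (Metric.ball ξ r) ∧
          ∀ w ∈ Metric.ball ξ r, ‖w‖ < 1 → g w = ∑' n, a n * w ^ n} →
    (∃ M : ℝ, ∀ ξ ∈ E, ∀ N : ℕ, ‖∑ n ∈ Finset.range (N + 1), a n * ξ ^ n‖ ≤ M) →
    0 < MeasureTheory.volume
          {θ : ℝ | θ ∈ Set.Ioc 0 (2 * Real.pi) ∧ Complex.exp ((θ : ℂ) * Complex.I) ∈ E} →
    ∀ z : ℂ, ‖z‖ = 1 → z ∉ E →
      ∃ L : ℂ, Filter.Tendsto (fun N : ℕ => ∑ n ∈ Finset.range N, a n * z ^ n)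
            Filter.atTop (nhds L) ∧
        ∃ r : ℝ, 0 < r ∧ ∃ g : ℂ → ℂ, DifferentiableOn ℂ g (Metric.ball z r) ∧
          (∀ w ∈ Metric.ball z r, ‖w‖ < 1 → g w = ∑' n, a n * w ^ n) ∧ g z = L := by
  intro a E _ hE hM hpos z hz hzE
  have hne : ∃ θ : ℝ, Complex.exp ((θ : ℂ) * Complex.I) ∈ E := by
    by_contra hcon
    push Not at hcon
    have hemp : {θ : ℝ | θ ∈ Set.Ioc 0 (2 * Real.pi) ∧
        Complex.exp ((θ : ℂ) * Complex.I) ∈ E} = ∅ := by
      ext θ
      simp only [Set.mem_empty_iff_false, iff_false]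
      rintro ⟨_, h⟩
      exact hcon θ h
    rw [hemp] at hpos
    simp at hpos
  exact Pool.Agent.Lib.P64ccd3.main a E hE hM hne z hz hzE

end Pool.Agent.S04875
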