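import Pool.Statements.S05079
import Pool.Agent.Lib.P761a8f.Main

set_option autoImplicit false
open Pool Pool.MP_761a8f_an

namespace Pool.Agent.S05079

/-- For every real α>0, every odd m≥3 and every complex x with ∣x∣=1, the modulus of the sum over k from 0 to m of binom(α,k)·x^k is at most the same sum evaluated at x=1. -/
theorem result :
    ∀ α : ℝ, 0 < α → ∀ m : ℕ, Odd m → 3 ≤ m → ∀ x : ℂ, ‖x‖ = 1 →
      ‖∑ k ∈ Finset.range (m + 1),
          ((∏ j ∈ Finset.range k, ((α : ℂ) - (j : ℂ))) / (k.factorial : ℂ)) * x ^ k‖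
        ≤ ∑ k ∈ Finset.range (m + 1),
            (∏ j ∈ Finset.range k, (α - (j : ℝ))) / (k.factorial : ℝ) := by
  intro α h0 m hm _ x hx
  have h := Pool.Agent.Lib.P761a8f.main α h0 m hm x hx
  unfold Pool.Agent.Lib.P761a8f.A Pool.Agent.Lib.P761a8f.A1 at h
  simp_rw [← Pool.Agent.Lib.P761a8f.b_cast] at h
  exact h

end Pool.Agent.S05079
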