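import Pool.Statements.S05639
import Pool.Agent.Lib.Pa1e890.Inst

set_option autoImplicit false
open Pool Pool.MP_a1e890_an

namespace Pool.Agent.S05639

/-- For every norm equivalent to the sup norm on continuous real functions on the ordinal interval [0,ω₁], and every ε>0, some equivalent norm that is C¹ away from 0 differs from it by less than ε on the unit ball. -/
theorem result :
    ∀ p : Seminorm ℝ (BoundedContinuousFunction (Set.Iic (Cardinal.aleph.{0} 1).ord) ℝ),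
      (∃ c : ℝ, 0 < c ∧ ∀ x, c * ‖x‖ ≤ p x) →
      (∃ C : ℝ, 0 < C ∧ ∀ x, p x ≤ C * ‖x‖) →
      ∀ ε : ℝ, 0 < ε →
        ∃ q : Seminorm ℝ (BoundedContinuousFunction (Set.Iic (Cardinal.aleph.{0} 1).ord) ℝ),
          (∃ c : ℝ, 0 < c ∧ ∀ x, c * ‖x‖ ≤ q x) ∧
          (∃ C : ℝ, 0 < C ∧ ∀ x, q x ≤ C * ‖x‖) ∧
          ContDiffOn ℝ 1 (fun x => q x) {x | x ≠ 0} ∧
          ∀ x, ‖x‖ ≤ 1 → |p x - q x| < ε := by
  intro p hlow hup ε hε
  exact Pool.Agent.Lib.Pa1e890.density (Ω := Pool.Agent.Lib.Pa1e890.W1) p hlow hup ε hε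

end Pool.Agent.S05639
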