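import Pool.Statements.S05766
import Pool.Agent.Lib.Pab2f70.Final
import Pool.Agent.Lib.Pab2f70.NotDense

set_option autoImplicit false
open MeasureTheory
open Pool Pool.MP_ab2f70_an

namespace Pool.Agent.S05766

/-- The negation of the preceding statement: For every positive, bounded, decreasing w on [0,∞) with log w(x)/x → −∞ and w(x+y) ≤ C w(x)w(y), an f with f·w integrable is not a.e. zero near 0 iff finite combinations of its right translates by a>0 are dense in weighted L¹. -/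
theorem result :
    ¬ (∀ w : ℝ → ℝ,
    (∀ x : ℝ, 0 ≤ x → 0 < w x) →
    (∃ M : ℝ, ∀ x : ℝ, 0 ≤ x → w x ≤ M) →
    AntitoneOn w (Set.Ici 0) →
    Filter.Tendsto (fun x : ℝ => Real.log (w x) / x) Filter.atTop Filter.atBot →
    (∃ C : ℝ, ∀ x y : ℝ, 0 ≤ x → 0 ≤ y → w (x + y) ≤ C * w x * w y) →
    ∀ f : ℝ → ℂ, IntegrableOn (fun x : ℝ => f x * (w x : ℂ)) (Set.Ioi (0:ℝ)) →
      ((∀ ε : ℝ, 0 < ε → ¬ (∀ᵐ x ∂(volume.restrict (Set.Ioo (0:ℝ) ε)), f x = 0)) ↔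
       (∀ g : ℝ → ℂ, IntegrableOn (fun x : ℝ => g x * (w x : ℂ)) (Set.Ioi (0:ℝ)) →
          ∀ ε : ℝ, 0 < ε → ∃ (n : ℕ) (a : Fin n → ℝ) (c : Fin n → ℂ), (∀ i, 0 < a i) ∧
            IntegrableOn
              (fun x : ℝ => ‖g x - ∑ i, c i * Set.indicator (Set.Ioi (a i)) (fun t : ℝ => f (t - a i)) x‖ * w x)
              (Set.Ioi (0:ℝ)) ∧
            ∫ x in Set.Ioi (0:ℝ),
              ‖g x - ∑ i, c i * Set.indicator (Set.Ioi (a i)) (fun t : ℝ => f (t - a i)) x‖ * w x < ε))) := by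
  intro H
  obtain ⟨w, φ, F, hw0, hw1, hwa, -, hwt, hws, hF, -, hFpos, hφm, hφw, hφ1, hφ⟩ :=
    Pool.Agent.Pab2f70.data (fun _ => 0) monotone_const
  have hfw : IntegrableOn (fun x : ℝ => ((F x : ℝ) : ℂ) * ((w x : ℝ) : ℂ)) (Set.Ioi (0 : ℝ)) := by
    have h1 : IntegrableOn (fun x : ℝ => ((w x * F x : ℝ) : ℂ)) (Set.Ioi (0 : ℝ)) := hF.ofReal
    refine h1.congr (Filter.Eventually.of_forall (fun x => ?_))
    push_cast
    ring
  refine Pool.Agent.Pab2f70.not_dense (w := w) (φ := φ) (F := F) (κ := fun _ => 1) (M := 1) hw0 hw1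
    hwa hφw measurable_const (fun x _ _ => by simp)
    (fun x hx hx1 => by rw [hφ1 x hx.le hx1, one_mul]) hφ ?_
  refine (H w (fun x _ => hw0 x) ⟨1, hw1⟩ hwa hwt
    ⟨1, by intro x y hx hy; rw [one_mul]; exact hws x y hx hy⟩ (fun x => ((F x : ℝ) : ℂ)) hfw).1 ?_
  intro ε hε hae
  rw [ae_restrict_iff' measurableSet_Ioo] at hae
  have h1 : ∀ᵐ x : ℝ, x ∉ Set.Ioo (0 : ℝ) (min ε 1) := by
    filter_upwards [hae] with x hx hx2
    have h2 := hx ⟨hx2.1, hx2.2.trans_le (min_le_left _ _)⟩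
    have h3 := hFpos x hx2.1 (hx2.2.trans_le (min_le_right _ _))
    have h4 : F x = 0 := by exact_mod_cast h2
    linarith
  have h2 : volume (Set.Ioo (0 : ℝ) (min ε 1)) = 0 := by
    rw [ae_iff] at h1
    have h5 : {x : ℝ | ¬ x ∉ Set.Ioo (0 : ℝ) (min ε 1)} = Set.Ioo (0 : ℝ) (min ε 1) := by
      ext x
      simp only [Set.mem_ofPred_eq, not_not]
    rw [h5] at h1
    exact h1
  rw [Real.volume_Ioo, ENNReal.ofReal_eq_zero] at h2
  have : 0 < min ε 1 := lt_min hε one_pos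
  linarith

end Pool.Agent.S05766
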