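-- Proof of frozen statement S06128 (the negation).
-- Counterexample at N = 3: P(z) = z + (9/10 + i/60) z^2 + (2/7) z^3 is univalent on the closed unit
-- disk, but omits the value P(zeta), zeta = (-63+16i)/65, whose modulus (about 0.381) is smaller
-- than 1/(4 cos^2(pi/5)) = (3 - sqrt 5)/2 = 0.38196...
import Pool.Statements.S06128

set_option autoImplicit false
open Pool Pool.MP_c979e5_an

namespace Pool.Agent.S06128

noncomputable def A2 : ℂ := ⟨9 / 10, 1 / 60⟩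

noncomputable def Q (u v : ℂ) : ℂ := 1 + A2 * (u + v) + (2 / 7) * (u ^ 2 + u * v + v ^ 2)

theorem Q_symm (u v : ℂ) : Q u v = Q v u := by
  unfold Q; ring

theorem key_ineq (s : ℝ) (h0 : 0 ≤ s) (h4 : s ≤ 4) :
    s * (81 / 100 * (1 - 2 / 7 * (s - 1)) ^ 2 + 1 / 3600 * (1 + 2 / 7 * (s - 1)) ^ 2)
      < (1 + 2 / 7 * (s - 1)) ^ 2 * (1 - 2 / 7 * (s - 1)) ^ 2 := by
  have h1 : 0 ≤ s * (4 - s) := mul_nonneg h0 (by linarith)
  nlinarith [mul_nonneg h0 (sq_nonneg (s - 5/2)), mul_nonneg (sub_nonneg.2 h4) (sq_nonneg (s - 5/2)), sq_nonneg (s^2 - 25/4), mul_nonneg h1 (sq_nonneg (s-5/2)), mul_nonneg h1 h0, sq_nonneg ((s-5/2)*(s-4)), sq_nonneg ((s-5/2)*(s-2)), sq_nonneg ((s-5/2))]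

theorem scale_ineq (s m d x y : ℝ) (h0 : 0 ≤ s) (hm0 : 0 < m) (hm1 : m ≤ 1) (hd1 : d < 1)
    (hd2 : -1 < d)
    (hx : 0 ≤ x) (hy : 0 ≤ y)
    (hk : s * (x * (1 - d) ^ 2 + y * (1 + d) ^ 2) < (1 + d) ^ 2 * (1 - d) ^ 2) :
    m * s * (x * (1 - m * d) ^ 2 + y * (1 + m * d) ^ 2)
      < (1 + m * d) ^ 2 * (1 - m * d) ^ 2 := by
  have ha : 0 < (1 + d) ^ 2 := by have : 0 < 1 + d := by linarith
                                  positivity
  have hb : 0 < (1 - d) ^ 2 := by have : 0 < 1 - d := by linarith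
                                  positivity
  have hmd1 : m * d < 1 := by nlinarith
  have hmd2 : -1 < m * d := by nlinarith
  have hA : 0 < (1 + m * d) ^ 2 := by have : 0 < 1 + m * d := by linarith
                                      positivity
  have hB : 0 < (1 - m * d) ^ 2 := by have : 0 < 1 - m * d := by linarith
                                      positivity
  have hdsq : d ^ 2 < 1 := by nlinarith
  have hmdsq : m * d ^ 2 ≤ 1 := by nlinarith [sq_nonneg d]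
  have hc : 0 ≤ (1 - m) * (1 - m * d ^ 2) := mul_nonneg (by linarith) (by linarith)
  have hA' : m * (1 + d) ^ 2 ≤ (1 + m * d) ^ 2 := by nlinarith
  have hB' : m * (1 - d) ^ 2 ≤ (1 - m * d) ^ 2 := by nlinarith
  have e1 : s * x / (1 + d) ^ 2 + s * y / (1 - d) ^ 2 < 1 := by
    rw [div_add_div _ _ ha.ne' hb.ne', div_lt_one (by positivity)]
    nlinarith
  have e2 : m * s * x / (1 + m * d) ^ 2 ≤ s * x / (1 + d) ^ 2 := by
    rw [div_le_div_iff₀ hA ha]
    have : 0 ≤ s * x := mul_nonneg h0 hx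
    nlinarith
  have e3 : m * s * y / (1 - m * d) ^ 2 ≤ s * y / (1 - d) ^ 2 := by
    rw [div_le_div_iff₀ hB hb]
    have : 0 ≤ s * y := mul_nonneg h0 hy
    nlinarith
  have e4 : m * s * x / (1 + m * d) ^ 2 + m * s * y / (1 - m * d) ^ 2 < 1 := by linarith
  rw [div_add_div _ _ hA.ne' hB.ne', div_lt_one (by positivity)] at e4
  nlinarith

/-- no zeros on equal moduli -/
theorem Q_ne_of_norm_eq (u v : ℂ) (huv : ‖u‖ = ‖v‖) (hu : ‖u‖ ≤ 1) : Q u v ≠ 0 := by
  intro hQ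
  by_cases h0 : u = 0
  · have hv : v = 0 := by
      rw [h0, norm_zero] at huv
      exact norm_eq_zero.1 huv.symm
    rw [h0, hv] at hQ
    simp [Q] at hQ
  set r : ℝ := ‖u‖ with hr
  have hr0 : 0 < r := norm_pos_iff.2 h0
  set α : ℝ := u.arg
  set β : ℝ := v.arg
  have hu' : u = r * Complex.exp (α * Complex.I) := (Complex.norm_mul_exp_arg_mul_I u).symm
  have hv' : v = r * Complex.exp (β * Complex.I) := by
    have := (Complex.norm_mul_exp_arg_mul_I v).symm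
    rw [← huv] at this
    exact this
  set φ : ℝ := (α + β) / 2 with hφ
  set θ : ℝ := (α - β) / 2 with hθ
  have hα : (α : ℂ) * Complex.I = φ * Complex.I + θ * Complex.I := by
    rw [hφ, hθ]; push_cast; ring
  have hβ : (β : ℂ) * Complex.I = φ * Complex.I + -(θ * Complex.I) := by
    rw [hφ, hθ]; push_cast; ring
  set e : ℂ := Complex.exp (φ * Complex.I) with he
  set c : ℝ := Real.cos θ with hc
  have h1 : Complex.exp (θ * Complex.I) + Complex.exp (-(θ * Complex.I)) = 2 * c := by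
    rw [hc, Complex.ofReal_cos, Complex.cos]; ring_nf
  have h2 : Complex.exp (θ * Complex.I) * Complex.exp (-(θ * Complex.I)) = 1 := by
    rw [← Complex.exp_add]; simp
  have hue : u = r * e * Complex.exp (θ * Complex.I) := by
    rw [hu', hα, Complex.exp_add]; ring
  have hve : v = r * e * Complex.exp (-(θ * Complex.I)) := by
    rw [hv', hβ, Complex.exp_add]; ring
  have hsum : u + v = r * e * (2 * c) := by
    rw [hue, hve, ← h1]; ring
  have hprod : u * v = (r * e) ^ 2 := by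
    calc u * v = (r * e) ^ 2 * (Complex.exp (θ * Complex.I) * Complex.exp (-(θ * Complex.I))) := by
          rw [hue, hve]; ring
      _ = _ := by rw [h2, mul_one]
  have hQ2 : 1 + A2 * (r * e * (2 * c)) + (2 / 7) * ((r * e * (2 * c)) ^ 2 - (r * e) ^ 2) = 0 := by
    rw [← hsum, ← hprod, ← hQ]; unfold Q; ring
  -- multiply by conj e = exp(-i φ)
  have h3 : e * Complex.exp (-(φ * Complex.I)) = 1 := by
    rw [he, ← Complex.exp_add]; simp
  have hQ3 : Complex.exp (-(φ * Complex.I)) + A2 * (r * (2 * c))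
      + (2 / 7) * (r ^ 2 * (4 * c ^ 2 - 1)) * e = 0 := by
    have := congrArg (fun w => w * Complex.exp (-(φ * Complex.I))) hQ2
    simp only [zero_mul] at this
    rw [← this]
    linear_combination (-(A2 * (r * (2 * c))) - (2 / 7) * (r ^ 2 * (4 * c ^ 2 - 1)) * e) * h3
  set D : ℝ := r ^ 2 * (2 / 7 * (4 * c ^ 2 - 1)) with hD
  have eexp : e = ⟨Real.cos φ, Real.sin φ⟩ := by
    rw [he, Complex.exp_mul_I]
    apply Complex.ext <;> simp [← Complex.ofReal_cos, ← Complex.ofReal_sin]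
  have eexp' : Complex.exp (-(φ * Complex.I)) = ⟨Real.cos φ, -Real.sin φ⟩ := by
    have : -((φ:ℂ) * Complex.I) = ((-φ : ℝ) : ℂ) * Complex.I := by push_cast; ring
    rw [this, Complex.exp_mul_I]
    apply Complex.ext <;> simp [← Complex.ofReal_cos, ← Complex.ofReal_sin]
  rw [eexp', eexp] at hQ3
  have hre := congrArg Complex.re hQ3
  have him := congrArg Complex.im hQ3
  have hcast : (2 / 7 : ℂ) * ((r:ℂ) ^ 2 * (4 * (c:ℂ) ^ 2 - 1)) = (D : ℂ) := by
    rw [hD]; push_cast; ring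
  have hcast2 : A2 * ((r:ℂ) * (2 * (c:ℂ))) = (⟨9/10 * (r * (2 * c)), 1/60 * (r * (2*c))⟩ : ℂ) := by
    have : ((r:ℂ) * (2 * (c:ℂ))) = ((r * (2 * c) : ℝ) : ℂ) := by push_cast; ring
    rw [this]
    apply Complex.ext <;> simp [A2]
  rw [hcast, hcast2] at hre him
  simp at hre him
  -- hre : cos φ + 9/10*... + D * cos φ = 0 ; him : - sin φ + ... + D * sin φ = 0
  set s : ℝ := 4 * c ^ 2 with hs
  have hs0 : 0 ≤ s := by positivity
  have hs4 : s ≤ 4 := by
    have : c ^ 2 ≤ 1 := by rw [hc]; exact Real.cos_sq_le_one θ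
    linarith
  have hk := scale_ineq s (r ^ 2) (2 / 7 * (s - 1)) (81/100) (1/3600) hs0 (by positivity)
    (by nlinarith) (by linarith) (by linarith) (by norm_num) (by norm_num) (by
      have := key_ineq s hs0 hs4
      linarith)
  rw [← hD] at hk
  have h5 : Real.cos φ * (1 + D) = -(9 / 5 * (r * c)) := by linarith
  have h6 : Real.sin φ * (1 - D) = 1 / 30 * (r * c) := by linarith
  have h7 := Real.sin_sq_add_cos_sq φ
  have h8 : (1 + D) ^ 2 * (1 - D) ^ 2 = r ^ 2 * s * (81 / 100 * (1 - D) ^ 2 + 1 / 3600 * (1 + D) ^ 2) := by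
    have h9 : (Real.cos φ * (1 + D)) ^ 2 = (9 / 5 * (r * c)) ^ 2 := by rw [h5]; ring
    have h10 : (Real.sin φ * (1 - D)) ^ 2 = (1 / 30 * (r * c)) ^ 2 := by rw [h6]
    calc (1 + D) ^ 2 * (1 - D) ^ 2
        = (Real.cos φ * (1 + D)) ^ 2 * (1 - D) ^ 2 + (Real.sin φ * (1 - D)) ^ 2 * (1 + D) ^ 2
          := by linear_combination (-(1 + D) ^ 2 * (1 - D) ^ 2) * h7
      _ = _ := by rw [h9, h10, hs]; ring
  linarith

/-- near root of a monic quadratic -/
theorem near_root (B C v : ℂ) : ∃ w : ℂ, w ^ 2 + B * w + C = 0 ∧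
    ‖w - v‖ ^ 2 ≤ ‖v ^ 2 + B * v + C‖ := by
  obtain ⟨δ, hδ⟩ := IsAlgClosed.exists_pow_nat_eq (B ^ 2 - 4 * C) (n := 2) (by norm_num)
  set w1 : ℂ := (-B + δ) / 2
  set w2 : ℂ := (-B - δ) / 2
  have h1 : w1 ^ 2 + B * w1 + C = 0 := by
    simp only [w1]; linear_combination hδ / 4
  have h2 : w2 ^ 2 + B * w2 + C = 0 := by
    simp only [w2]; linear_combination hδ / 4
  have h3 : v ^ 2 + B * v + C = (v - w1) * (v - w2) := by
    simp only [w1, w2]; linear_combination (1/4) * hδ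
  have h4 : ‖v ^ 2 + B * v + C‖ = ‖w1 - v‖ * ‖w2 - v‖ := by
    rw [h3, norm_mul, norm_sub_rev v w1, norm_sub_rev v w2]
  rcases le_total ‖w1 - v‖ ‖w2 - v‖ with h | h
  · exact ⟨w1, h1, by rw [h4, sq]; exact mul_le_mul_of_nonneg_left h (norm_nonneg _)⟩
  · exact ⟨w2, h2, by rw [h4, sq]; exact mul_le_mul_of_nonneg_right h (norm_nonneg _)⟩

theorem near_root_Q (u v : ℂ) : ∃ w : ℂ, Q u w = 0 ∧ ‖w - v‖ ^ 2 ≤ 7 / 2 * ‖Q u v‖ := by
  obtain ⟨w, hw, hwv⟩ := near_root (u + 7 / 2 * A2) (7 / 2 * (1 + A2 * u) + u ^ 2) v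
  refine ⟨w, ?_, ?_⟩
  · have : Q u w = (2 / 7) * (w ^ 2 + (u + 7 / 2 * A2) * w + (7 / 2 * (1 + A2 * u) + u ^ 2)) := by
      unfold Q; ring
    rw [this, hw, mul_zero]
  · have : v ^ 2 + (u + 7 / 2 * A2) * v + (7 / 2 * (1 + A2 * u) + u ^ 2) = (7 / 2) * Q u v := by
      unfold Q; ring
    rw [this, norm_mul] at hwv
    have h72 : ‖(7 / 2 : ℂ)‖ = 7 / 2 := by norm_num
    rw [h72] at hwv
    exact hwv


theorem continuous_Q : Continuous (fun p : ℂ × ℂ => Q p.1 p.2) := by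
  unfold Q; fun_prop

/-- pushing a zero with unequal moduli inward -/
theorem push (u v : ℂ) (huv : ‖v‖ < ‖u‖) (hQ : Q u v = 0) :
    ∃ u' v' : ℂ, Q u' v' = 0 ∧ ‖u'‖ < ‖u‖ ∧ ‖v'‖ < ‖u‖ := by
  have hu : 0 < ‖u‖ := lt_of_le_of_lt (norm_nonneg _) huv
  set η : ℝ := ‖u‖ - ‖v‖ with hη
  have hη0 : 0 < η := by linarith
  have hcont : Continuous (fun ε : ℝ => 7 / 2 * ‖Q (((1 - ε : ℝ) : ℂ) * u) v‖) := by
    unfold Q; fun_prop
  have hzero : 7 / 2 * ‖Q (((1 - (0 : ℝ) : ℝ) : ℂ) * u) v‖ = 0 := by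
    simp [hQ]
  have hev : ∀ᶠ ε in nhds (0:ℝ), 7 / 2 * ‖Q (((1 - ε : ℝ) : ℂ) * u) v‖ < η ^ 2 := by
    have := hcont.tendsto 0
    rw [hzero] at this
    exact this.eventually (gt_mem_nhds (by positivity))
  have hev2 : ∀ᶠ ε in nhdsWithin (0:ℝ) (Set.Ioi 0), 7 / 2 * ‖Q (((1 - ε : ℝ) : ℂ) * u) v‖ < η ^ 2 :=
    hev.filter_mono nhdsWithin_le_nhds
  have hev3 : ∀ᶠ ε in nhdsWithin (0:ℝ) (Set.Ioi 0), ε ∈ Set.Ioo (0:ℝ) 1 :=
    Ioo_mem_nhdsGT one_pos
  obtain ⟨ε, hε1, hε2⟩ := (hev2.and hev3).exists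
  obtain ⟨w, hw1, hw2⟩ := near_root_Q (((1 - ε : ℝ) : ℂ) * u) v
  refine ⟨((1 - ε : ℝ) : ℂ) * u, w, hw1, ?_, ?_⟩
  · rw [norm_mul, Complex.norm_real, Real.norm_eq_abs, abs_of_pos (by linarith [hε2.2])]
    nlinarith [hε2.1]
  · have h1 : ‖w - v‖ ^ 2 < η ^ 2 := lt_of_le_of_lt hw2 hε1
    have h2 : ‖w - v‖ < η := lt_of_pow_lt_pow_left₀ 2 hη0.le h1
    calc ‖w‖ = ‖v + (w - v)‖ := by ring_nf
      _ ≤ ‖v‖ + ‖w - v‖ := norm_add_le _ _
      _ < ‖u‖ := by linarith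

/-- no zeros in the closed bidisc -/
theorem Q_ne_zero (u v : ℂ) (hu : ‖u‖ ≤ 1) (hv : ‖v‖ ≤ 1) : Q u v ≠ 0 := by
  intro hQ
  set S : Set (ℂ × ℂ) := {p | ‖p‖ ≤ 1 ∧ Q p.1 p.2 = 0} with hS
  have hcl : IsClosed S := by
    have h1 : IsClosed {p : ℂ × ℂ | ‖p‖ ≤ 1} := isClosed_le continuous_norm continuous_const
    have h2 : IsClosed {p : ℂ × ℂ | Q p.1 p.2 = 0} := isClosed_eq continuous_Q continuous_const
    exact h1.inter h2
  have hcpt : IsCompact S := by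
    apply (isCompact_closedBall (0 : ℂ × ℂ) 1).of_isClosed_subset hcl
    intro p hp
    simp only [Metric.mem_closedBall, dist_zero_right]
    exact hp.1
  have hne : S.Nonempty := ⟨(u, v), by
    refine ⟨?_, hQ⟩
    rw [Prod.norm_def]
    exact max_le hu hv⟩
  obtain ⟨p, hpS, hpmin⟩ := hcpt.exists_isMinOn hne continuous_norm.continuousOn
  obtain ⟨hp1, hp2⟩ := hpS
  have hmin : ∀ a b : ℂ, Q a b = 0 → ‖p‖ ≤ max ‖a‖ ‖b‖ := by
    intro a b hab
    by_cases h : max ‖a‖ ‖b‖ ≤ 1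
    · have : (a, b) ∈ S := by
        refine ⟨?_, hab⟩
        rw [Prod.norm_def]; exact h
      have h2 := hpmin this
      simpa [Prod.norm_def] using h2
    · push Not at h
      linarith
  have hpn : ‖p‖ = max ‖p.1‖ ‖p.2‖ := Prod.norm_def p
  rcases lt_trichotomy ‖p.1‖ ‖p.2‖ with h | h | h
  · have hQ' : Q p.2 p.1 = 0 := by rw [Q_symm]; exact hp2
    obtain ⟨a, b, hab, ha, hb⟩ := push p.2 p.1 h hQ'
    have h3 := hmin a b hab
    rw [hpn, max_eq_right h.le] at h3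
    have := max_lt ha hb
    linarith
  · apply Q_ne_of_norm_eq p.1 p.2 h _ hp2
    have : ‖p.1‖ ≤ ‖p‖ := by rw [hpn]; exact le_max_left _ _
    linarith
  · obtain ⟨a, b, hab, ha, hb⟩ := push p.1 p.2 h hp2
    have h3 := hmin a b hab
    rw [hpn, max_eq_left h.le] at h3
    have := max_lt ha hb
    linarith

/-- the counterexample polynomial -/
noncomputable def P : Polynomial ℂ :=
  Polynomial.C (2 / 7) * Polynomial.X ^ 3 + Polynomial.C A2 * Polynomial.X ^ 2 + Polynomial.X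

theorem P_eval (z : ℂ) : P.eval z = z + A2 * z ^ 2 + 2 / 7 * z ^ 3 := by
  unfold P; simp; ring

theorem P_sub (z w : ℂ) : P.eval z - P.eval w = (z - w) * Q z w := by
  rw [P_eval, P_eval]; unfold Q; ring

theorem P_inj {z w : ℂ} (hz : ‖z‖ ≤ 1) (hw : ‖w‖ ≤ 1) (h : P.eval z = P.eval w) : z = w := by
  have h1 : (z - w) * Q z w = 0 := by rw [← P_sub, h, sub_self]
  rcases mul_eq_zero.1 h1 with h2 | h2
  · exact sub_eq_zero.1 h2
  · exact absurd h2 (Q_ne_zero z w hz hw)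

theorem P_natDegree : P.natDegree = 3 := by
  unfold P
  compute_degree!

theorem P_coeff_zero : P.coeff 0 = 0 := by
  unfold P
  simp [Polynomial.coeff_X, Polynomial.coeff_C]

theorem P_coeff_one : P.coeff 1 = 1 := by
  unfold P
  simp [Polynomial.coeff_X, Polynomial.coeff_X_pow]

/-- boundary point -/
noncomputable def ζ : ℂ := ⟨-63 / 65, 16 / 65⟩

theorem norm_ζ : ‖ζ‖ = 1 := by
  have : ‖ζ‖ ^ 2 = 1 := by
    rw [← Complex.normSq_eq_norm_sq, Complex.normSq_apply]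
    simp only [ζ]; norm_num
  nlinarith [norm_nonneg ζ]

theorem norm_Pζ : ‖P.eval ζ‖ ^ 2 < 0.1455 := by
  rw [← Complex.normSq_eq_norm_sq, Complex.normSq_apply, P_eval]
  have h2 : ζ ^ 2 = ⟨3713 / 4225, -2016 / 4225⟩ := by
    rw [sq]; apply Complex.ext <;> simp [ζ] <;> norm_num
  have h3 : ζ ^ 3 = ⟨-201663 / 274625, 186416 / 274625⟩ := by
    rw [pow_succ, h2]; apply Complex.ext <;> simp [ζ] <;> norm_num
  have h27 : (2 / 7 : ℂ) = ⟨2 / 7, 0⟩ := by apply Complex.ext <;> simp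
  rw [h2, h3, h27]
  simp [A2, ζ]
  norm_num

theorem radius_eq : 1 / (4 * Real.cos (Real.pi / (((3 : ℕ) : ℝ) + 2)) ^ 2) = (3 - Real.sqrt 5) / 2 := by
  have h : (((3 : ℕ) : ℝ) + 2) = 5 := by norm_num
  rw [h, Real.cos_pi_div_five]
  have h5 : Real.sqrt 5 ^ 2 = 5 := Real.sq_sqrt (by norm_num)
  have h0 : 0 ≤ Real.sqrt 5 := Real.sqrt_nonneg 5
  rw [div_eq_iff (by positivity)]
  nlinarith

theorem norm_lt_radius : ‖P.eval ζ‖ < 1 / (4 * Real.cos (Real.pi / (((3 : ℕ) : ℝ) + 2)) ^ 2) := by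
  rw [radius_eq]
  have h1 := norm_Pζ
  have h5 : Real.sqrt 5 ^ 2 = 5 := Real.sq_sqrt (by norm_num)
  have h0 : 0 ≤ Real.sqrt 5 := Real.sqrt_nonneg 5
  have h5u : Real.sqrt 5 < 2.2361 := by
    rw [Real.sqrt_lt' (by norm_num)]; norm_num
  have h6 : (0.38195 : ℝ) ≤ (3 - Real.sqrt 5) / 2 := by linarith
  have h7 : ‖P.eval ζ‖ < 0.3815 := by
    apply lt_of_pow_lt_pow_left₀ 2 (by norm_num)
    calc ‖P.eval ζ‖ ^ 2 < 0.1455 := h1
      _ < _ := by norm_num
  linarith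

/-- The negation of the preceding statement: For each N ≥ 1, every degree-N complex polynomial z+… univalent on the unit disk covers the disk of radius 1/(4cos²(π/(N+2))). Such a polynomial covers no larger disk exactly when it is a rotation of the stated Chebyshev-coefficient polynomial F. -/
theorem result :
    ¬ (∀ N : ℕ, 1 ≤ N →
    (∀ p : Polynomial ℂ, p.natDegree = N → p.coeff 0 = 0 → p.coeff 1 = 1 →
        Set.InjOn (fun z => p.eval z) (Metric.ball (0 : ℂ) 1) →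
        Metric.ball (0 : ℂ) (1 / (4 * Real.cos (Real.pi / ((N : ℝ) + 2)) ^ 2)) ⊆
          (fun z => p.eval z) '' Metric.ball (0 : ℂ) 1) ∧
    (∀ p : Polynomial ℂ,
      (p.natDegree = N ∧ p.coeff 0 = 0 ∧ p.coeff 1 = 1 ∧
        Set.InjOn (fun z => p.eval z) (Metric.ball (0 : ℂ) 1) ∧
        Metric.ball (0 : ℂ) (1 / (4 * Real.cos (Real.pi / ((N : ℝ) + 2)) ^ 2)) ⊆
          (fun z => p.eval z) '' Metric.ball (0 : ℂ) 1 ∧
        ∀ r : ℝ, 1 / (4 * Real.cos (Real.pi / ((N : ℝ) + 2)) ^ 2) < r →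
          ¬ (Metric.ball (0 : ℂ) r ⊆ (fun z => p.eval z) '' Metric.ball (0 : ℂ) 1))
      ↔
      ∃ α : ℝ, ∀ z : ℂ, p.eval z =
        Complex.exp (-((α : ℂ) * Complex.I)) *
          ∑ j ∈ Finset.Icc 1 N,
            (((Polynomial.derivative (Polynomial.Chebyshev.U ℝ ((N : ℤ) - (j : ℤ) + 1))).eval
                  (Real.cos (Real.pi / ((N : ℝ) + 2))) *
                (Polynomial.Chebyshev.U ℝ ((j : ℤ) - 1)).eval
                  (Real.cos (Real.pi / ((N : ℝ) + 2))) /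
                (Polynomial.derivative (Polynomial.Chebyshev.U ℝ (N : ℤ))).eval
                  (Real.cos (Real.pi / ((N : ℝ) + 2))) : ℝ) : ℂ) *
              (z * Complex.exp ((α : ℂ) * Complex.I)) ^ j)) := by
  intro h
  have h3 := (h 3 (by norm_num)).1 P P_natDegree P_coeff_zero P_coeff_one (by
    intro z hz w hw hzw
    rw [Metric.mem_ball, dist_zero_right] at hz hw
    exact P_inj hz.le hw.le hzw)
  have hmem : P.eval ζ ∈ Metric.ball (0 : ℂ) (1 / (4 * Real.cos (Real.pi / (((3 : ℕ) : ℝ) + 2)) ^ 2)) := by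
    rw [Metric.mem_ball, dist_zero_right]
    exact norm_lt_radius
  obtain ⟨z, hz, hzζ⟩ := h3 hmem
  rw [Metric.mem_ball, dist_zero_right] at hz
  have : z = ζ := P_inj hz.le norm_ζ.le hzζ
  rw [this, norm_ζ] at hz
  exact lt_irrefl _ hz

end Pool.Agent.S06128
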