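import Pool.Statements.S06153
import Pool.Agent.Lib.Pcb17ae.Main2

set_option autoImplicit false
open Pool Pool.MP_cb17ae_an

namespace Pool.Agent.S06153

/-- Every surjective algebra homomorphism from smooth complex functions on [0,1] onto a complex Banach algebra is continuous: its norm is bounded by a constant times the sum of sup-norms of the first n derivatives on [0,1]. -/
theorem result :
    ∀ (B : Type) [NormedRing B] [NormedAlgebra ℂ B] [CompleteSpace B] (φ : (ℝ → ℂ) → B),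
      (∀ f g : ℝ → ℂ, ContDiff ℝ (⊤ : ℕ∞) f → ContDiff ℝ (⊤ : ℕ∞) g →
          φ (f + g) = φ f + φ g) →
      (∀ f g : ℝ → ℂ, ContDiff ℝ (⊤ : ℕ∞) f → ContDiff ℝ (⊤ : ℕ∞) g →
          φ (f * g) = φ f * φ g) →
      (∀ (c : ℂ) (f : ℝ → ℂ), ContDiff ℝ (⊤ : ℕ∞) f → φ (c • f) = c • φ f) →
      (∀ f g : ℝ → ℂ, ContDiff ℝ (⊤ : ℕ∞) f → ContDiff ℝ (⊤ : ℕ∞) g →
          Set.EqOn f g (Set.Icc (0 : ℝ) 1) → φ f = φ g) →
      (∀ b : B, ∃ f : ℝ → ℂ, ContDiff ℝ (⊤ : ℕ∞) f ∧ φ f = b) →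
      ∃ n : ℕ, ∃ C : ℝ, ∀ f : ℝ → ℂ, ContDiff ℝ (⊤ : ℕ∞) f →
        ‖φ f‖ ≤ C * ∑ k ∈ Finset.range (n + 1),
          sSup ((fun x : ℝ => ‖iteratedDeriv k f x‖) '' Set.Icc (0 : ℝ) 1) := by
  intro B _ _ _ φ hadd hmul hsmul heq hsurj
  have hone : φ 1 = 1 := by
    obtain ⟨f, hf, hf1⟩ := hsurj 1
    have h1 : ContDiff ℝ (⊤ : ℕ∞) (1 : ℝ → ℂ) := contDiff_const
    have h := hmul 1 f h1 hf
    rw [one_mul, hf1, mul_one] at h
    exact h.symm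
  let θ' : Lib.Pcb17ae.Sm →ₗ[ℂ] B :=
    { toFun := fun f => φ f.1
      map_add' := fun f g => hadd f.1 g.1 f.2 g.2
      map_smul' := fun c f => hsmul c f.1 f.2 }
  let θ : Lib.Pcb17ae.Sm →ₐ[ℂ] B := AlgHom.ofLinearMap θ' hone (fun f g => hmul f.1 g.1 f.2 g.2)
  have hθ : ∀ f : Lib.Pcb17ae.Sm, θ f = φ f.1 := fun f => rfl
  obtain ⟨n, C, h⟩ := Lib.Pcb17ae.main θ
    (fun b => by
      obtain ⟨f, hf, hfb⟩ := hsurj b
      exact ⟨⟨f, hf⟩, hfb⟩)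
    (fun f g hfg => heq f.1 g.1 f.2 g.2 hfg)
  exact ⟨n, C, fun f hf => h ⟨f, hf⟩⟩

end Pool.Agent.S06153
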