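import Pool.Statements.S06198

set_option autoImplicit false
open Pool Pool.MP_cea7e0_an

namespace Pool.Agent.S06198

open Polynomial Finset

/-- The integer sequence `1, 61, 62, ..., 68, 68, ..., 68, 1` on `0..17`, zero elsewhere. -/
def F (k : ℤ) : ℤ :=
  if k < 0 ∨ 17 < k then 0 else if k = 0 ∨ k = 17 then 1 else 60 + min k 8

theorem F_nonneg (k : ℤ) : 0 ≤ F k := by
  unfold F
  split_ifs with h1 h2
  · exact le_rfl
  · exact zero_le_one
  · push Not at h1 h2
    have : 0 ≤ min k 8 := le_min h1.1 (by norm_num)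
    linarith

theorem key : ∀ u v x : Fin 18, u ≤ x → x ≤ v →
    F (u.val : ℤ) * F (v.val : ℤ) ≤ F (x.val : ℤ) * F ((u.val : ℤ) + v.val - x.val) := by
  decide +kernel

/-- log-concavity without internal zeros, in the form needed for the `2 x 2` minors -/
theorem F_lc (u v x : ℤ) (h1 : u ≤ x) (h2 : x ≤ v) : F u * F v ≤ F x * F (u + v - x) := by
  by_cases hu : u < 0
  · have : F u = 0 := by simp [F, hu]
    rw [this, zero_mul]
    exact mul_nonneg (F_nonneg _) (F_nonneg _)
  by_cases hv : 17 < v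
  · have : F v = 0 := by simp [F, hv]
    rw [this, mul_zero]
    exact mul_nonneg (F_nonneg _) (F_nonneg _)
  push Not at hu hv
  obtain ⟨u', rfl⟩ := Int.eq_ofNat_of_zero_le hu
  obtain ⟨v', rfl⟩ := Int.eq_ofNat_of_zero_le (hu.trans (h1.trans h2))
  obtain ⟨x', rfl⟩ := Int.eq_ofNat_of_zero_le (hu.trans h1)
  have h1' : u' ≤ x' := by exact_mod_cast h1
  have h2' : x' ≤ v' := by exact_mod_cast h2
  have hv' : v' ≤ 17 := by exact_mod_cast hv
  exact key ⟨u', by omega⟩ ⟨v', by omega⟩ ⟨x', by omega⟩ h1' h2'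

/-- rising factorial on Gaussian integers -/
def poch (z : GaussianInt) : ℕ → GaussianInt
  | 0 => 1
  | k + 1 => poch z k * (z + k)

/-- the value of the polynomial at a Gaussian integer -/
def S (z : GaussianInt) : GaussianInt :=
  ∑ k ∈ range 18, (((Nat.choose 17 k : ℤ) * (F k * F ((17 - k : ℕ) : ℤ)) : ℤ) : GaussianInt) *
    (poch z k * poch z (17 - k) - poch (z + 1) k * poch (z - 1) (17 - k))

theorem S_lt : (S ⟨1, 5⟩).norm < (S ⟨0, 5⟩).norm := by
  decide +kernel

theorem poch_cast (z : GaussianInt) (k : ℕ) :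
    GaussianInt.toComplex (poch z k) = (ascPochhammer ℂ k).eval (GaussianInt.toComplex z) := by
  induction k with
  | zero => simp [poch]
  | succ k ih =>
    rw [ascPochhammer_succ_eval, ← ih]
    simp [poch]

theorem aeval_comp_asc (k : ℕ) (c : ℝ) (z : ℂ) :
    aeval z ((ascPochhammer ℝ k).comp (X + C c)) = (ascPochhammer ℂ k).eval (z + c) := by
  rw [aeval_comp]
  simp only [map_add, aeval_X, aeval_C]
  rw [aeval_def, ← ascPochhammer_eval₂ (algebraMap ℝ ℂ) k]
  rfl

/-- the sequence as a real sequence -/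
noncomputable def f (k : ℤ) : ℝ := (F k : ℝ)

/-- the polynomial -/
noncomputable def P : Polynomial ℝ :=
  ∑ k ∈ Finset.Nat.antidiagonalTuple 2 17,
    Polynomial.C ((Nat.multinomial Finset.univ k : ℝ) * ∏ i, f ((k i : ℕ) : ℤ)) *
    (Matrix.of fun (i j : Fin 2) => (ascPochhammer ℝ (k i)).comp
        (Polynomial.X + Polynomial.C (((j : ℕ) : ℝ) - ((i : ℕ) : ℝ)))).det

theorem aeval_P (z : GaussianInt) :
    aeval (GaussianInt.toComplex z) P = GaussianInt.toComplex (S z) := by
  unfold P S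
  rw [Finset.Nat.antidiagonalTuple_two, Finset.sum_map, map_sum, map_sum,
    Finset.Nat.sum_antidiagonal_eq_sum_range_succ_mk]
  refine Finset.sum_congr rfl ?_
  intro k hk
  have hk' : k ≤ 17 := by simpa [Nat.lt_succ_iff] using hk
  have hmul : Nat.multinomial (Finset.univ : Finset (Fin 2)) ![k, 17 - k] = Nat.choose 17 k := by
    have : (Finset.univ : Finset (Fin 2)) = {0, 1} := by decide
    rw [this, Nat.binomial_eq_choose (by decide)]
    simp [hk']
  simp only [Equiv.coe_toEmbedding, piFinTwoEquiv_symm_apply]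
  have hcons : (Fin.cons k (Fin.cons (17 - k) finZeroElim) : Fin 2 → ℕ) = ![k, 17 - k] := by
    ext i
    fin_cases i <;> rfl
  rw [hcons, hmul, Matrix.det_fin_two]
  simp only [Matrix.of_apply, Fin.prod_univ_two, Matrix.cons_val_zero, Matrix.cons_val_one]
  rw [map_mul, aeval_C, map_sub (aeval (GaussianInt.toComplex z) : ℝ[X] →ₐ[ℝ] ℂ),
    map_mul (aeval (GaussianInt.toComplex z) : ℝ[X] →ₐ[ℝ] ℂ),
    map_mul (aeval (GaussianInt.toComplex z) : ℝ[X] →ₐ[ℝ] ℂ),
    aeval_comp_asc, aeval_comp_asc, aeval_comp_asc, aeval_comp_asc]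
  rw [map_mul GaussianInt.toComplex, map_intCast, map_sub GaussianInt.toComplex,
    map_mul GaussianInt.toComplex, map_mul GaussianInt.toComplex, poch_cast, poch_cast,
    poch_cast, poch_cast, map_add GaussianInt.toComplex, map_sub GaussianInt.toComplex, map_one]
  have e1 : GaussianInt.toComplex z + (((((0 : Fin 2) : ℕ) : ℝ) - (((0 : Fin 2) : ℕ) : ℝ) : ℝ) : ℂ)
      = GaussianInt.toComplex z := by simp
  have e2 : GaussianInt.toComplex z + (((((1 : Fin 2) : ℕ) : ℝ) - (((1 : Fin 2) : ℕ) : ℝ) : ℝ) : ℂ)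
      = GaussianInt.toComplex z := by simp
  have e3 : GaussianInt.toComplex z + (((((1 : Fin 2) : ℕ) : ℝ) - (((0 : Fin 2) : ℕ) : ℝ) : ℝ) : ℂ)
      = GaussianInt.toComplex z + 1 := by simp
  have e4 : GaussianInt.toComplex z + (((((0 : Fin 2) : ℕ) : ℝ) - (((1 : Fin 2) : ℕ) : ℝ) : ℝ) : ℂ)
      = GaussianInt.toComplex z - 1 := by simp [sub_eq_add_neg]
  rw [e1, e2, e3, e4]
  simp [f]

theorem prod_norm_le (m : Multiset ℂ) (z w : ℂ) (h : ∀ a ∈ m, ‖z - a‖ ≤ ‖w - a‖) :
    ‖(m.map (z - ·)).prod‖ ≤ ‖(m.map (w - ·)).prod‖ := by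
  induction m using Multiset.induction_on with
  | empty => simp
  | cons a m ih =>
    simp only [Multiset.map_cons, Multiset.prod_cons, norm_mul]
    refine mul_le_mul (h a (Multiset.mem_cons_self a m))
      (ih fun b hb => h b (Multiset.mem_cons_of_mem hb)) (norm_nonneg _) (norm_nonneg _)

/-- A real polynomial with all roots in the open left half-plane has modulus that does not
decrease when one moves to the right in the closed right half-plane. -/
theorem norm_aeval_le (Q : ℝ[X]) (hQ : ∀ a : ℂ, aeval a Q = 0 → a.re < 0) (z w : ℂ)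
    (him : z.im = w.im) (hz : 0 ≤ z.re) (hw : z.re ≤ w.re) : ‖aeval z Q‖ ≤ ‖aeval w Q‖ := by
  have hs : (Q.map (algebraMap ℝ ℂ)).Splits := IsAlgClosed.splits _
  rw [hs.aeval_eq_prod_aroots, hs.aeval_eq_prod_aroots, norm_mul, norm_mul]
  refine mul_le_mul_of_nonneg_left (prod_norm_le _ _ _ ?_) (norm_nonneg _)
  intro a ha
  have ha' : a.re < 0 := hQ a (by
    have := (mem_aroots'.1 ha).2
    exact this)
  rw [← sq_le_sq₀ (norm_nonneg _) (norm_nonneg _), ← Complex.normSq_eq_norm_sq,
    ← Complex.normSq_eq_norm_sq, Complex.normSq_apply, Complex.normSq_apply]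
  simp only [Complex.sub_re, Complex.sub_im, him]
  nlinarith

theorem P_facts : Complex.normSq (aeval (GaussianInt.toComplex ⟨1, 5⟩) P) <
    Complex.normSq (aeval (GaussianInt.toComplex ⟨0, 5⟩) P) := by
  rw [aeval_P, aeval_P, ← GaussianInt.intCast_real_norm, ← GaussianInt.intCast_real_norm]
  exact_mod_cast S_lt

/-- The negation of the preceding statement: For n≥0, r≥2, d≥r and a real sequence f_0..f_n (zero elsewhere) with f_0,f_n>0 and all Toeplitz minors of order ≤d nonnegative, if the Pochhammer–determinant polynomial P_n^r is nonzero then all its roots have negative real part and all its coefficients are positive. -/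
theorem result :
    ¬ (∀ (n r d : ℕ), 2 ≤ r → r ≤ d → ∀ f : ℤ → ℝ,
      (∀ k : ℤ, (k < 0 ∨ (n : ℤ) < k) → f k = 0) →
      0 < f 0 → 0 < f (n : ℤ) →
      (∀ m : ℕ, m ≤ d → ∀ a b : Fin m → ℤ, StrictMono a → StrictMono b →
          0 ≤ (Matrix.of fun s t => f (a s - b t)).det) →
      ∀ P : Polynomial ℝ,
        P = ∑ k ∈ Finset.Nat.antidiagonalTuple r n,
          Polynomial.C ((Nat.multinomial Finset.univ k : ℝ) * ∏ i, f ((k i : ℕ) : ℤ)) *
          (Matrix.of fun (i j : Fin r) => (ascPochhammer ℝ (k i)).comp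
              (Polynomial.X + Polynomial.C (((j : ℕ) : ℝ) - ((i : ℕ) : ℝ)))).det →
        P ≠ 0 →
        (∀ z : ℂ, Polynomial.aeval z P = 0 → z.re < 0) ∧
        (∀ i : ℕ, i ≤ P.natDegree → 0 < P.coeff i)) := by
  intro h
  have hP0 : P ≠ 0 := by
    intro h0
    have := P_facts
    rw [h0] at this
    simp at this
  have c1 : ∀ k : ℤ, (k < 0 ∨ ((17 : ℕ) : ℤ) < k) → f k = 0 := by
    intro k hk
    have : F k = 0 := by
      unfold F
      rw [if_pos (by exact_mod_cast hk)]
    simp [f, this]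
  have c2 : 0 < f 0 := by
    have : F 0 = 1 := by decide
    simp [f, this]
  have c3 : 0 < f ((17 : ℕ) : ℤ) := by
    have : F 17 = 1 := by decide
    simp [f, this]
  have c4 : ∀ m : ℕ, m ≤ 2 → ∀ a b : Fin m → ℤ, StrictMono a → StrictMono b →
      0 ≤ (Matrix.of fun s t => f (a s - b t)).det := by
    intro m hm a b ha hb
    interval_cases m
    · simp
    · rw [Matrix.det_fin_one]
      simp only [Matrix.of_apply, f]
      exact_mod_cast F_nonneg _
    · rw [Matrix.det_fin_two]
      simp only [Matrix.of_apply, f]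
      have ha' : a 0 < a 1 := ha (by decide)
      have hb' : b 0 < b 1 := hb (by decide)
      have := F_lc (a 0 - b 1) (a 1 - b 0) (a 0 - b 0) (by linarith) (by linarith)
      have e : a 0 - b 1 + (a 1 - b 0) - (a 0 - b 0) = a 1 - b 1 := by ring
      rw [e] at this
      have h4 : (F (a 0 - b 1) : ℝ) * F (a 1 - b 0) ≤ F (a 0 - b 0) * F (a 1 - b 1) := by
        exact_mod_cast this
      linarith
  obtain ⟨hroots, -⟩ := h 17 2 2 le_rfl le_rfl f c1 c2 c3 c4 P rfl hP0
  have h1 := norm_aeval_le P hroots (GaussianInt.toComplex ⟨0, 5⟩) (GaussianInt.toComplex ⟨1, 5⟩)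
    (by simp) (by simp) (by simp)
  have h2 := P_facts
  rw [Complex.normSq_eq_norm_sq, Complex.normSq_eq_norm_sq] at h2
  have h3 := (sq_le_sq₀ (norm_nonneg _) (norm_nonneg _)).2 h1
  linarith

end Pool.Agent.S06198
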