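import Pool.Statements.S06336
import Pool.Agent.Lib.Pd7a79b.GoluzinIface
import Pool.Agent.Lib.Pd7a79b.Final

set_option autoImplicit false
open Pool Pool.MP_d7a79b_an

namespace Pool.Agent.S06336

/-- The negation of the preceding statement: The least upper bound of ∣a₂∣ = ∣f''(0)∣/2 over normalized univalent maps f of the unit disc whose local inverse at 0 continues to a univalent holomorphic map of the disc equals √2. -/
theorem result :
    ¬ (IsLUB {r : ℝ | ∃ f : ℂ → ℂ,
      DifferentiableOn ℂ f (Metric.ball (0 : ℂ) 1) ∧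
      Set.InjOn f (Metric.ball (0 : ℂ) 1) ∧
      f 0 = 0 ∧ deriv f 0 = 1 ∧
      (∃ g : ℂ → ℂ, DifferentiableOn ℂ g (Metric.ball (0 : ℂ) 1) ∧
        Set.InjOn g (Metric.ball (0 : ℂ) 1) ∧
        ∀ᶠ z in nhds (0 : ℂ), g (f z) = z) ∧
      r = ‖iteratedDeriv 2 f 0‖ / 2} (Real.sqrt 2)) :=
  Pool.Agent.Lib.Pd7a79b.not_brannan Pool.Agent.Lib.Pd7a79b.goluzin_statement

end Pool.Agent.S06336
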