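import Pool.Statements.S06821
import Pool.Agent.Lib.ARC.Arc
import Pool.Agent.Lib.ARC.FinGel

set_option autoImplicit false
open Pool Pool.MP_fd1cdf_an

namespace Pool.Agent.S06821

/-- There is a closed, point-separating complex subalgebra of C([0,1]) containing the constants, not equal to all of C([0,1]), all of whose characters are evaluations at points of [0,1]. -/
theorem result :
    ∃ A : Subalgebra ℂ C(unitInterval, ℂ),
      IsClosed (A : Set C(unitInterval, ℂ)) ∧
      (∀ x y : unitInterval, x ≠ y → ∃ f ∈ A, f x ≠ f y) ∧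
      A ≠ ⊤ ∧
      ∀ φ : A →ₐ[ℂ] ℂ, ∃ x : unitInterval, ∀ f : A, φ f = (f : C(unitInterval, ℂ)) x := by
  obtain ⟨γ, hc, hinj, hpc, hd⟩ := Pool.Agent.Lib.ARC.exists_arc
  refine Pool.Agent.Lib.ARC.gelfand_of_arc hc hinj hpc fun P M hM => ?_
  have h := hd P M hM
  linarith

end Pool.Agent.S06821
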