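import Pool.Statements.S07566
import Pool.Agent.Lib.P1f4382.Main

set_option autoImplicit false
open Pool Pool.MP_1f4382_co

namespace Pool.Agent.S07566

/-- The negation of the preceding statement: For each k there are C, D > 0 such that every tripartite 3-graph on three n-sets with VC₂ dimension below k has, for every ε in (0,1), an ε-graph partition into M ≤ C(1/ε)^D classes per pair, with at most εn³ misclassified triples. -/
theorem result :
    ¬ (∀ k : ℕ, ∃ C D : ℝ, 0 < C ∧ 0 < D ∧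
      ∀ ε : ℝ, 0 < ε → ε < 1 →
      ∀ n : ℕ, ∀ H : Finset (Fin n × Fin n × Fin n),
        (¬ ∃ a b : Fin k → Fin n, ∀ S : Set (Fin k × Fin k), ∃ z : Fin n,
            ∀ i j : Fin k, ((a i, b j, z) ∈ H ↔ (i, j) ∈ S)) →
        ∃ M : ℕ, (M : ℝ) ≤ C * (1 / ε) ^ D ∧
          ∃ e g h : Fin n → Fin n → Fin M, ∃ f : Fin M → Fin M → Fin M → Bool,
            (((Finset.univ : Finset (Fin n × Fin n × Fin n)).filter
                (fun t : Fin n × Fin n × Fin n =>
                  ¬ (t ∈ H ↔ f (e t.1 t.2.1) (g t.1 t.2.2) (h t.2.1 t.2.2) = true))).card : ℝ)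
              ≤ ε * (n : ℝ) ^ 3) := by
  classical
  intro hcon
  obtain ⟨C, D, _, _, h⟩ := hcon 2
  obtain ⟨p, hp, hpoly⟩ := Pool.Agent.Lib.P1f4382.exists_prime_poly C D
  haveI : Fact p.Prime := ⟨hp⟩
  have hp0 : (0 : ℝ) < p := by exact_mod_cast hp.pos
  have hp2 : (2 : ℝ) ≤ p := by exact_mod_cast hp.two_le
  obtain ⟨n, c, R, hn, hbad⟩ := Pool.Agent.Lib.P1f4382.bad p (p / 8) (by omega)
  obtain ⟨M, hM, e, g, k, f, herr⟩ := h (1 / (8 * (p : ℝ))) (by positivity)
    (by rw [div_lt_one (by positivity)]; linarith) n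
    (Finset.univ.filter (fun t : Fin n × Fin n × Fin n =>
      Pool.Agent.Lib.P1f4382.G c c R t.1 t.2.1 t.2.2)) (by
      rintro ⟨a, b, hab⟩
      simp only [Finset.mem_filter, Finset.mem_univ, true_and] at hab
      obtain ⟨z, hz⟩ := hab Set.univ
      obtain ⟨w, hw⟩ := hab {(0, 0)}
      refine Pool.Agent.Lib.P1f4382.vc_xy (cx := c) (cy := c) (R := R) (a 0) (a 1) (b 0) (b 1)
        z w w ((hz 0 0).2 trivial) ((hz 0 1).2 trivial) ((hz 1 0).2 trivial)
        ((hz 1 1).2 trivial) ((hw 0 0).2 rfl) ?_ ((hw 0 0).2 rfl) ?_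
      · intro h1
        have := (hw 1 0).1 h1
        simp at this
      · intro h1
        have := (hw 0 1).1 h1
        simp at this)
  have hM2 : M ≤ 2 ^ (p / 8) := by
    have h1 : (M : ℝ) ≤ ((2 ^ (p / 8) : ℕ) : ℝ) := by
      push_cast
      refine hM.trans ?_
      rw [one_div_one_div]
      exact hpoly
    exact_mod_cast h1
  have hb := hbad M hM2 e g k f
  have hb' : ((n : ℝ)) ^ 3 < 8 * p * ((Finset.univ.filter (fun t : Fin n × Fin n × Fin n =>
        ¬ (Pool.Agent.Lib.P1f4382.G c c R t.1 t.2.1 t.2.2 ↔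
          f (e t.1 t.2.1) (g t.1 t.2.2) (k t.2.1 t.2.2) = true))).card : ℝ) := by
    exact_mod_cast hb
  simp only [Finset.mem_filter, Finset.mem_univ, true_and] at herr
  have h3 : 8 * (p : ℝ) * ((Finset.univ.filter (fun t : Fin n × Fin n × Fin n =>
        ¬ (Pool.Agent.Lib.P1f4382.G c c R t.1 t.2.1 t.2.2 ↔
          f (e t.1 t.2.1) (g t.1 t.2.2) (k t.2.1 t.2.2) = true))).card : ℝ) ≤
      8 * (p : ℝ) * (1 / (8 * (p : ℝ)) * (n : ℝ) ^ 3) := by
    refine mul_le_mul_of_nonneg_left ?_ (by positivity)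
    convert herr using 3
  have h4 : 8 * (p : ℝ) * (1 / (8 * (p : ℝ)) * (n : ℝ) ^ 3) = (n : ℝ) ^ 3 := by
    field_simp
  linarith

end Pool.Agent.S07566
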