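import Pool.Statements.S07792

set_option autoImplicit false
open Pool Pool.MP_29e5d4_co

namespace Pool.Agent.S07792

/-- Vertices: four copies (first coordinate) of the octahedron (second coordinate). -/
abbrev VV : Type := Fin 4 × Fin 6

/-- The relation: inside a copy, all non-antipodal pairs of distinct vertices are adjacent
(the octahedron, that is `K_6` minus a perfect matching); the four vertices `(i, 0)` form a
4-cycle. -/
def adj (x y : VV) : Prop :=
  (x.1 = y.1 ∧ x.2 ≠ y.2 ∧ x.2 ≠ y.2 + 3) ∨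
    (x.2 = 0 ∧ y.2 = 0 ∧ (x.1 = y.1 + 1 ∨ y.1 = x.1 + 1))

instance : DecidableRel adj := fun x y => by unfold adj; infer_instance

theorem adj_symm : ∀ x y : VV, adj x y → adj y x := by decide +kernel

theorem adj_irrefl : ∀ x : VV, ¬ adj x x := by decide +kernel

/-- The counterexample graph: a 4-cycle with an octahedron glued on each of its vertices. -/
def GG : SimpleGraph VV where
  Adj := adj
  symm := ⟨adj_symm⟩
  loopless := ⟨adj_irrefl⟩

instance : DecidableRel GG.Adj := fun x y => inferInstanceAs (Decidable (adj x y))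

/-- The three deleted edges. -/
def FF : Finset (Sym2 VV) := {s((0, 0), (1, 0)), s((1, 0), (2, 0)), s((2, 0), (3, 0))}

theorem FF_sub : ∀ e ∈ FF, e ∈ GG.edgeSet := by decide +kernel

theorem FF_card : FF.card = 3 := by decide +kernel

theorem min_deg : 4 ≤ GG.minDegree := by
  apply SimpleGraph.le_minDegree_of_forall_le_degree
  decide +kernel

/-- Neighbours of a vertex `(i, j)` with `j ≠ 0` lie in copy `i`, and are neither `(i, j)` nor
its antipode. -/
theorem adj_nonzero : ∀ (i : Fin 4) (j : Fin 6), j ≠ 0 → ∀ u : VV, adj u (i, j) →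
    u.1 = i ∧ u.2 ≠ j ∧ u.2 ≠ j + 3 := by decide +kernel

/-- Neighbours of `(i, 0)` are inside copy `i` (neither `0` nor `3`), or of the form
`(i', 0)`. -/
theorem adj_zero : ∀ (i : Fin 4) (u : VV), adj u (i, 0) →
    (u.1 = i ∧ u.2 ≠ 0 ∧ u.2 ≠ 3) ∨ u.2 = 0 := by decide +kernel

section lower

variable (H : SimpleGraph VV) (hH : ∀ x y, H.Adj x y → adj x y) (D : Finset VV)
  (hD : ∀ w : VV, w ∈ D ∨ ∃ u ∈ D, H.Adj u w)

/-- The number of elements of `D` in copy `i`. -/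
def cnt (D : Finset VV) (i : Fin 4) : ℕ := (D.filter (fun p => p.1 = i)).card

include hH hD in
/-- A vertex `(i, j)` with `j ≠ 0` is dominated from inside the copy. -/
theorem dom_nonzero (i : Fin 4) (j : Fin 6) (hj : j ≠ 0) :
    ∃ j' : Fin 6, (i, j') ∈ D ∧ j' ≠ j + 3 := by
  rcases hD (i, j) with h | ⟨u, hu, ha⟩
  · exact ⟨j, h, (by decide : ∀ j : Fin 6, j ≠ j + 3) j⟩
  · obtain ⟨h1, _, h3⟩ := adj_nonzero i j hj u (hH _ _ ha)
    refine ⟨u.2, ?_, h3⟩
    have : (i, u.2) = u := by rw [← h1]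
    rw [this]; exact hu

include hH hD in
theorem cnt_pos (i : Fin 4) : 1 ≤ cnt D i := by
  obtain ⟨j', h, _⟩ := dom_nonzero H hH D hD i 3 (by decide)
  have : (i, j') ∈ D.filter (fun p => p.1 = i) := by simp [h]
  exact Finset.card_pos.mpr ⟨_, this⟩

theorem two_of_ne (i : Fin 4) (a b : Fin 6) (ha : (i, a) ∈ D) (hb : (i, b) ∈ D) (hab : a ≠ b) :
    2 ≤ cnt D i := by
  have h1 : (i, a) ∈ D.filter (fun p => p.1 = i) := by simp [ha]
  have h2 : (i, b) ∈ D.filter (fun p => p.1 = i) := by simp [hb]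
  exact Finset.one_lt_card.mpr ⟨_, h1, _, h2, by simp [hab]⟩

include hH hD in
/-- If a copy contains at most one element of `D`, this element is the antipode of `(i, 0)`. -/
theorem anti_of_le_one (i : Fin 4) (hi : cnt D i ≤ 1) (j : Fin 6) (hj : (i, j) ∈ D) :
    j = 3 := by
  by_contra hne
  have h0 : j + 3 ≠ 0 := by
    revert hne; clear hj; revert j; decide
  obtain ⟨j', h, hj'⟩ := dom_nonzero H hH D hD i (j + 3) h0
  have hjj : j ≠ j' := by
    rintro rfl
    apply hj'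
    clear hne h0 hj h hj'
    revert j; decide
  have := two_of_ne D i j j' hj h hjj
  omega

include hH hD in
theorem nbr_of_le_one (i : Fin 4) (hi : cnt D i ≤ 1) :
    ∃ i' : Fin 4, H.Adj (i', 0) (i, 0) ∧ 2 ≤ cnt D i' := by
  rcases hD (i, 0) with h | ⟨u, hu, ha⟩
  · have := anti_of_le_one H hH D hD i hi 0 h
    exact absurd this (by decide)
  · rcases adj_zero i u (hH _ _ ha) with ⟨h1, _, h3⟩ | h0
    · exfalso
      apply h3
      apply anti_of_le_one H hH D hD i hi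
      have : (i, u.2) = u := by rw [← h1]
      rw [this]; exact hu
    · have hu' : (u.1, (0 : Fin 6)) = u := by rw [← h0]
      refine ⟨u.1, by rw [hu']; exact ha, ?_⟩
      by_contra hlt
      have := anti_of_le_one H hH D hD u.1 (by omega) 0 (by rw [hu']; exact hu)
      exact absurd this (by decide)

theorem card_eq : D.card = cnt D 0 + cnt D 1 + cnt D 2 + cnt D 3 := by
  have h := Finset.card_eq_sum_card_fiberwise (f := Prod.fst) (s := D) (t := Finset.univ)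
    (fun _ _ => Finset.mem_coe.mpr (Finset.mem_univ _))
  rw [h, Fin.sum_univ_four]
  rfl

end lower

theorem lower_G (D : Finset VV) (hD : ∀ w : VV, w ∈ D ∨ ∃ u ∈ D, GG.Adj u w) :
    6 ≤ D.card := by
  have hH : ∀ x y, GG.Adj x y → adj x y := fun _ _ h => h
  have key : ∀ i : Fin 4, 2 ≤ cnt D i ∨ ∃ i' : Fin 4, GG.Adj (i', 0) (i, 0) ∧ 2 ≤ cnt D i' := by
    intro i
    by_cases h : 2 ≤ cnt D i
    · exact Or.inl h
    · exact Or.inr (nbr_of_le_one GG hH D hD i (by omega))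
  have h0 := cnt_pos GG hH D hD 0
  have h1 := cnt_pos GG hH D hD 1
  have h2 := cnt_pos GG hH D hD 2
  have h3 := cnt_pos GG hH D hD 3
  rw [card_eq D]
  have a0 : ∀ i' : Fin 4, GG.Adj (i', 0) (0, 0) → i' = 1 ∨ i' = 3 := by decide +kernel
  have a1 : ∀ i' : Fin 4, GG.Adj (i', 0) (1, 0) → i' = 0 ∨ i' = 2 := by decide +kernel
  have a2 : ∀ i' : Fin 4, GG.Adj (i', 0) (2, 0) → i' = 1 ∨ i' = 3 := by decide +kernel
  have a3 : ∀ i' : Fin 4, GG.Adj (i', 0) (3, 0) → i' = 0 ∨ i' = 2 := by decide +kernel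
  have k0 : 2 ≤ cnt D 0 ∨ 2 ≤ cnt D 1 ∨ 2 ≤ cnt D 3 := by
    rcases key 0 with h | ⟨i', hi, h⟩
    · exact Or.inl h
    · rcases a0 i' hi with rfl | rfl
      · exact Or.inr (Or.inl h)
      · exact Or.inr (Or.inr h)
  have k1 : 2 ≤ cnt D 1 ∨ 2 ≤ cnt D 0 ∨ 2 ≤ cnt D 2 := by
    rcases key 1 with h | ⟨i', hi, h⟩
    · exact Or.inl h
    · rcases a1 i' hi with rfl | rfl
      · exact Or.inr (Or.inl h)
      · exact Or.inr (Or.inr h)
  have k2 : 2 ≤ cnt D 2 ∨ 2 ≤ cnt D 1 ∨ 2 ≤ cnt D 3 := by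
    rcases key 2 with h | ⟨i', hi, h⟩
    · exact Or.inl h
    · rcases a2 i' hi with rfl | rfl
      · exact Or.inr (Or.inl h)
      · exact Or.inr (Or.inr h)
  have k3 : 2 ≤ cnt D 3 ∨ 2 ≤ cnt D 0 ∨ 2 ≤ cnt D 2 := by
    rcases key 3 with h | ⟨i', hi, h⟩
    · exact Or.inl h
    · rcases a3 i' hi with rfl | rfl
      · exact Or.inr (Or.inl h)
      · exact Or.inr (Or.inr h)
  omega

theorem lower_GF (D : Finset VV)
    (hD : ∀ w : VV, w ∈ D ∨ ∃ u ∈ D, (GG.deleteEdges (↑FF : Set (Sym2 VV))).Adj u w) :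
    7 ≤ D.card := by
  set H := GG.deleteEdges (↑FF : Set (Sym2 VV)) with hHdef
  have hadj : ∀ x y, H.Adj x y ↔ adj x y ∧ s(x, y) ∉ FF := by
    intro x y
    rw [hHdef, SimpleGraph.deleteEdges_adj]
    rfl
  have hH : ∀ x y, H.Adj x y → adj x y := fun x y h => ((hadj x y).mp h).1
  have key : ∀ i : Fin 4, 2 ≤ cnt D i ∨
      ∃ i' : Fin 4, (adj (i', 0) (i, 0) ∧ s(((i', 0) : VV), (i, 0)) ∉ FF) ∧ 2 ≤ cnt D i' := by
    intro i
    by_cases h : 2 ≤ cnt D i
    · exact Or.inl h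
    · obtain ⟨i', h1, h2⟩ := nbr_of_le_one H hH D hD i (by omega)
      exact Or.inr ⟨i', (hadj _ _).mp h1, h2⟩
  have h0 := cnt_pos H hH D hD 0
  have h1 := cnt_pos H hH D hD 1
  have h2 := cnt_pos H hH D hD 2
  have h3 := cnt_pos H hH D hD 3
  rw [card_eq D]
  have a0 : ∀ i' : Fin 4, (adj (i', 0) (0, 0) ∧ s(((i', 0) : VV), (0, 0)) ∉ FF) → i' = 3 := by
    decide +kernel
  have a1 : ∀ i' : Fin 4, ¬ (adj (i', 0) (1, 0) ∧ s(((i', 0) : VV), (1, 0)) ∉ FF) := by
    decide +kernel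
  have a2 : ∀ i' : Fin 4, ¬ (adj (i', 0) (2, 0) ∧ s(((i', 0) : VV), (2, 0)) ∉ FF) := by
    decide +kernel
  have k0 : 2 ≤ cnt D 0 ∨ 2 ≤ cnt D 3 := by
    rcases key 0 with h | ⟨i', hi, h⟩
    · exact Or.inl h
    · obtain rfl := a0 i' hi
      exact Or.inr h
  have k1 : 2 ≤ cnt D 1 := by
    rcases key 1 with h | ⟨i', hi, h⟩
    · exact h
    · exact absurd hi (a1 i')
  have k2 : 2 ≤ cnt D 2 := by
    rcases key 2 with h | ⟨i', hi, h⟩
    · exact h
    · exact absurd hi (a2 i')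
  omega

/-- A dominating set of `G` of size 6. -/
def D0 : Finset VV := {(0, 0), (2, 0), (0, 3), (1, 3), (2, 3), (3, 3)}

theorem D0_dom : ∀ w : VV, w ∈ D0 ∨ ∃ u ∈ D0, GG.Adj u w := by decide +kernel

/-- A dominating set of `G - v` of size at most 5. -/
def Dv (v : VV) : Finset VV :=
  insert (v.1, v.2 + 3) (insert (v.1 + 2, 0)
    ((Finset.univ.filter (fun i : Fin 4 => i ≠ v.1)).image (fun i => (i, 3))))

theorem Dv_ne : ∀ v : VV, ∀ w ∈ Dv v, w ≠ v := by decide +kernel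

theorem Dv_card : ∀ v : VV, (Dv v).card = 5 := by decide +kernel

theorem Dv_dom : ∀ v w : VV, w ≠ v → w ∈ Dv v ∨ ∃ u ∈ Dv v, GG.Adj u w := by decide +kernel

/-- The negation of the preceding statement: If G is a finite graph in which deleting any single
vertex lowers the domination number, then deleting any set of at most δ(G) edges never raises the
domination number; that is, the bondage number is at least δ(G)+1. -/
theorem result :
    ¬ (∀ (V : Type) [Fintype V] [DecidableEq V] (G : SimpleGraph V) [DecidableRel G.Adj]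
      (γ : SimpleGraph V → Set V → ℕ),
      (∀ (H : SimpleGraph V) (S : Set V),
        γ H S = sInf {n : ℕ | ∃ D : Finset V, (↑D : Set V) ⊆ S ∧ D.card = n ∧
          ∀ w ∈ S, w ∈ D ∨ ∃ u ∈ D, H.Adj u w}) →
      (∀ v : V, γ G {w | w ≠ v} < γ G Set.univ) →
      ∀ E' : Finset (Sym2 V), (↑E' : Set (Sym2 V)) ⊆ G.edgeSet →
        E'.card ≤ G.minDegree →
        γ (G.deleteEdges (↑E' : Set (Sym2 V))) Set.univ ≤ γ G Set.univ) := by
  intro hall
  have key := hall VV GG (fun H S => sInf {n : ℕ | ∃ D : Finset VV, (↑D : Set VV) ⊆ S ∧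
    D.card = n ∧ ∀ w ∈ S, w ∈ D ∨ ∃ u ∈ D, H.Adj u w}) (fun _ _ => rfl)
  have hG : 6 ≤ sInf {n : ℕ | ∃ D : Finset VV, (↑D : Set VV) ⊆ Set.univ ∧
      D.card = n ∧ ∀ w ∈ (Set.univ : Set VV), w ∈ D ∨ ∃ u ∈ D, GG.Adj u w} := by
    apply le_csInf
    · exact ⟨D0.card, D0, Set.subset_univ _, rfl, fun w _ => D0_dom w⟩
    · rintro n ⟨D, -, rfl, hD⟩
      exact lower_G D (fun w => hD w (Set.mem_univ w))
  have hG' : sInf {n : ℕ | ∃ D : Finset VV, (↑D : Set VV) ⊆ Set.univ ∧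
      D.card = n ∧ ∀ w ∈ (Set.univ : Set VV), w ∈ D ∨ ∃ u ∈ D, GG.Adj u w} ≤ 6 := by
    apply Nat.sInf_le
    exact ⟨D0, Set.subset_univ _, by decide +kernel, fun w _ => D0_dom w⟩
  have hGF : 7 ≤ sInf {n : ℕ | ∃ D : Finset VV, (↑D : Set VV) ⊆ Set.univ ∧
      D.card = n ∧ ∀ w ∈ (Set.univ : Set VV), w ∈ D ∨
        ∃ u ∈ D, (GG.deleteEdges (↑FF : Set (Sym2 VV))).Adj u w} := by
    apply le_csInf
    · exact ⟨Finset.univ.card, Finset.univ, Set.subset_univ _, rfl,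
        fun w _ => Or.inl (Finset.mem_univ w)⟩
    · rintro n ⟨D, -, rfl, hD⟩
      exact lower_GF D (fun w => hD w (Set.mem_univ w))
  have hcrit : ∀ v : VV, sInf {n : ℕ | ∃ D : Finset VV, (↑D : Set VV) ⊆ {w | w ≠ v} ∧
      D.card = n ∧ ∀ w ∈ ({w | w ≠ v} : Set VV), w ∈ D ∨ ∃ u ∈ D, GG.Adj u w} ≤ 5 := by
    intro v
    apply Nat.sInf_le
    exact ⟨Dv v, fun w hw => Dv_ne v w (Finset.mem_coe.mp hw), Dv_card v,
      fun w hw => Dv_dom v w hw⟩
  have := key (fun v => lt_of_le_of_lt (hcrit v) (lt_of_lt_of_le (by norm_num) hG)) FF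
    (fun e he => FF_sub e (Finset.mem_coe.mp he)) (by
      rw [FF_card]; exact le_trans (by norm_num) min_deg)
  have h1 : (7 : ℕ) ≤ 6 := le_trans hGF (le_trans this hG')
  omega

end Pool.Agent.S07792
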