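import Pool.Statements.S08133
import Pool.Agent.Lib.P3852H.NoTwo

set_option autoImplicit false
open Pool Pool.MP_3852e9_co

namespace Pool.Agent.S08133

open Pool.Agent.Lib.P3852e9 in
private theorem sym_form (col : EuclideanSpace ℝ (Fin 2) → Fin 2) (s t : ℝ) (hs : 0 < s) (hst : s < t)
    (h1 : ¬ ∃ x y z : EuclideanSpace ℝ (Fin 2),
        dist x y = s ∧ dist y z = s ∧ dist x z = s ∧ col x = col y ∧ col y = col z)
    (h2 : ¬ ∃ x y z : EuclideanSpace ℝ (Fin 2),
        dist x y = t ∧ dist y z = t ∧ dist x z = t ∧ col x = col y ∧ col y = col z) : False := by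
  set ph : ℂ → EuclideanSpace ℝ (Fin 2) := fun z => Complex.orthonormalBasisOneI.repr (s • z)
    with hph
  have hdist : ∀ x y : ℂ, dist (ph x) (ph y) = s * dist x y := by
    intro x y
    rw [hph]
    simp only
    rw [LinearIsometryEquiv.dist_map, dist_smul₀, Real.norm_of_nonneg hs.le]
  set f : ℂ → Bool := fun z => decide (col (ph z) = 0) with hf
  have hcol : ∀ x y : ℂ, f x = f y → col (ph x) = col (ph y) := by
    intro x y hxy
    simp only [hf, decide_eq_decide] at hxy
    by_cases h0 : col (ph x) = 0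
    · rw [h0, hxy.1 h0]
    · have h0' : col (ph y) ≠ 0 := fun h => h0 (hxy.2 h)
      omega
  have hA : ∀ ρ : ℝ, (¬ ∃ x y z : EuclideanSpace ℝ (Fin 2),
      dist x y = s * ρ ∧ dist y z = s * ρ ∧ dist x z = s * ρ ∧ col x = col y ∧
        col y = col z) → AvTri f ρ ρ ρ := by
    intro ρ hρ x y z hxy hyz hxz ⟨e1, e2⟩
    exact hρ ⟨ph x, ph y, ph z, by rw [hdist, hxy], by rw [hdist, hyz], by rw [hdist, hxz],
      hcol _ _ e1, hcol _ _ e2⟩
  have a1 : AvTri f 1 1 1 := hA 1 (by rwa [mul_one])
  have a2 : AvTri f (t / s) (t / s) (t / s) := hA (t / s) (by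
    rwa [mul_div_cancel₀ t hs.ne'])
  have hr : 1 < t / s := by rwa [one_lt_div hs]
  exact Pool.Agent.Lib.P3852H.no_two f hr a1 a2

/-- For any 2-coloring of the plane and positive d ≠ d', if no monochromatic equilateral triangle of side d exists, then a monochromatic equilateral triangle of side d' exists. -/
theorem result :
    ∀ (col : EuclideanSpace ℝ (Fin 2) → Fin 2) (d d' : ℝ), 0 < d → 0 < d' → d ≠ d' →
      (¬ ∃ x y z : EuclideanSpace ℝ (Fin 2),
          dist x y = d ∧ dist y z = d ∧ dist x z = d ∧ col x = col y ∧ col y = col z) →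
      ∃ x y z : EuclideanSpace ℝ (Fin 2),
          dist x y = d' ∧ dist y z = d' ∧ dist x z = d' ∧ col x = col y ∧ col y = col z := by
  intro col d d' hd hd' hne hav
  by_contra hav'
  rcases lt_or_gt_of_ne hne with h | h
  · exact sym_form col d d' hd h hav hav'
  · exact sym_form col d' d hd' h hav' hav

end Pool.Agent.S08133
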