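import Pool.Statements.S08303
import Pool.Agent.Lib.P3f3a3b.Reduction
import Pool.Agent.Lib.P3f3a3b.Final

set_option autoImplicit false
open Pool Pool.MP_3f3a3b_co

namespace Pool.Agent.S08303

/-- Every finite connected indifference graph with no proper edge colouring using Δ colours has a vertex whose closed neighbourhood induces an overfull subgraph of maximum degree Δ. -/
theorem result :
    ∀ (V : Type) [Fintype V] [DecidableEq V] (G : SimpleGraph V) [DecidableRel G.Adj],
      G.Connected →
      (∃ f : V → ℕ, Function.Injective f ∧
        ∀ S : Finset V, G.IsClique (S : Set V) →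
          (∀ T : Finset V, G.IsClique (T : Set V) → S ⊆ T → T = S) →
          ∀ u ∈ S, ∀ w ∈ S, ∀ x : V, f u ≤ f x → f x ≤ f w → x ∈ S) →
      (¬ ∃ c : V → V → ℕ,
          (∀ u v : V, G.Adj u v → c u v = c v u) ∧
          (∀ u v : V, G.Adj u v →
            c u v < Finset.univ.sup
              (fun y : V => (Finset.univ.filter (fun z : V => G.Adj y z)).card)) ∧
          (∀ u v w : V, G.Adj u v → G.Adj u w → v ≠ w → c u v ≠ c u w)) →
      ∃ v : V,
        (∃ x : V, (x = v ∨ G.Adj v x) ∧
          ((Finset.univ.filter (fun y : V => y = v ∨ G.Adj v y)).filter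
              (fun z : V => G.Adj x z)).card
            = Finset.univ.sup
              (fun y : V => (Finset.univ.filter (fun z : V => G.Adj y z)).card)) ∧
        (∑ x ∈ Finset.univ.filter (fun y : V => y = v ∨ G.Adj v y),
            ((Finset.univ.filter (fun y : V => y = v ∨ G.Adj v y)).filter
              (fun z : V => G.Adj x z)).card)
          > 2 * Finset.univ.sup
                (fun y : V => (Finset.univ.filter (fun z : V => G.Adj y z)).card)
              * ((Finset.univ.filter (fun y : V => y = v ∨ G.Adj v y)).card / 2) := by
  intro V _ _ G _ hconn hf hnc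
  exact Pool.Agent.Lib.P3f3a3b.reduction Pool.Agent.Lib.P3f3a3b.mainStatement V G hconn hf hnc

end Pool.Agent.S08303
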