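import Pool.Statements.S08473
import Pool.Agent.Lib.P45dba8.LoneFive
import Pool.Agent.Lib.P45dba8.Lone3Fin

set_option autoImplicit false
open Pool Pool.MP_45dba8_co

namespace Pool.Agent.S08473

/-- For k ≥ 2 and any k-subset S of {1..2k}, the extended Petersen graph XP(2(4k+1),S) has a proper edge colouring with 2k+1 colours (its max degree), i.e. is Class 1; k=1 is exactly the Petersen graph. -/
theorem result :
  ∀ k : ℕ, 2 ≤ k → ∀ S : Finset ℕ, S ⊆ Finset.Icc 1 (2 * k) → S.card = k →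
  ∀ G : SimpleGraph (ZMod (4 * k + 1) × Fin 2),
    (∀ p q : ZMod (4 * k + 1) × Fin 2, G.Adj p q ↔
      ((p.2 = 0 ∧ q.2 = 0 ∧ min (p.1 - q.1).val (q.1 - p.1).val ∈ S) ∨
       (p.2 = 1 ∧ q.2 = 1 ∧
          min (p.1 - q.1).val (q.1 - p.1).val ∈ Finset.Icc 1 (2 * k) \ S) ∨
       (p.1 = q.1 ∧ p.2 ≠ q.2))) →
    ∃ c : Sym2 (ZMod (4 * k + 1) × Fin 2) → Fin (2 * k + 1),
      ∀ e ∈ G.edgeSet, ∀ f ∈ G.edgeSet, e ≠ f →
        (∃ v, v ∈ e ∧ v ∈ f) → c e ≠ c f :=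
  Pool.Agent.P45.main_of_nonHam Pool.Agent.P45.lone3 Pool.Agent.P45.lone5

end Pool.Agent.S08473
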