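import Pool.Statements.S08507
import Pool.Agent.Lib.HBA.Main

set_option autoImplicit false
open Pool Pool.MP_47443c_co

namespace Pool.Agent.S08507

/-- For every k>1 there is N≥2 such that for every even n>N some Boolean function on n bits, a sum of degree-k monomials, is bent: each Walsh coefficient squared equals 2^n. -/
theorem result :
    ∀ k : ℕ, 1 < k → ∃ N : ℕ, 2 ≤ N ∧ ∀ n : ℕ, N < n → Even n →
      ∃ S : Finset (Finset (Fin n)), (∀ s ∈ S, s.card = k) ∧
        ∀ a : Fin n → ZMod 2,
          (∑ x : Fin n → ZMod 2,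
              (-1 : ℤ) ^ (ZMod.val ((∑ s ∈ S, ∏ i ∈ s, x i) + ∑ i : Fin n, a i * x i))) ^ 2
            = 2 ^ n := by
  intro k hk
  exact Pool.Agent.HBA.homBent_all k hk

end Pool.Agent.S08507
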