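import Pool.Statements.S09267
import Pool.Agent.Lib.P67f173.Final

set_option autoImplicit false
open Pool Pool.MP_67f173_co

namespace Pool.Agent.S09267

/-- For every subgraph-closed class of finite graphs whose r-shallow minors have edge density at most polynomial in r, there are d>0 and c such that every graph in the class has a vertex ordering with strong r-coloring number at most c·r^d for all r≥1. -/
theorem result :
  ∀ C : (n : ℕ) → SimpleGraph (Fin n) → Prop,
    (∀ (n m : ℕ) (G : SimpleGraph (Fin n)) (H : SimpleGraph (Fin m)) (f : H →g G),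
        Function.Injective f → C n G → C m H) →
    (∃ c k : ℕ, ∀ (r n : ℕ) (G : SimpleGraph (Fin n)), C n G →
      ∀ (m : ℕ) (H : SimpleGraph (Fin m)) (B : Fin m → Set (Fin n)),
        (∀ i j, i ≠ j → Disjoint (B i) (B j)) →
        (∀ i, ∃ x ∈ B i, ∀ y ∈ B i, ∃ p : G.Walk x y, p.length ≤ r ∧ ∀ w ∈ p.support, w ∈ B i) →
        (∀ i j, H.Adj i j → ∃ a ∈ B i, ∃ b ∈ B j, G.Adj a b) →
        H.edgeSet.ncard ≤ c * (r + 1) ^ k * m) →
    ∃ d : ℕ, 0 < d ∧ ∃ c : ℕ, ∀ r : ℕ, 1 ≤ r → ∀ (n : ℕ) (G : SimpleGraph (Fin n)), C n G →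
      ∃ σ : Equiv.Perm (Fin n), ∀ v : Fin n,
        {u : Fin n | σ u < σ v ∧ ∃ p : G.Walk u v, p.length ≤ r ∧
            ∀ w ∈ p.support, w ≠ u → w ≠ v → σ v < σ w}.ncard ≤ c * r ^ d := by
  intro C _ ⟨c, k, h⟩
  obtain ⟨a, b, hab⟩ := P67.exists_poly_order (2 * c) k
  refine ⟨b + 1, Nat.succ_pos b, a, fun r hr n G hG => ?_⟩
  have hD : P67.Dens G (fun s => 2 * c * (s + 1) ^ k) := by
    have h1 := P67.dens_of_minors (f := fun s => c * (s + 1) ^ k)
      (fun r m H B h1 h2 h3 => h r n G hG m H B h1 h2 h3)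
    have h2 : (fun s : ℕ => 2 * (c * (s + 1) ^ k)) = fun s => 2 * c * (s + 1) ^ k := by
      funext s
      ring
    rwa [h2] at h1
  obtain ⟨σ, hσ⟩ := hab r hr n G hD
  refine ⟨σ, fun v => (hσ v).trans ?_⟩
  exact Nat.mul_le_mul_left _ (Nat.pow_le_pow_right hr (Nat.le_succ b))

end Pool.Agent.S09267
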