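import Pool.Statements.S09451
import Pool.Agent.Lib.P71954f.Main
-- import your own Pool.Agent.* helpers here

set_option autoImplicit false
open Pool Pool.MP_71954f_co

namespace Pool.Agent.S09451

/-- There is K such that every finite digraph with more than K vertices that stays strongly connected after deleting any fewer than K vertices has distinct x, y with two x-to-y and two y-to-x directed paths, all four pairwise sharing only x and y. -/
theorem result :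
    ∃ K : ℕ, ∀ (V : Type) [Fintype V] (G : Digraph V),
      (K < Fintype.card V ∧
        ∀ S : Finset V, S.card < K → ∀ u v : V, u ∉ S → v ∉ S →
          ∃ l : List V, l.head? = some u ∧ l.getLast? = some v ∧ (∀ w ∈ l, w ∉ S) ∧
            ∀ (i : ℕ) (a b : V), l[i]? = some a → l[i+1]? = some b → G.Adj a b) →
      ∃ x y : V, x ≠ y ∧ ∃ P₁ P₂ Q₁ Q₂ : List V,
        (P₁.Nodup ∧ P₁.head? = some x ∧ P₁.getLast? = some y ∧
          ∀ (i : ℕ) (a b : V), P₁[i]? = some a → P₁[i+1]? = some b → G.Adj a b) ∧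
        (P₂.Nodup ∧ P₂.head? = some x ∧ P₂.getLast? = some y ∧
          ∀ (i : ℕ) (a b : V), P₂[i]? = some a → P₂[i+1]? = some b → G.Adj a b) ∧
        (Q₁.Nodup ∧ Q₁.head? = some y ∧ Q₁.getLast? = some x ∧
          ∀ (i : ℕ) (a b : V), Q₁[i]? = some a → Q₁[i+1]? = some b → G.Adj a b) ∧
        (Q₂.Nodup ∧ Q₂.head? = some y ∧ Q₂.getLast? = some x ∧
          ∀ (i : ℕ) (a b : V), Q₂[i]? = some a → Q₂[i+1]? = some b → G.Adj a b) ∧
        P₁ ≠ P₂ ∧ Q₁ ≠ Q₂ ∧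
        (∀ w : V, w ∈ P₁ → w ∈ P₂ → w = x ∨ w = y) ∧
        (∀ w : V, w ∈ Q₁ → w ∈ Q₂ → w = x ∨ w = y) ∧
        (∀ w : V, w ∈ P₁ → w ∈ Q₁ → w = x ∨ w = y) ∧
        (∀ w : V, w ∈ P₁ → w ∈ Q₂ → w = x ∨ w = y) ∧
        (∀ w : V, w ∈ P₂ → w ∈ Q₁ → w = x ∨ w = y) ∧
        (∀ w : V, w ∈ P₂ → w ∈ Q₂ → w = x ∨ w = y) := by
  refine ⟨5, fun V _ G h => ?_⟩
  have hs := P71954f.strong_of_lists G 5 h.2
  obtain ⟨x, y, hxy⟩ := P71954f.exists_TT h.1 (fun v hv => hv.2 rfl) hs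
  exact ⟨x, y, hxy.1, P71954f.lists_of_TT G hxy⟩

end Pool.Agent.S09451
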