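import Pool.Statements.S09522
import Pool.Agent.Lib.P74a576.Graph

set_option autoImplicit false
open Pool Pool.MP_74a576_co

namespace Pool.Agent.S09522

open Pool.Agent.Lib.P74a576

/-- the fractional configuration: `a` pebbles on every source. -/
def stack {m n K q : ℕ} (a : ℕ) : Vt m n K q → ℕ
  | Sum.inl _ => a
  | Sum.inr _ => 0

lemma stack_sum {m n K q : ℕ} (a : ℕ) : ∑ v : Vt m n K q, stack a v = m * a := by
  rw [Fintype.sum_sum_type]
  simp [stack]

lemma solvable (e : ℕ) (K : ℕ) [DecidableEq (Vt (2 ^ (2 * e + 2)) (2 ^ (2 * e + 1)) K (2 * e + 1))]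
    (r : Vt (2 ^ (2 * e + 2)) (2 ^ (2 * e + 1)) K (2 * e + 1)) :
    ∃ D' : Vt (2 ^ (2 * e + 2)) (2 ^ (2 * e + 1)) K (2 * e + 1) → ℕ,
      Relation.ReflTransGen (Move (Gr (2 ^ (2 * e + 2)) (2 ^ (2 * e + 1)) K (2 * e + 1)))
        (stack (2 ^ (5 * e + 6))) D' ∧ 2 ^ (4 * e + 4) ≤ D' r := by
  have hinj : Function.Injective
      (fun i : Fin (2 ^ (2 * e + 2)) =>
        (src i : Vt (2 ^ (2 * e + 2)) (2 ^ (2 * e + 1)) K (2 * e + 1))) := by
    intro a b hab
    simpa using hab
  rcases r with i | y | ⟨y, k, s⟩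
  · refine ⟨_, Relation.ReflTransGen.refl, ?_⟩
    simp only [stack]
    exact Nat.pow_le_pow_right (by norm_num) (by omega)
  · obtain ⟨D', h1, h2⟩ := cover
      (fun i : Fin (2 ^ (2 * e + 2)) =>
        (src i : Vt (2 ^ (2 * e + 2)) (2 ^ (2 * e + 1)) K (2 * e + 1))) hinj
      (stack (2 ^ (5 * e + 6))) (2 ^ (5 * e + 6)) (fun i => rfl)
      (Finset.univ.map y.1) (tgt y) (2 * e + 2) (2 ^ (3 * e + 4))
      (by rw [← pow_add]; congr 1; ring)
      (by
        intro i hi
        obtain ⟨k, _, rfl⟩ := Finset.mem_map.1 hi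
        obtain ⟨w, hw⟩ := path_walk (q := 2 * e + 1) y k 0 (2 * e + 2) (by omega)
        exact ⟨w.copy (P_zero y k) (by rw [zero_add]; exact P_end y k), by
          rw [SimpleGraph.Walk.length_copy, hw]⟩)
    refine ⟨D', h1, le_trans ?_ h2⟩
    rw [Finset.card_map, Finset.card_univ, Fintype.card_fin, ← pow_add]
    exact Nat.pow_le_pow_right (by norm_num) (by omega)
  · by_cases hp : s.val + 1 ≤ e + 2
    · obtain ⟨D', h1, h2⟩ := cover
        (fun i : Fin (2 ^ (2 * e + 2)) =>
          (src i : Vt (2 ^ (2 * e + 2)) (2 ^ (2 * e + 1)) K (2 * e + 1))) hinj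
        (stack (2 ^ (5 * e + 6))) (2 ^ (5 * e + 6)) (fun i => rfl)
        {y.1 k} (mid y k s) (s.val + 1) (2 ^ (5 * e + 6 - (s.val + 1)))
        (by rw [← pow_add]; congr 1; omega)
        (by
          intro i hi
          rw [Finset.mem_singleton] at hi
          subst hi
          obtain ⟨w, hw⟩ := path_walk (q := 2 * e + 1) y k 0 (s.val + 1) (by omega)
          exact ⟨w.copy (P_zero y k) (by rw [zero_add]; exact P_mid y k s.val s.2), by
            rw [SimpleGraph.Walk.length_copy, hw]⟩)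
      refine ⟨D', h1, le_trans ?_ h2⟩
      rw [Finset.card_singleton, one_mul]
      exact Nat.pow_le_pow_right (by norm_num) (by omega)
    · have hs := s.2
      obtain ⟨D', h1, h2⟩ := cover
        (fun i : Fin (2 ^ (2 * e + 2)) =>
          (src i : Vt (2 ^ (2 * e + 2)) (2 ^ (2 * e + 1)) K (2 * e + 1))) hinj
        (stack (2 ^ (5 * e + 6))) (2 ^ (5 * e + 6)) (fun i => rfl)
        (Finset.univ.map y.1) (mid y k s) (4 * e + 4 - (s.val + 1)) (2 ^ (e + 2 + (s.val + 1)))
        (by rw [← pow_add]; congr 1; omega)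
        (by
          intro i hi
          obtain ⟨k', _, rfl⟩ := Finset.mem_map.1 hi
          obtain ⟨w, hw⟩ := path_walk_through (q := 2 * e + 1) y k k' (s.val + 1)
            (2 * e + 1 + 1 - (s.val + 1)) (by omega)
          exact ⟨w.copy rfl (P_mid y k s.val s.2), by
            rw [SimpleGraph.Walk.length_copy, hw]; omega⟩)
      refine ⟨D', h1, le_trans ?_ h2⟩
      rw [Finset.card_map, Finset.card_univ, Fintype.card_fin, ← pow_add]
      exact Nat.pow_le_pow_right (by norm_num) (by omega)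

/-- The negation of the preceding statement: There is a constant c such that for every finite connected graph and every t ≥ 1, t times the optimal pebbling number is at most c times the optimal t-pebbling number, i.e. optimal pebbling number ≤ c · fractional optimal pebbling number. -/
theorem result :
    ¬ (∃ c : ℕ, ∀ (V : Type) [Fintype V] [DecidableEq V] (G : SimpleGraph V), G.Connected →
      ∀ t : ℕ, 1 ≤ t → ∀ D : V → ℕ,
        (∀ r : V, ∃ D' : V → ℕ,
            Relation.ReflTransGen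
              (fun A B : V → ℕ => ∃ u v : V, G.Adj u v ∧ 2 ≤ A u ∧
                B = Function.update (Function.update A u (A u - 2)) v (A v + 1)) D D' ∧
            t ≤ D' r) →
        ∃ E : V → ℕ,
          (∀ r : V, ∃ E' : V → ℕ,
              Relation.ReflTransGen
                (fun A B : V → ℕ => ∃ u v : V, G.Adj u v ∧ 2 ≤ A u ∧
                  B = Function.update (Function.update A u (A u - 2)) v (A v + 1)) E E' ∧
              1 ≤ E' r) ∧
          t * ∑ v, E v ≤ c * ∑ v, D v) := by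
  classical
  rintro ⟨c, hc⟩
  let e := c + 2
  let m := 2 ^ (2 * e + 2)
  let n := 2 ^ (2 * e + 1)
  let q := 2 * e + 1
  let K := n * 2 ^ q + 1
  have hmn : m = 2 * n := by
    simp only [m, n]
    rw [pow_succ]; ring
  have hnpos : 2 ≤ n := by
    simp only [n]
    calc 2 = 2 ^ 1 := rfl
      _ ≤ 2 ^ (2 * e + 1) := Nat.pow_le_pow_right (by norm_num) (by omega)
  have hq : m ≤ 2 ^ (q + 1) := Nat.pow_le_pow_right (by norm_num) (by simp only [q]; omega)
  obtain ⟨E, hE1, hE2⟩ := hc (Vt m n K q) (Gr m n K q)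
    (connected hnpos (by omega) (Nat.succ_pos _)) (2 ^ (4 * e + 4)) (Nat.one_le_two_pow)
    (stack (2 ^ (5 * e + 6))) (fun r => solvable e K r)
  rw [stack_sum] at hE2
  have hbig : n * 2 ^ q < ∑ v, E v := by
    by_contra hcon
    push Not at hcon
    obtain ⟨y0, hy0⟩ := lower (m := m) (n := n) (K := K) (q := q) hmn hq E hcon
      (Nat.lt_succ_self _)
    obtain ⟨E', h1, h2⟩ := hE1 (tgt y0)
    have := hy0 E' h1
    omega
  have h1 : n * 2 ^ q = 2 ^ (4 * e + 2) := by
    simp only [n, q]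
    rw [← pow_add]; congr 1; ring
  rw [h1] at hbig
  have h2 : 2 ^ (4 * e + 4) * 2 ^ (4 * e + 2) < c * (m * 2 ^ (5 * e + 6)) :=
    lt_of_lt_of_le (Nat.mul_lt_mul_of_pos_left hbig (by positivity)) hE2
  have h3 : c * (m * 2 ^ (5 * e + 6)) = 2 ^ (4 * e + 4) * 2 ^ (3 * e + 4) * c := by
    simp only [m]
    rw [← pow_add, ← pow_add, mul_comm]
    congr 2; ring
  rw [h3, mul_assoc] at h2
  have h4 : 2 ^ (4 * e + 2) < 2 ^ (3 * e + 4) * c := Nat.lt_of_mul_lt_mul_left h2
  have he : 4 * e + 2 = (3 * e + 4) + c := by simp only [e]; ring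
  have h5 : 2 ^ (4 * e + 2) = 2 ^ (3 * e + 4) * 2 ^ c := by
    rw [he, pow_add]
  rw [h5] at h4
  have h6 : 2 ^ c < c := Nat.lt_of_mul_lt_mul_left h4
  exact absurd (Nat.lt_two_pow_self (n := c)) (by omega)

end Pool.Agent.S09522
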