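import Pool.Statements.S09789
import Pool.Agent.Lib.P81a4d5.Link

set_option autoImplicit false
open Pool Pool.MP_81a4d5_co

namespace Pool.Agent.S09789

/-- For every field K, every ℓ≥1 and every arrangement of distinct hyperplanes in K^ℓ, the polynomial Σ_p Hilb(D^p(A);x)(−x)^p vanishes above degree ∣A∣ and has coefficient 1 at x^∣A∣. -/
theorem result :
    ∀ (K : Type) [Field K] (ℓ : ℕ), 1 ≤ ℓ → ∀ A : Finset (Fin ℓ → K),
      (∀ a ∈ A, a ≠ 0) →
      (∀ a ∈ A, ∀ b ∈ A, a ≠ b → LinearIndependent K ![a, b]) →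
      ∀ n : ℕ, A.card ≤ n →
        (∑ p ∈ Finset.range (ℓ + 1),
          if p ≤ n then
            (-1 : ℤ) ^ p *
              ((Module.finrank K
                (Submodule.span K
                  {c : (Fin p → Fin ℓ) → MvPolynomial (Fin ℓ) K |
                    (∀ i : Fin p → Fin ℓ, ¬ StrictMono i → c i = 0) ∧
                    (∀ i : Fin p → Fin ℓ, (c i).IsHomogeneous (n - p)) ∧
                    ∀ a ∈ A, ∀ f : Fin p → MvPolynomial (Fin ℓ) K, ∀ j : Fin p,
                      f j = (∑ m : Fin ℓ, MvPolynomial.C (a m) * MvPolynomial.X m) →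
                      (∑ m : Fin ℓ, MvPolynomial.C (a m) * MvPolynomial.X m) ∣
                        ∑ i : Fin p → Fin ℓ,
                          c i * (Matrix.of fun r s => MvPolynomial.pderiv (i r) (f s)).det}) : ℕ) : ℤ)
          else 0) = if n = A.card then 1 else 0 := by
  intro K _ ℓ hℓ A hA hli n hn
  obtain ⟨l, rfl⟩ : ∃ l, ℓ = l + 1 := ⟨ℓ - 1, by omega⟩
  have h1 := Pool.Agent.Lib.P81a4d5.frozen_sum A hA n
  rw [Pool.Agent.Lib.P81a4d5.cc_DD l A hA hli n hn] at h1
  exact h1

end Pool.Agent.S09789
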