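import Pool.Statements.S10855
import Pool.Agent.Lib.Pb0fea6.Count

/-!
Proof of the statement.  Outline.

Let `X` be the set of points lying on more than `16` of the curves.  The parts of the curves
between consecutive points of `X` form a simple graph `D` on `X` (two curves share at most one
point) and this graph has no complete minor on five vertices: otherwise the variation of
`log (e s - f t)` along the boundary of the unit square vanishes for all pairs of independent
edges (as the curves can be pulled apart), and a parity count contradicts this.  Hence `D` has at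
most `8 |X|` edges and the total number of incidences between `X` and the curves is at most
`n + 16 |X|`.  Similarly the number of points on at least two and at most `16` curves is `O(n)`:
pass to a random subfamily and use the graph on the curves whose edges are the contact points on
exactly two curves.  Summing up, the average degree of the intersection graph is at most `k + c`.
-/

set_option autoImplicit false
open Pool Pool.MP_b0fea6_co

namespace Pool.Agent.S10855

open Pool.Agent.Lib.Pb0fea6

/-- the standard identification of the plane with the complex numbers -/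
def toC (p : ℝ × ℝ) : ℂ := ⟨p.1, p.2⟩

theorem toC_inj : Function.Injective toC := by
  intro p q h
  have h1 := congrArg Complex.re h
  have h2 := congrArg Complex.im h
  exact Prod.ext h1 h2

theorem toC_continuous : Continuous toC :=
  Complex.equivRealProdCLM.symm.continuous

theorem toC_dist (p q : ℝ × ℝ) : ‖toC p - toC q‖ ≤ 2 * dist p q := by
  refine (Complex.norm_le_abs_re_add_abs_im _).trans ?_
  have h1 : |(toC p - toC q).re| ≤ dist p q := by
    have : (toC p - toC q).re = p.1 - q.1 := rfl
    rw [this, ← Real.dist_eq]
    exact (le_max_left _ _)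
  have h2 : |(toC p - toC q).im| ≤ dist p q := by
    have : (toC p - toC q).im = p.2 - q.2 := rfl
    rw [this, ← Real.dist_eq]
    exact (le_max_right _ _)
  linarith

/-- There is a constant c such that any finite family of Jordan arcs in the plane can be properly coloured with k+c colours if each two arcs meet at most once, each two arcs can be pulled apart by arbitrarily small moves, and each point lies on at most k arcs. -/
theorem result :
    ∃ c : ℕ, ∀ k n : ℕ, ∀ γ : Fin n → (unitInterval → ℝ × ℝ),
      (∀ i, Continuous (γ i) ∧ Function.Injective (γ i)) →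
      (∀ i j, i ≠ j → (Set.range (γ i) ∩ Set.range (γ j)).Subsingleton) →
      (∀ i j, i ≠ j → ∀ ε : ℝ, 0 < ε →
        ∃ α β : unitInterval → ℝ × ℝ, Continuous α ∧ Continuous β ∧
          (∀ t, dist (α t) (γ i t) < ε) ∧ (∀ t, dist (β t) (γ j t) < ε) ∧
          Disjoint (Set.range α) (Set.range β)) →
      (∀ p : ℝ × ℝ, {i : Fin n | p ∈ Set.range (γ i)}.ncard ≤ k) →
      ∃ f : Fin n → Fin (k + c), ∀ i j, i ≠ j →
        (Set.range (γ i) ∩ Set.range (γ j)).Nonempty → f i ≠ f j := by
  refine ⟨cc + 1, fun k n γ hγ hmeet hsep hload => ?_⟩
  let g : Fin n → II → ℂ := fun i t => toC (γ i t)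
  have hrange : ∀ i (p : ℝ × ℝ), toC p ∈ Set.range (g i) ↔ p ∈ Set.range (γ i) := by
    intro i p
    constructor
    · rintro ⟨t, ht⟩
      exact ⟨t, toC_inj ht⟩
    · rintro ⟨t, rfl⟩
      exact ⟨t, rfl⟩
  have hsurj : ∀ z : ℂ, ∃ p, toC p = z := fun z => ⟨(z.re, z.im), rfl⟩
  have hg : Fam g := by
    refine ⟨fun i => toC_continuous.comp (hγ i).1, fun i => toC_inj.comp (hγ i).2, ?_, ?_⟩
    · intro i j hij z hz w hw
      obtain ⟨p, rfl⟩ := hsurj z
      obtain ⟨q, rfl⟩ := hsurj w
      rw [hmeet i j hij ⟨(hrange i p).1 hz.1, (hrange j p).1 hz.2⟩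
        ⟨(hrange i q).1 hw.1, (hrange j q).1 hw.2⟩]
    · intro i j hij ε hε
      obtain ⟨α, β, hα, hβ, h1, h2, h3⟩ := hsep i j hij (ε / 2) (by linarith)
      refine ⟨fun t => toC (α t), fun t => toC (β t), toC_continuous.comp hα,
        toC_continuous.comp hβ, fun t => ?_, fun t => ?_, fun s t h => ?_⟩
      · exact lt_of_le_of_lt (toC_dist _ _) (by linarith [h1 t])
      · exact lt_of_le_of_lt (toC_dist _ _) (by linarith [h2 t])
      · exact Set.disjoint_left.1 h3 ⟨s, rfl⟩ ⟨t, (toC_inj h).symm⟩
  have hk : ∀ z, (load g z).card ≤ k := by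
    intro z
    obtain ⟨p, rfl⟩ := hsurj z
    refine le_trans (le_of_eq ?_) (hload p)
    rw [← Set.ncard_coe_finset]
    congr 1
    ext i
    simp only [load, Finset.coe_filter, Finset.mem_univ, true_and, Set.mem_ofPred_eq]
    exact hrange i p
  obtain ⟨f, hf⟩ := colouring g hg k hk Finset.univ
  refine ⟨f, fun i j hij ⟨p, hp1, hp2⟩ => hf i (Finset.mem_univ _) j (Finset.mem_univ _) hij
    ⟨toC p, (hrange i p).2 hp1, (hrange j p).2 hp2⟩⟩

end Pool.Agent.S10855
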