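import Pool.Statements.S10869
import Pool.Agent.Lib.AndoD.Fin

set_option autoImplicit false
open Pool Pool.MP_b1c9a2_co

namespace Pool.Agent.S10869

/-- Every finite simple 3-regular graph has a vertex set S of half the vertices such that the subgraphs induced on S and on its complement are isomorphic, acyclic, and have maximum degree at most 2. -/
theorem result :
  ∀ (V : Type) [Fintype V] [DecidableEq V] (G : SimpleGraph V) [DecidableRel G.Adj],
    G.IsRegularOfDegree 3 →
    ∃ S : Finset V,
      S.card = Sᶜ.card ∧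
      Nonempty (G.induce (S : Set V) ≃g G.induce ((Sᶜ : Finset V) : Set V)) ∧
      (G.induce (S : Set V)).IsAcyclic ∧
      (G.induce ((Sᶜ : Finset V) : Set V)).IsAcyclic ∧
      (∀ v ∈ S, (S.filter (fun w => G.Adj v w)).card ≤ 2) ∧
      (∀ v ∈ Sᶜ, (Sᶜ.filter (fun w => G.Adj v w)).card ≤ 2) := by
  intro V _ _ G _ hG
  obtain ⟨S, h1, h2, h3, h4, h5, h6, -, -⟩ := Lib.AndoD.good_cubic V G hG
  exact ⟨S, h1, h2, h3, h4, h5, h6⟩

end Pool.Agent.S10869
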