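import Pool.Statements.S11675
import Pool.Agent.Lib.Pd40e3c.Main

set_option autoImplicit false
open Pool Pool.MP_d40e3c_co

namespace Pool.Agent.S11675

open Pool.Agent.Lib.Pd40e3c

/-- subset sums of a zero-sum-free set of elements of order two are all distinct -/
private lemma two_pow_le {G : Type} [AddCommGroup G] [DecidableEq G] {S : Finset G}
    (hS : ZSF S) (h2 : ∀ x ∈ S, -x = x) : 2 ^ S.card ≤ (ss S).card := by
  rw [ss, Finset.card_image_of_injOn, Finset.card_powerset]
  intro T hT T' hT' hTT
  have hT := Finset.mem_powerset.1 (Finset.mem_coe.1 hT)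
  have hT' := Finset.mem_powerset.1 (Finset.mem_coe.1 hT')
  simp only at hTT
  by_contra hne
  have h1 : ∑ x ∈ T, x = ∑ x ∈ T \ T', x + ∑ x ∈ T ∩ T', x := by
    rw [add_comm]; exact (Finset.sum_inter_add_sum_sdiff _ _ _).symm
  have h3 : ∑ x ∈ T', x = ∑ x ∈ T' \ T, x + ∑ x ∈ T ∩ T', x := by
    rw [Finset.inter_comm, add_comm]; exact (Finset.sum_inter_add_sum_sdiff _ _ _).symm
  have h4 : ∑ x ∈ T \ T', x = ∑ x ∈ T' \ T, x := by
    rw [h1, h3] at hTT
    exact add_right_cancel hTT
  have h5 : ∑ x ∈ T' \ T, x = - ∑ x ∈ T' \ T, x := by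
    rw [← Finset.sum_neg_distrib]
    apply Finset.sum_congr rfl
    intro x hx
    exact (h2 x (hT' (Finset.mem_sdiff.1 hx).1)).symm
  have hsub : (T \ T') ∪ (T' \ T) ⊆ S := Finset.union_subset
    (Finset.sdiff_subset.trans hT) (Finset.sdiff_subset.trans hT')
  apply hS _ hsub
  · rw [Finset.nonempty_iff_ne_empty]
    intro he
    apply hne
    rw [Finset.union_eq_empty, Finset.sdiff_eq_empty_iff_subset,
      Finset.sdiff_eq_empty_iff_subset] at he
    exact Finset.Subset.antisymm he.1 he.2
  · rw [Finset.sum_union, h4]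
    · nth_rewrite 1 [h5]
      exact neg_add_cancel _
    · rw [Finset.disjoint_left]
      intro x hx hx'
      exact (Finset.mem_sdiff.1 hx').2 (Finset.mem_sdiff.1 hx).1

private lemma pow_ge (t : ℕ) (ht : 24 ≤ t) : 10000 * t ^ 2 + 2 ≤ 2 ^ t := by
  induction t, ht using Nat.le_induction with
  | base => norm_num
  | succ t ht ih =>
    rw [pow_succ 2 t]
    nlinarith

/-- There is a real c > 1/9 such that for all large m, every m-element subset of an abelian group with no nonempty subset summing to zero has at least ⌈c m²⌉ distinct nonempty subset sums. -/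
theorem result :
    ∃ c : ℝ, 1 / 9 < c ∧ ∃ M : ℕ, ∀ m : ℕ, M ≤ m →
      ∀ (G : Type) [AddCommGroup G] [DecidableEq G] (A : Finset G),
        A.card = m →
        (∀ B ⊆ A, B.Nonempty → ∑ x ∈ B, x ≠ 0) →
        ⌈c * ((m : ℝ) ^ 2)⌉ ≤
          (((A.powerset.erase ∅).image (fun B => ∑ x ∈ B, x)).card : ℤ) := by
  obtain ⟨N, hN⟩ := P_final
  refine ⟨112 / 1000, by norm_num, max (2 * N) 2500, ?_⟩
  intro m hm G _ _ A hAm hA
  have hmN : 2 * N ≤ m := le_trans (le_max_left _ _) hm
  have hm0 : 2500 ≤ m := le_trans (le_max_right _ _) hm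
  have hZ : ZSF A := hA
  -- number of nonempty subset sums
  have hcount : (ss A).card ≤ ((A.powerset.erase ∅).image (fun B => ∑ x ∈ B, x)).card + 1 := by
    have h1 : ss A ⊆ insert 0 ((A.powerset.erase ∅).image (fun B => ∑ x ∈ B, x)) := by
      intro y hy
      obtain ⟨T, hT, rfl⟩ := mem_ss.1 hy
      rw [Finset.mem_insert, Finset.mem_image]
      by_cases hTe : T = ∅
      · left; subst hTe; simp
      · right
        exact ⟨T, Finset.mem_erase.2 ⟨hTe, Finset.mem_powerset.2 hT⟩, rfl⟩
    exact (Finset.card_le_card h1).trans (Finset.card_insert_le _ _)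
  -- it suffices to bound `ss A`
  suffices hmain : (112 / 1000 : ℝ) * (m : ℝ) ^ 2 + 1 ≤ ((ss A).card : ℝ) by
    rw [Int.ceil_le]
    have h2 : ((ss A).card : ℝ) ≤
        (((A.powerset.erase ∅).image (fun B => ∑ x ∈ B, x)).card : ℝ) + 1 := by
      exact_mod_cast hcount
    push_cast
    linarith
  set A2 := A.filter (fun x => -x = x) with hA2
  set A1 := A.filter (fun x => ¬ (-x = x)) with hA1
  have hsplit : A2.card + A1.card = m := by
    rw [← hAm]; exact Finset.card_filter_add_card_filter_not (s := A) (fun x => -x = x)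
  have hmR : (2500 : ℝ) ≤ m := by exact_mod_cast hm0
  by_cases hbig : m ≤ 100 * A2.card
  · -- many elements of order two
    have h1 : 2 ^ A2.card ≤ (ss A2).card :=
      two_pow_le (hZ.mono (Finset.filter_subset _ _)) (fun x hx => (Finset.mem_filter.1 hx).2)
    have h2 : (ss A2).card ≤ (ss A).card := Finset.card_le_card (ss_mono (Finset.filter_subset _ _))
    have h3 := pow_ge A2.card (by omega)
    have h4 : m ^ 2 ≤ 10000 * A2.card ^ 2 := by
      calc m ^ 2 ≤ (100 * A2.card) ^ 2 := Nat.pow_le_pow_left hbig 2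
        _ = 10000 * A2.card ^ 2 := by ring
    have h5 : m ^ 2 + 2 ≤ (ss A).card := by omega
    have h6 : (m : ℝ) ^ 2 + 2 ≤ ((ss A).card : ℝ) := by exact_mod_cast h5
    nlinarith
  · push Not at hbig
    have hanti : Anti A1 := by
      intro x hx hx'
      have hx1 := Finset.mem_filter.1 hx
      have hx2 := Finset.mem_filter.1 hx'
      have hne : x ≠ -x := fun h => hx1.2 h.symm
      apply hA {x, -x}
      · intro y hy
        simp only [Finset.mem_insert, Finset.mem_singleton] at hy
        rcases hy with rfl | rfl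
        · exact hx1.1
        · exact hx2.1
      · exact Finset.insert_nonempty _ _
      · rw [Finset.sum_pair hne, add_neg_cancel]
    have hA1c : 99 * m ≤ 100 * A1.card := by omega
    have h1 := hN G A1 (hZ.mono (Finset.filter_subset _ _)) hanti (by omega)
    have h2 : (ss A1).card ≤ (ss A).card := Finset.card_le_card (ss_mono (Finset.filter_subset _ _))
    have h3 : ((ss A1).card : ℝ) ≤ ((ss A).card : ℝ) := by exact_mod_cast h2
    have h4 : (99 : ℝ) * m ≤ 100 * (A1.card : ℝ) := by exact_mod_cast hA1c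
    have h5 : (99 / 100 * (m : ℝ)) ^ 2 ≤ (A1.card : ℝ) ^ 2 := by
      apply pow_le_pow_left₀
      · positivity
      · linarith
    nlinarith

end Pool.Agent.S11675
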