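import Pool.Statements.S13929
import Pool.Agent.Lib.Tor.Final
import Pool.Agent.Lib.Itv.Coded

set_option autoImplicit false
open Pool Pool.MP_c7f692_gt

namespace Pool.Agent.S13929

/-- A homeomorphism from continuous self-maps of [0,1] onto I×I×Q×ℓ2 exists that sends surjective maps onto {0}×I×Q×ℓ2, the closure of transitive maps onto {0}×{0}×Q×ℓ2, and transitive maps onto {0}×{0}×s×ℓ2. -/
theorem result :
    ∃ h : C(unitInterval, unitInterval) ≃ₜ
        (unitInterval × unitInterval × (ℕ → Set.Icc (-1:ℝ) 1) × lp (fun _ : ℕ => ℝ) 2),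
      h '' {f : C(unitInterval, unitInterval) | Function.Surjective ⇑f} = {p | p.1 = 0} ∧
      h '' closure {f : C(unitInterval, unitInterval) |
          ∀ U V : Set unitInterval, IsOpen U → IsOpen V → U.Nonempty → V.Nonempty →
            ∃ n : ℕ, 0 < n ∧ ((⇑f)^[n] '' U ∩ V).Nonempty}
        = {p | p.1 = 0 ∧ p.2.1 = 0} ∧
      h '' {f : C(unitInterval, unitInterval) |
          ∀ U V : Set unitInterval, IsOpen U → IsOpen V → U.Nonempty → V.Nonempty →
            ∃ n : ℕ, 0 < n ∧ ((⇑f)^[n] '' U ∩ V).Nonempty}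
        = {p | p.1 = 0 ∧ p.2.1 = 0 ∧ ∀ n, ((p.2.2.1 n : ℝ)) ∈ Set.Ioo (-1:ℝ) 1} := by
  obtain ⟨h, h1, h2, h3⟩ := Pool.Agent.Tor.final Pool.Agent.Tor.coded_CI.coded
    Pool.Agent.Tor.coded_SI.coded Pool.Agent.Tor.coded_TI.coded
  exact ⟨h, h1, h2, h3⟩

end Pool.Agent.S13929
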