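import Pool.Statements.S14589
import Pool.Agent.Lib.CBT.Final

set_option autoImplicit false
open Pool Pool.MP_3999f7_lc

namespace Pool.Agent.S14589

/-- For every v in ℝ³ with ∣v∣>2, the closed unit ball splits into finitely many Baire-property pieces. These move along continuous paths of rotations plus translations from the identity, never overlapping, and end as a partition of the ball union the ball translated by v. -/
theorem result :
  ∀ v : EuclideanSpace ℝ (Fin 3), 2 < ‖v‖ →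
    ∃ (m : ℕ) (A : Fin m → Set (EuclideanSpace ℝ (Fin 3)))
      (R : Fin m → ℝ → Matrix (Fin 3) (Fin 3) ℝ)
      (τ : Fin m → ℝ → EuclideanSpace ℝ (Fin 3)),
      (⋃ i, A i) = Metric.closedBall (0 : EuclideanSpace ℝ (Fin 3)) 1 ∧
      Pairwise (fun i j => Disjoint (A i) (A j)) ∧
      (∀ i, ∃ U : Set (EuclideanSpace ℝ (Fin 3)), IsOpen U ∧ IsMeagre (symmDiff (A i) U)) ∧
      (∀ i, ContinuousOn (R i) (Set.Icc (0 : ℝ) 1) ∧ ContinuousOn (τ i) (Set.Icc (0 : ℝ) 1)) ∧
      (∀ i, ∀ t ∈ Set.Icc (0 : ℝ) 1, R i t ∈ Matrix.specialOrthogonalGroup (Fin 3) ℝ) ∧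
      (∀ i, R i 0 = 1 ∧ τ i 0 = 0) ∧
      (∀ t ∈ Set.Icc (0 : ℝ) 1, Pairwise (fun i j =>
        Disjoint ((fun x => Matrix.toEuclideanLin (R i t) x + τ i t) '' A i)
                 ((fun x => Matrix.toEuclideanLin (R j t) x + τ j t) '' A j))) ∧
      (⋃ i, (fun x => Matrix.toEuclideanLin (R i 1) x + τ i 1) '' A i)
        = Metric.closedBall (0 : EuclideanSpace ℝ (Fin 3)) 1 ∪ Metric.closedBall v 1 := by
  intro v _
  exact Pool.Agent.CBT.concl v

end Pool.Agent.S14589
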