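import Pool.Statements.S14642
import Pool.Agent.Lib.P43c499.Graph

set_option autoImplicit false
open Pool Pool.MP_43c499_lc

namespace Pool.Agent.S14642

/-- The negation of the preceding statement: For Δ≥3, take any Δ-regular acyclic Borel graph on a standard Borel space with no smooth Borel superequivalence of its connectedness on whose classes it is Borel Δ-colourable. Then Marks' Schreier graph on the free part of the shift of Γ_Δ on 2^Γ_Δ Borel-homomorphs into it. -/
theorem result :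
    ¬ (∀ (Δ : ℕ), 3 ≤ Δ →
  ∀ (X : Type) [MeasurableSpace X] [StandardBorelSpace X] (G : SimpleGraph X),
    MeasurableSet {p : X × X | G.Adj p.1 p.2} →
    (∀ x, (G.neighborSet x).encard = (Δ : ℕ∞)) →
    G.IsAcyclic →
    (¬ ∃ E : X → X → Prop, Equivalence E ∧ (∀ x y, G.Reachable x y → E x y) ∧
        (∃ f : X → ℝ, Measurable f ∧ ∀ x y, E x y ↔ f x = f y) ∧
        ∀ x₀ : X, ∃ c : X → Fin Δ, Measurable c ∧
          ∀ x y, E x₀ x → E x₀ y → G.Adj x y → c x ≠ c y) →
    ∃ φ : (Monoid.CoprodI (fun _ : Fin Δ => Multiplicative (ZMod 2)) → Bool) → X,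
      Measurable φ ∧
      ∀ x y : Monoid.CoprodI (fun _ : Fin Δ => Multiplicative (ZMod 2)) → Bool,
        (∀ γ : Monoid.CoprodI (fun _ : Fin Δ => Multiplicative (ZMod 2)),
            γ ≠ 1 → (fun δ => x (γ⁻¹ * δ)) ≠ x) →
        (∃ i : Fin Δ, y = fun δ =>
            x ((Monoid.CoprodI.of (i := i) (Multiplicative.ofAdd (1 : ZMod 2)) :
                Monoid.CoprodI (fun _ : Fin Δ => Multiplicative (ZMod 2)))⁻¹ * δ)) →
        G.Adj (φ x) (φ y)) := by
  intro h
  have hEZ := Pool.Agent.Lib.P43c499.EZ_meas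
  have hsb : StandardBorelSpace Pool.Agent.Lib.P43c499.XX := hEZ.standardBorel
  obtain ⟨φ, hφ, h1⟩ := h 3 le_rfl Pool.Agent.Lib.P43c499.XX Pool.Agent.Lib.P43c499.GG
    Pool.Agent.Lib.P43c499.GG_meas Pool.Agent.Lib.P43c499.GG_deg
    Pool.Agent.Lib.P43c499.GG_acyclic (by
      rintro ⟨E, -, hE2, ⟨f, hf, hEf⟩, hcol⟩
      apply Pool.Agent.Lib.P43c499.red hf
      · intro u v huv
        rw [← hEf]
        exact hE2 u v (SimpleGraph.Adj.reachable huv)
      · intro x0
        obtain ⟨c, hc1, hc2⟩ := hcol x0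
        refine ⟨c, hc1, fun x y hx hy hxy => ?_⟩
        exact hc2 x y ((hEf _ _).mpr hx) ((hEf _ _).mpr hy) hxy)
  apply Pool.Agent.Lib.P43c499.NoHom.noHom
  refine ⟨fun x => (φ x).1, measurable_subtype_coe.comp hφ, fun x hx => ⟨(φ x).2, fun i => ?_⟩⟩
  exact h1 x _ hx ⟨i, rfl⟩

end Pool.Agent.S14642
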