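import Pool.Statements.S15446
import Pool.Agent.Lib.PD7c5de.Final

set_option autoImplicit false
open Pool Pool.MP_d7c5de_lc

namespace Pool.Agent.S15446

/-- The negation of the preceding statement: There is a computable test on pairs of morphisms that, on every unique equality continuation instance, correctly decides whether h(x)=g(x) for some nonempty word x. -/
theorem result :
    ¬ (∃ P : List (List ℕ) × List (List ℕ) → Prop, ComputablePred P ∧
      ∀ H G : List (List ℕ), H.length = G.length →
        (∀ u : List ℕ, (∀ i ∈ u, i < H.length) →
          ∀ a b : ℕ, a < H.length → b < H.length → a ≠ b →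
            ((u ++ [a]).flatMap (fun i => H.getD i []) <+: (u ++ [a]).flatMap (fun i => G.getD i []) ∨
              (u ++ [a]).flatMap (fun i => G.getD i []) <+: (u ++ [a]).flatMap (fun i => H.getD i [])) →
            ((u ++ [b]).flatMap (fun i => H.getD i []) <+: (u ++ [b]).flatMap (fun i => G.getD i []) ∨
              (u ++ [b]).flatMap (fun i => G.getD i []) <+: (u ++ [b]).flatMap (fun i => H.getD i [])) →
            u.flatMap (fun i => H.getD i []) = u.flatMap (fun i => G.getD i [])) →
        (P (H, G) ↔ ∃ x : List ℕ, x ≠ [] ∧ (∀ i ∈ x, i < H.length) ∧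
          x.flatMap (fun i => H.getD i []) = x.flatMap (fun i => G.getD i []))) := 
  Pool.Agent.Lib.PD7c5de.final

end Pool.Agent.S15446
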