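import Pool.Statements.S15510
import Pool.Agent.Lib.Pe29ee7.Embed

set_option autoImplicit false
open Pool Pool.MP_e29ee7_lc

namespace Pool.Agent.S15510

open Set Pool.Agent.Lib.Pe29ee7

/-- The negation of the preceding statement: Let T be a tree that is a countable union of chains. Order its maximal chains by order-embeddability. Then every maximal linearly ordered family of such chains has a countable cofinal subfamily: every member embeds into one of countably many members. -/
theorem result :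
    ¬ (∀ (T : Type) [PartialOrder T],
      (∀ x : T, IsChain (· ≤ ·) {y : T | y < x}) →
      (∃ f : ℕ → Set T, (∀ n, IsChain (· ≤ ·) (f n)) ∧ (⋃ n, f n) = Set.univ) →
      ∀ S : Set (Set T),
        (∀ c ∈ S, IsMaxChain (· ≤ ·) c) →
        IsChain (fun c d : Set T => Nonempty (↥c ↪o ↥d)) S →
        (∀ U : Set (Set T), (∀ c ∈ U, IsMaxChain (· ≤ ·) c) →
            IsChain (fun c d : Set T => Nonempty (↥c ↪o ↥d)) U → S ⊆ U → U = S) →
        ∃ D : Set (Set T), D ⊆ S ∧ D.Countable ∧
          ∀ c ∈ S, ∃ d ∈ D, Nonempty (↥c ↪o ↥d)) := by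
  classical
  intro hmain
  obtain ⟨X, hX1, hX2⟩ := exists_rigid_family
  have hXne : ∀ q, (X q).Nonempty := fun q => (hX1 q 0 1 one_pos).mono inter_subset_left
  -- a maximal chain of maximal chains
  let M : Type := {c : Set (TreeT X) // IsMaxChain (· ≤ ·) c}
  let r : M → M → Prop := fun c d => Nonempty (↥c.1 ↪o ↥d.1)
  have hmax : IsMaxChain r (maxChain r) := maxChain_spec
  let S : Set (Set (TreeT X)) := Subtype.val '' (maxChain r)
  have hS1 : ∀ c ∈ S, IsMaxChain (· ≤ ·) c := by
    rintro c ⟨c', _, rfl⟩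
    exact c'.2
  have hS2 : IsChain (fun c d : Set (TreeT X) => Nonempty (↥c ↪o ↥d)) S := by
    rintro c ⟨c', hc', rfl⟩ d ⟨d', hd', rfl⟩ hne
    exact hmax.1 hc' hd' (fun h => hne (congrArg _ h))
  have hS3 : ∀ U : Set (Set (TreeT X)), (∀ c ∈ U, IsMaxChain (· ≤ ·) c) →
      IsChain (fun c d : Set (TreeT X) => Nonempty (↥c ↪o ↥d)) U → S ⊆ U → U = S := by
    intro U hU1 hU2 hSU
    let U' : Set M := {c | c.1 ∈ U}
    have h1 : IsChain r U' := by
      intro c hc d hd hne
      exact hU2 hc hd (fun h => hne (Subtype.ext h))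
    have h2 : maxChain r ⊆ U' := fun c hc => hSU ⟨c, hc, rfl⟩
    have h3 : maxChain r = U' := hmax.2 h1 h2
    refine subset_antisymm ?_ hSU
    intro c hc
    refine ⟨⟨c, hU1 c hc⟩, ?_, rfl⟩
    rw [h3]
    exact hc
  obtain ⟨D, hDS, hDc, hD⟩ := hmain (TreeT X) isTree union_of_chains S hS1 hS2 hS3
  -- choose branches containing the members of D
  have hbr : ∀ d : Set (TreeT X), ∃ f : ℕ → ℕ, d ∈ D → d ⊆ branch X f := by
    intro d
    by_cases hd : d ∈ D
    · obtain ⟨f, hf⟩ := chain_subset_branch (hS1 d (hDS hd)).1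
      exact ⟨f, fun _ => hf⟩
    · exact ⟨fun _ => 0, fun h => absurd h hd⟩
  choose f hf using hbr
  obtain ⟨g, hg⟩ := exists_dominating (f '' D) (hDc.image f)
  -- inclusion of chains
  have hincl : ∀ {a b : Set (TreeT X)}, a ⊆ b → Nonempty (↥a ↪o ↥b) := by
    intro a b hab
    exact ⟨⟨⟨Set.inclusion hab, Set.inclusion_injective hab⟩, Iff.rfl⟩⟩
  -- the branch of g is above every member of S
  have habove : ∀ c ∈ S, Nonempty (↥c ↪o ↥(branch X g)) := by
    intro c hc
    obtain ⟨d, hd, ⟨φ⟩⟩ := hD c hc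
    obtain ⟨m, hm⟩ := hg (f d) ⟨d, hd, rfl⟩
    obtain ⟨ψ⟩ := hincl (hf d hd)
    obtain ⟨χ⟩ := branch_embed (X := X) (fun n hn => (hm n hn).le)
    exact ⟨(φ.trans ψ).trans χ⟩
  -- so it belongs to S
  have hgS : branch X g ∈ S := by
    have h1 : ∀ c ∈ insert (branch X g) S, IsMaxChain (· ≤ ·) c := by
      intro c hc
      rcases hc with rfl | hc
      · exact branch_maxChain hXne g
      · exact hS1 c hc
    have h2 : IsChain (fun c d : Set (TreeT X) => Nonempty (↥c ↪o ↥d)) (insert (branch X g) S) := by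
      intro c hc d hd hne
      rcases hc with rfl | hc <;> rcases hd with rfl | hd
      · exact absurd rfl hne
      · exact Or.inr (habove d hd)
      · exact Or.inl (habove c hc)
      · exact hS2 hc hd hne
    have h3 := hS3 _ h1 h2 (subset_insert _ _)
    rw [← h3]
    exact mem_insert _ _
  -- contradiction
  obtain ⟨d, hd, ⟨φ⟩⟩ := hD _ hgS
  obtain ⟨m, hm⟩ := hg (f d) ⟨d, hd, rfl⟩
  obtain ⟨ψ⟩ := hincl (hf d hd)
  exact (branch_not_embed hX1 hX2 hm).false (φ.trans ψ)

end Pool.Agent.S15510
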