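import Pool.Statements.S16311
import Pool.Agent.Lib.BM.FinOf

set_option autoImplicit false
open Pool Pool.MP_2347d9_nt

namespace Pool.Agent.S16311

/-- With IKM(a,b;n)=∫₀^∞ I0^a K0^b tⁿ dt, the 2x2 determinant of IKM(0,5;1),IKM(0,5;3),IKM(2,3;1),IKM(2,3;3) equals 45/(8π²)·L(f,4), f=(η3η5)³+(η1η15)³, L via Mellin transform. -/
theorem result :
    ∀ (I0 K0 : ℝ → ℝ) (IKM : ℕ → ℕ → ℕ → ℝ) (eta f : ℝ → ℝ),
      (∀ t : ℝ, I0 t = (1 / Real.pi) * ∫ θ in (0:ℝ)..Real.pi, Real.exp (t * Real.cos θ)) →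
      (∀ t : ℝ, K0 t = ∫ u in Set.Ioi (0:ℝ), Real.exp (-(t * Real.cosh u))) →
      (∀ a b n : ℕ, IKM a b n = ∫ t in Set.Ioi (0:ℝ), I0 t ^ a * K0 t ^ b * t ^ n) →
      (∀ y : ℝ, eta y = Real.exp (-(2 * Real.pi * y / 24)) *
          ∏' n : ℕ, (1 - Real.exp (-(2 * Real.pi * ((n : ℝ) + 1) * y)))) →
      (∀ y : ℝ, f y = (eta (3 * y) * eta (5 * y)) ^ 3 + (eta y * eta (15 * y)) ^ 3) →
      IKM 0 5 1 * IKM 2 3 3 - IKM 0 5 3 * IKM 2 3 1 =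
        45 / (8 * Real.pi ^ 2) *
          ((2 * Real.pi) ^ 4 / Real.Gamma 4 * ∫ y in Set.Ioi (0:ℝ), f y * y ^ 3) :=
  Pool.Agent.Lib.BM.frozen Pool.Agent.Lib.BM.p1 Pool.Agent.Lib.BM.p2_final Pool.Agent.Lib.BM.p3

end Pool.Agent.S16311
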