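import Pool.Statements.S19151
import Pool.Agent.Lib.P0fc.FinalC

set_option autoImplicit false
open Pool Pool.MP_0fbfc9_pr

namespace Pool.Agent.S19151

theorem sh_eq {n d m : ℕ}
    {bd' : (n : ℕ) → Finset (Fin n) → (Finset (Fin n) → ℝ)}
    (hbd : ∀ (n : ℕ) (σ : Finset (Fin n)), bd' n σ =
      ∑ v ∈ σ, ((-1 : ℝ) ^ (σ.filter (fun u => u < v)).card) •
        (Pi.single (σ.erase v) (1 : ℝ) : Finset (Fin n) → ℝ))
    {sh : (n : ℕ) → Set (Finset (Fin n)) → ℕ}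
    (hsh : ∀ (n : ℕ) (S : Set (Finset (Fin n))), sh n S =
      Set.ncard {σ : Finset (Fin n) | σ.card = d + 1 ∧ σ ∉ S ∧
        bd' n σ ∈ Submodule.span ℝ (bd' n '' S)})
    (e : Fin (n.choose (d + 1)) ≃ Pool.Agent.Lib.P0fb.Fc n d) :
    sh n {τ | ∃ i : Fin (n.choose (d + 1)), i.val < m ∧ (e i).val = τ} =
      (Pool.Agent.Lib.P0fb.clF ℝ n d (Pool.Agent.Lib.P0fb.Y e m) \
        Pool.Agent.Lib.P0fb.Y e m).card := by
  classical
  have hb : bd' n = Pool.Agent.Lib.P0fb.bd ℝ n := by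
    funext σ
    rw [hbd, Pool.Agent.Lib.P0fb.bd]
  have hS : {τ : Finset (Fin n) | ∃ i : Fin (n.choose (d + 1)), i.val < m ∧ (e i).val = τ} =
      Subtype.val '' (Pool.Agent.Lib.P0fb.Y e m : Set (Pool.Agent.Lib.P0fb.Fc n d)) := by
    ext τ
    constructor
    · rintro ⟨i, hi, rfl⟩
      exact ⟨e i, by simpa [Pool.Agent.Lib.P0fb.Y] using hi, rfl⟩
    · rintro ⟨x, hx, rfl⟩
      have hx' : x ∈ Pool.Agent.Lib.P0fb.Y e m := hx
      rw [Pool.Agent.Lib.P0fb.Y, Finset.mem_image] at hx'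
      obtain ⟨i, hi, rfl⟩ := hx'
      exact ⟨i, by simpa using hi, rfl⟩
  rw [hsh, hb, hS]
  have h1 : {σ : Finset (Fin n) | σ.card = d + 1 ∧
      σ ∉ Subtype.val '' (Pool.Agent.Lib.P0fb.Y e m : Set (Pool.Agent.Lib.P0fb.Fc n d)) ∧
      Pool.Agent.Lib.P0fb.bd ℝ n σ ∈ Submodule.span ℝ (Pool.Agent.Lib.P0fb.bd ℝ n ''
        (Subtype.val '' (Pool.Agent.Lib.P0fb.Y e m : Set (Pool.Agent.Lib.P0fb.Fc n d))))} =
      Subtype.val '' ((Pool.Agent.Lib.P0fb.clF ℝ n d (Pool.Agent.Lib.P0fb.Y e m) \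
        Pool.Agent.Lib.P0fb.Y e m : Finset (Pool.Agent.Lib.P0fb.Fc n d)) :
        Set (Pool.Agent.Lib.P0fb.Fc n d)) := by
    ext σ
    constructor
    · rintro ⟨h1, h2, h3⟩
      refine ⟨⟨σ, h1⟩, ?_, rfl⟩
      rw [Finset.mem_coe, Finset.mem_sdiff]
      refine ⟨?_, fun h => h2 ⟨_, h, rfl⟩⟩
      rw [Pool.Agent.Lib.P0fb.clF, Finset.mem_filter]
      refine ⟨Finset.mem_univ _, ?_⟩
      rw [Set.image_image] at h3
      exact h3
    · rintro ⟨x, hx, rfl⟩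
      rw [Finset.mem_coe, Finset.mem_sdiff, Pool.Agent.Lib.P0fb.clF, Finset.mem_filter] at hx
      refine ⟨x.2, ?_, ?_⟩
      · rintro ⟨y, hy, hyx⟩
        exact hx.2 (by rwa [← Subtype.ext hyx])
      · rw [Set.image_image]
        exact hx.1.2
  rw [h1, Set.ncard_image_of_injective _ Subtype.val_injective, Set.ncard_coe_finset]

/-- For d≥2 there are C,c>0 such that, adding d-faces on n vertices in uniformly random order, with probability tending to 1 some step moves the real shadow from at most Cn faces to at least c·n^(d+1) faces. -/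
theorem result :
  ∀ d : ℕ, 2 ≤ d →
  ∀ bd : (n : ℕ) → Finset (Fin n) → (Finset (Fin n) → ℝ),
  (∀ (n : ℕ) (σ : Finset (Fin n)), bd n σ =
      ∑ v ∈ σ, ((-1 : ℝ) ^ (σ.filter (fun u => u < v)).card) •
        (Pi.single (σ.erase v) (1 : ℝ) : Finset (Fin n) → ℝ)) →
  ∀ sh : (n : ℕ) → Set (Finset (Fin n)) → ℕ,
  (∀ (n : ℕ) (S : Set (Finset (Fin n))), sh n S =
      Set.ncard {σ : Finset (Fin n) | σ.card = d + 1 ∧ σ ∉ S ∧
        bd n σ ∈ Submodule.span ℝ (bd n '' S)}) →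
  ∃ C c : ℝ, 0 < C ∧ 0 < c ∧
  Filter.Tendsto (fun n : ℕ =>
     (Nat.card {e : Fin (n.choose (d + 1)) ≃ {σ : Finset (Fin n) // σ.card = d + 1} //
        ∃ m : ℕ, m < n.choose (d + 1) ∧
          ((sh n {τ | ∃ i : Fin (n.choose (d + 1)), i.val < m ∧ (e i).val = τ} : ℕ) : ℝ)
              ≤ C * (n : ℝ) ∧
          c * (n : ℝ) ^ (d + 1) ≤
            ((sh n {τ | ∃ i : Fin (n.choose (d + 1)), i.val < m + 1 ∧ (e i).val = τ} : ℕ) : ℝ)} : ℝ) /
     (Nat.card (Fin (n.choose (d + 1)) ≃ {σ : Finset (Fin n) // σ.card = d + 1}) : ℝ))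
   Filter.atTop (nhds 1) := by
  intro d hd bd hbd sh hsh
  obtain ⟨C, c, hC, hc, h⟩ := Pool.Agent.Lib.P0fc.final_c d hd
  refine ⟨C, c, hC, hc, ?_⟩
  refine h.congr (fun n => ?_)
  rw [Pool.Agent.Lib.P0fb.PP_eq_card]
  simp only [sh_eq hbd hsh]

end Pool.Agent.S19151
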