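import Pool.Statements.S19217
import Pool.Agent.Lib.P267408.Conv

set_option autoImplicit false
open Pool Pool.MP_267408_pr

namespace Pool.Agent.S19217

/-- The average, over all simple graphs on n labeled vertices, of the Lovász theta number (max entry-sum of a PSD trace-one matrix vanishing on edges), divided by the square root of n, tends to 1. -/
theorem result :
    Filter.Tendsto
      (fun n : ℕ =>
        ((∑ᶠ G : SimpleGraph (Fin n),
            sSup {s : ℝ | ∃ X : Matrix (Fin n) (Fin n) ℝ,
              X.PosSemidef ∧ X.trace = 1 ∧
              (∀ i j, G.Adj i j → X i j = 0) ∧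
              s = ∑ i, ∑ j, X i j}) /
          (Nat.card (SimpleGraph (Fin n)) : ℝ)) / Real.sqrt n)
      Filter.atTop (nhds 1) := by
  exact Pool.Agent.Lib.P267408.main_limit

end Pool.Agent.S19217
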