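import Pool.Statements.S19664
import Pool.Agent.Lib.Pd47e08.TwoMain

set_option autoImplicit false
open Matrix MeasureTheory ProbabilityTheory
open Pool Pool.MP_d47e08_pr

namespace Pool.Agent.S19664

/-- The quadratic form of the frozen statement is the one used in the helper files. -/
lemma link {n l : ℕ} (c : ℝ) (Z : Finset (Fin n) → ℝ) :
    sSup {t : ℝ | ∃ v : {K : Finset (Fin n) // K.card = l} → ℝ,
                  dotProduct v v = 1 ∧
                  t = dotProduct v (Matrix.mulVec
                    (Matrix.of fun I J : {K : Finset (Fin n) // K.card = l} =>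
                      if (symmDiff I.1 J.1).card = 2
                      then c + Z (symmDiff I.1 J.1)
                      else 0) v)}
      = Pool.Agent.Lib.Pd47e08.lam l 2 (fun S => c + Z S) := by
  unfold Pool.Agent.Lib.Pd47e08.lam
  have h : ∀ v : {K : Finset (Fin n) // K.card = l} → ℝ,
      dotProduct v (Matrix.mulVec
                    (Matrix.of fun I J : {K : Finset (Fin n) // K.card = l} =>
                      if (symmDiff I.1 J.1).card = 2
                      then c + Z (symmDiff I.1 J.1)
                      else 0) v)
        = Pool.Agent.Lib.Pd47e08.qf 2 (fun S => c + Z S) v := by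
    intro v
    unfold Pool.Agent.Lib.Pd47e08.qf
    simp only [dotProduct, Matrix.mulVec, Matrix.of_apply]
    apply Finset.sum_congr rfl
    intro I _
    rw [Finset.mul_sum]
    apply Finset.sum_congr rfl
    intro J _
    split_ifs <;> ring
  simp only [h]

/-- The negation of the preceding statement: For every even r≥2 and every δ>0, for all large ℓ and every μ>δ, some ε>0 gives, for all large n, E λmax of the Kikuchi matrix at signal μ n^(-r/4) ≥ (1+ε) times E λmax at zero signal; i.e. the threshold tends to 0. -/
theorem result :
    ¬ (∀ r : ℕ, 2 ≤ r → Even r →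
    ∀ δ : ℝ, 0 < δ →
      ∀ᶠ ℓ : ℕ in Filter.atTop, ∀ μ : ℝ, δ < μ →
        ∃ ε : ℝ, 0 < ε ∧ ∀ᶠ n : ℕ in Filter.atTop,
          1 + ε ≤
            (∫ (Z : Finset (Fin n) → ℝ),
                sSup {t : ℝ | ∃ v : {K : Finset (Fin n) // K.card = ℓ} → ℝ,
                  dotProduct v v = 1 ∧
                  t = dotProduct v (Matrix.mulVec
                    (Matrix.of fun I J : {K : Finset (Fin n) // K.card = ℓ} =>
                      if (symmDiff I.1 J.1).card = r
                      then μ * (n : ℝ) ^ (-(r : ℝ) / 4) + Z (symmDiff I.1 J.1)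
                      else 0) v)}
              ∂(Measure.pi fun _ : Finset (Fin n) => gaussianReal 0 1))
            /
            (∫ (Z : Finset (Fin n) → ℝ),
                sSup {t : ℝ | ∃ v : {K : Finset (Fin n) // K.card = ℓ} → ℝ,
                  dotProduct v v = 1 ∧
                  t = dotProduct v (Matrix.mulVec
                    (Matrix.of fun I J : {K : Finset (Fin n) // K.card = ℓ} =>
                      if (symmDiff I.1 J.1).card = r
                      then (0 : ℝ) + Z (symmDiff I.1 J.1)
                      else 0) v)}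
              ∂(Measure.pi fun _ : Finset (Fin n) => gaussianReal 0 1))) := by
  intro h
  obtain ⟨l, hl, hl1⟩ := ((h 2 le_rfl even_two (1 / 4) (by norm_num)).and
    (Filter.eventually_ge_atTop 1)).exists
  obtain ⟨ε, hε, hev⟩ := hl (1 / 2) (by norm_num)
  have h2 := Pool.Agent.Lib.Pd47e08.two_main (l := l) hl1 (m := 1 / 2) (by norm_num) hε
  obtain ⟨n, hn1, hn2, hn3⟩ := (hev.and h2).exists
  simp only [link] at hn1
  have e0 : (fun Z : Finset (Fin n) → ℝ =>
      Pool.Agent.Lib.Pd47e08.lam l 2 (fun S => (0 : ℝ) + Z S))
      = fun Z => Pool.Agent.Lib.Pd47e08.lam l 2 Z := by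
    funext Z
    simp
  rw [e0] at hn1
  rw [le_div_iff₀ hn2] at hn1
  push_cast at hn1
  exact absurd hn3 (not_lt.2 hn1)

end Pool.Agent.S19664
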