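import Pool.Statements.S19771
import Pool.Agent.Lib.Pff0a55.Frozen
import Pool.Agent.Lib.Pff0a55.Bridge

set_option autoImplicit false
open Filter Classical
open Pool Pool.MP_ff0a55_pr

namespace Pool.Agent.S19771

/-- For every d ≥ 2 and β > 0 on ℤ^d, the walk free energy (1/n)log Σ e^{β·contacts} over n-step self-avoiding walks converges, and its limit equals the limit of the polygon free energy along even n. -/
theorem result :
    ∀ d : ℕ, 2 ≤ d → ∀ β : ℝ, 0 < β →
    ∀ P : (n : ℕ) → (Fin n → Fin d × Bool) → ℕ → (Fin d → ℤ),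
    (∀ (n : ℕ) (s : Fin n → Fin d × Bool) (t : ℕ),
        P n s t = ∑ j ∈ Finset.univ.filter (fun j : Fin n => j.val < t),
          (fun i : Fin d => if i = (s j).1 then (if (s j).2 then (1 : ℤ) else -1) else 0)) →
    ∃ L : ℝ,
      Tendsto (fun n : ℕ =>
        Real.log (∑ s ∈ Finset.univ.filter (fun s : Fin n → Fin d × Bool =>
              ∀ a ∈ Finset.range (n + 1), ∀ b ∈ Finset.range (n + 1),
                P n s a = P n s b → a = b),
            Real.exp (β * (((Finset.range (n + 1) ×ˢ Finset.range (n + 1)).filter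
              (fun p : ℕ × ℕ => p.1 + 1 < p.2 ∧
                ∑ i : Fin d, |P n s p.1 i - P n s p.2 i| = 1)).card : ℝ))) / (n : ℝ))
        atTop (nhds L) ∧
      Tendsto (fun m : ℕ =>
        Real.log ((1 / (2 * (2 * m : ℝ))) *
          ∑ s ∈ Finset.univ.filter (fun s : Fin (2 * m) → Fin d × Bool =>
              P (2 * m) s (2 * m) = 0 ∧
              ∀ a ∈ Finset.range (2 * m), ∀ b ∈ Finset.range (2 * m),
                P (2 * m) s a = P (2 * m) s b → a = b),
            Real.exp (β * (((Finset.range (2 * m) ×ˢ Finset.range (2 * m)).filter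
              (fun p : ℕ × ℕ => p.1 + 1 < p.2 ∧ ¬ (p.1 = 0 ∧ p.2 + 1 = 2 * m) ∧
                ∑ i : Fin d, |P (2 * m) s p.1 i - P (2 * m) s p.2 i| = 1)).card : ℝ)))
          / (2 * m : ℝ))
        atTop (nhds L) := by
  intro d hd β hβ P hP
  exact Pool.Agent.Lib.Pff0a55.main_of_closing d hd
    (Pool.Agent.Lib.Pff0a55.closingStmt d (by omega)) β hβ P hP

end Pool.Agent.S19771
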